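import Mathlib
import Pool.Agent.PRK.Odd

/-!
# The clique lemma for the graphs of this folder

`L` is an extension of degree `t` of a finite field `F` of characteristic two, `om` is the
determinant form on `L × L`, `lam : L → F` is an `F`-linear functional and `η ∈ L` has absolute
trace one. If `a_1, …, a_{2t}` are vectors of `L × L` with `lam (om a_i a_j) = 1` and
`Tr (lam (η * om a_i a_j)) = 0` for `i ≠ j`, then we get a contradiction: the `a_i` form an
`F`-basis of `L × L` with dual basis `s + a_i`, `s = ∑ a_j`, and computing in it the trace of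
`(x, y) ↦ (η x, 0)` gives `Tr (η) = ∑_{i < j} lam (η * om a_i a_j)`.
-/

set_option autoImplicit false
set_option linter.unusedSectionVars false
open Classical

namespace Pool.Agent.PRW

open Pool.Agent.PRK (om om_add_left om_comm om_smul_left om_self om_zero_left)

variable {F : Type} [Field F] [Fintype F] [Algebra (ZMod 2) F]
  {L : Type} [Field L] [Fintype L] [Algebra F L] [Algebra (ZMod 2) L] [IsScalarTower (ZMod 2) F L]

/-- the form `lam (om v w)`, as a linear functional of `v` -/
def pairL (lam : L →ₗ[F] F) (w : L × L) : (L × L) →ₗ[F] F where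
  toFun v := lam (om v w)
  map_add' v v' := by rw [om_add_left, map_add]
  map_smul' c v := by
    rw [RingHom.id_apply, ← map_smul]
    congr 1
    simp only [om, Prod.smul_fst, Prod.smul_snd, smul_mul_assoc, smul_add]

theorem pairL_apply (lam : L →ₗ[F] F) (w v : L × L) : pairL lam w v = lam (om v w) := rfl

theorem om_sum_right {ι : Type} (s : Finset ι) (v : L × L) (f : ι → L × L) :
    om v (∑ i ∈ s, f i) = ∑ i ∈ s, om v (f i) := by
  induction s using Finset.induction_on with
  | empty => simp [om]
  | insert i S hi ih =>
    rw [Finset.sum_insert hi, Finset.sum_insert hi, om_comm, om_add_left, om_comm (f i), om_comm _ v,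
      ih]

/-- the operator `(x, y) ↦ (η x, 0)` -/
noncomputable def theta (F : Type) [Field F] {L : Type} [Field L] [Algebra F L] (η : L) :
    (L × L) →ₗ[F] (L × L) :=
  LinearMap.prodMap (LinearMap.mulLeft F η) 0

theorem theta_apply (η : L) (v : L × L) : theta F η v = (η * v.1, 0) := rfl

theorem trace_theta (η : L) : LinearMap.trace F (L × L) (theta F η) = Algebra.trace F L η := by
  rw [theta, LinearMap.trace_prodMap', map_zero, add_zero, Algebra.trace_apply]
  rfl

theorem om_theta (η : L) (v w : L × L) : om (theta F η v) w = η * (v.1 * w.2) := by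
  rw [theta_apply]
  simp only [om]
  ring

/-- **The clique lemma.** -/
theorem no_clique (lam : L →ₗ[F] F) (η : L) (hη : Algebra.trace (ZMod 2) L η = 1)
    {m : ℕ} (hm : m = 2 * Module.finrank F L) (a : Fin m → L × L)
    (h1 : ∀ i j, i ≠ j → lam (om (a i) (a j)) = 1)
    (h2 : ∀ i j, i ≠ j → Algebra.trace (ZMod 2) F (lam (η * om (a i) (a j))) = 0) : False := by
  have hchF : CharP F 2 := charP_of_injective_algebraMap (algebraMap (ZMod 2) F).injective 2
  have hchL : CharP L 2 := charP_of_injective_algebraMap (algebraMap F L).injective 2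
  have hfm : FiniteDimensional F L := inferInstance
  -- the Gram matrix
  have hgram : ∀ i j, lam (om (a i) (a j)) = if i = j then 0 else 1 := by
    intro i j
    split_ifs with h
    · rw [h, om_self, map_zero]
    · exact h1 i j h
  -- sums with one term left out
  have hsum : ∀ (c : Fin m → F) (j : Fin m), ∑ i, c i * (if i = j then (0 : F) else 1)
      = (∑ i, c i) + c j := by
    intro c j
    have h3 : ∀ i, c i * (if i = j then (0 : F) else 1) = c i - (if i = j then c i else 0) := by
      intro i
      split_ifs <;> simp
    simp_rw [h3]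
    rw [Finset.sum_sub_distrib, Finset.sum_ite_eq' Finset.univ j, if_pos (Finset.mem_univ j),
      CharTwo.sub_eq_add]
  have hm0 : ∑ _i : Fin m, (1 : F) = 0 := by
    rw [Finset.sum_const, Finset.card_univ, Fintype.card_fin, hm, nsmul_eq_mul]
    push_cast
    rw [CharTwo.two_eq_zero, zero_mul, zero_mul]
  -- independence
  have hli : LinearIndependent F a := by
    rw [Fintype.linearIndependent_iff]
    intro c hc
    have h4 : ∀ j, (∑ i, c i) + c j = 0 := by
      intro j
      rw [← hsum c j]
      have h5 := congrArg (pairL lam (a j)) hc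
      rw [map_sum, map_zero] at h5
      refine Eq.trans ?_ h5
      refine Finset.sum_congr rfl fun i _ => ?_
      rw [map_smul, pairL_apply, hgram, smul_eq_mul]
    have h5 : ∀ j, c j = ∑ i, c i := by
      intro j
      have := h4 j
      have h6 := CharTwo.add_self_eq_zero (∑ i, c i)
      linear_combination this - h6
    have h6 : ∑ i, c i = 0 := by
      calc ∑ i, c i = ∑ _i : Fin m, ∑ j, c j := Finset.sum_congr rfl fun i _ => h5 i
        _ = (∑ _i : Fin m, (1 : F)) * ∑ j, c j := by rw [Finset.sum_mul]; simp
        _ = 0 := by rw [hm0, zero_mul]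
    intro i
    rw [h5 i, h6]
  have hfin : Fintype.card (Fin m) = Module.finrank F (L × L) := by
    rw [Fintype.card_fin, Module.finrank_prod, hm]
    ring
  have hne : Nonempty (Fin m) := by
    refine ⟨⟨0, ?_⟩⟩
    have : 0 < Module.finrank F L := Module.finrank_pos
    omega
  set b := basisOfLinearIndependentOfCardEqFinrank hli hfin with hb
  have hbi : ∀ i, b i = a i := fun i => by rw [hb, coe_basisOfLinearIndependentOfCardEqFinrank]
  set s : L × L := ∑ j, a j with hs
  -- the dual basis
  have hdual : ∀ i, b.coord i = pairL lam (s + a i) := by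
    intro i
    refine b.ext fun l => ?_
    rw [Module.Basis.coord_apply, Module.Basis.repr_self, Finsupp.single_apply, hbi, pairL_apply,
      om_comm, om_add_left, map_add, om_comm (a i), hgram, om_comm s, hs, om_sum_right, map_sum]
    have h3 : ∑ j, lam (om (a l) (a j)) = 1 := by
      have h4 : ∀ j, lam (om (a l) (a j)) = (1 : F) * (if j = l then (0 : F) else 1) := by
        intro j
        rw [hgram]
        by_cases h : l = j
        · simp [h]
        · rw [if_neg h, if_neg (fun h' => h h'.symm), one_mul]
      simp_rw [h4]
      rw [hsum (fun _ => 1) l, hm0, zero_add]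
    rw [h3]
    split_ifs with h
    · simp
    · rw [CharTwo.add_self_eq_zero]
  -- the trace
  have htr : Algebra.trace F L η = ∑ i, lam (om (theta F η (a i)) (s + a i)) := by
    rw [← trace_theta, LinearMap.trace_eq_matrix_trace F b, Matrix.trace]
    refine Finset.sum_congr rfl fun i _ => ?_
    rw [Matrix.diag_apply, LinearMap.toMatrix_apply, ← Module.Basis.coord_apply, hdual, pairL_apply,
      hbi]
  set g : Fin m → Fin m → F := fun i j => lam (η * ((a i).1 * (a j).2)) with hg
  have htr2 : Algebra.trace F L η = ∑ p ∈ (Finset.univ : Finset (Fin m)).offDiag, g p.1 p.2 := by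
    have h3 : ∀ i, lam (om (theta F η (a i)) (s + a i)) = (∑ j, g i j) + g i i := by
      intro i
      rw [om_comm, om_add_left, map_add, om_comm s, om_comm (a i), hs, om_sum_right,
        map_sum, om_theta]
      congr 1
      refine Finset.sum_congr rfl fun j _ => ?_
      rw [om_theta]
    rw [htr]
    simp_rw [h3]
    rw [Finset.sum_add_distrib, ← Finset.sum_product', ← Finset.diag_union_offDiag,
      Finset.sum_union (Finset.disjoint_diag_offDiag _), Finset.sum_diag]
    have h4 := CharTwo.add_self_eq_zero (∑ i, g i i)
    linear_combination h4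
  have h3 := congrArg (Algebra.trace (ZMod 2) F) htr2
  rw [Algebra.trace_trace, hη, map_sum] at h3
  have h4 : ∑ p ∈ (Finset.univ : Finset (Fin m)).offDiag, Algebra.trace (ZMod 2) F (g p.1 p.2) = 0 := by
    refine Finset.sum_involution (fun p _ => (p.2, p.1)) ?_ ?_ ?_ ?_
    · intro p hp
      rw [Finset.mem_offDiag] at hp
      have h5 := h2 p.1 p.2 hp.2.2
      rw [← map_add, ← h5, hg]
      simp only
      rw [← map_add, om]
      congr 2
      ring
    · intro p hp _ h
      rw [Finset.mem_offDiag] at hp
      exact hp.2.2 (congrArg Prod.snd h)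
    · intro p hp
      rw [Finset.mem_offDiag] at hp ⊢
      exact ⟨hp.2.1, hp.1, fun h => hp.2.2 h.symm⟩
    · intro p _
      rfl
  rw [h4] at h3
  exact one_ne_zero h3

end Pool.Agent.PRW
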