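import Mathlib

/-!
# A convolution bound on the multiplicative group of a finite field
-/

set_option autoImplicit false
set_option linter.unusedSectionVars false
open Classical

namespace Pool.Agent.PRW

variable {L : Type} [Field L] [Fintype L]

noncomputable instance fintypeMulChar : Fintype (MulChar L ℂ) := Fintype.ofFinite _

/-- orthogonality -/
theorem sum_chars (a : Lˣ) :
    ∑ χ : MulChar L ℂ, χ (a : L) = if a = 1 then (Fintype.card Lˣ : ℂ) else 0 := by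
  split_ifs with ha
  · rw [ha]
    simp only [Units.val_one, map_one, Finset.sum_const, Finset.card_univ, nsmul_eq_mul, mul_one]
    have h1 := MulChar.card_eq_card_units_of_hasEnoughRootsOfUnity L ℂ
    rw [Nat.card_eq_fintype_card, Nat.card_eq_fintype_card] at h1
    rw [h1]
  · have ha' : (a : L) ≠ 1 := fun h => ha (Units.ext h)
    obtain ⟨χ, hχ⟩ := MulChar.exists_apply_ne_one_of_hasEnoughRootsOfUnity L ℂ ha'
    refine eq_zero_of_mul_eq_self_left hχ ?_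
    simp only [Finset.mul_sum, ← MulChar.mul_apply]
    exact Fintype.sum_bijective _ (Group.mulLeft_bijective χ) _ _ fun χ' ↦ rfl

/-- the Fourier coefficients -/
noncomputable def ft (g : Lˣ → ℝ) (χ : MulChar L ℂ) : ℂ := ∑ u : Lˣ, (g u : ℂ) * χ (u : L)

theorem conj_char (χ : MulChar L ℂ) (u : Lˣ) :
    (starRingEnd ℂ) (χ (u : L)) = χ ((u⁻¹ : Lˣ) : L) := by
  have h1 : star (χ (u : L)) = χ⁻¹ (u : L) := by
    rw [← MulChar.star_apply, MulChar.star_eq_inv]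
  rw [starRingEnd_apply, h1, MulChar.inv_apply', Units.val_inv_eq_inv_val]

theorem conj_ft (g : Lˣ → ℝ) (χ : MulChar L ℂ) :
    (starRingEnd ℂ) (ft g χ) = ∑ u : Lˣ, (g u : ℂ) * χ ((u⁻¹ : Lˣ) : L) := by
  rw [ft, map_sum]
  refine Finset.sum_congr rfl fun u _ => ?_
  rw [map_mul, Complex.conj_ofReal, conj_char]

/-- **Parseval.** -/
theorem parseval (g : Lˣ → ℝ) :
    ∑ χ : MulChar L ℂ, ‖ft g χ‖ ^ 2 = Fintype.card Lˣ * ∑ u, g u ^ 2 := by
  have h1 : ∀ χ : MulChar L ℂ, ((‖ft g χ‖ ^ 2 : ℝ) : ℂ)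
      = ∑ u : Lˣ, ∑ v : Lˣ, (g u : ℂ) * (g v : ℂ) * χ ((u * v⁻¹ : Lˣ) : L) := by
    intro χ
    rw [← Complex.normSq_eq_norm_sq, ← Complex.mul_conj, conj_ft, ft, Finset.sum_mul_sum]
    refine Finset.sum_congr rfl fun u _ => Finset.sum_congr rfl fun v _ => ?_
    rw [Units.val_mul, map_mul]
    ring
  have h2 : ((∑ χ : MulChar L ℂ, ‖ft g χ‖ ^ 2 : ℝ) : ℂ)
      = ((Fintype.card Lˣ * ∑ u, g u ^ 2 : ℝ) : ℂ) := by
    push_cast
    have h3 : ∀ χ : MulChar L ℂ, ((‖ft g χ‖ : ℝ) : ℂ) ^ 2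
        = ∑ u : Lˣ, ∑ v : Lˣ, (g u : ℂ) * (g v : ℂ) * χ ((u * v⁻¹ : Lˣ) : L) := by
      intro χ
      rw [← h1]
      push_cast
      rfl
    simp_rw [h3]
    rw [Finset.sum_comm, Finset.mul_sum]
    refine Finset.sum_congr rfl fun u _ => ?_
    rw [Finset.sum_comm]
    simp_rw [← Finset.mul_sum, sum_chars]
    rw [Finset.sum_eq_single u]
    · rw [if_pos (mul_inv_cancel u)]
      ring
    · intro v _ hv
      rw [if_neg (fun h => hv (mul_inv_eq_one.mp h).symm), mul_zero]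
    · intro h
      exact absurd (Finset.mem_univ u) h
  exact_mod_cast h2

/-- the Fourier coefficients of a convolution -/
theorem ft_conv (g τ : Lˣ → ℝ) (χ : MulChar L ℂ) :
    ft (fun w => ∑ l : Lˣ, g l * τ (l * w)) χ = (starRingEnd ℂ) (ft g χ) * ft τ χ := by
  rw [conj_ft, ft, ft, Finset.sum_mul]
  have h1 : ∀ w : Lˣ, (((∑ l : Lˣ, g l * τ (l * w) : ℝ) : ℂ)) * χ (w : L)
      = ∑ l : Lˣ, (g l : ℂ) * ((τ (l * w) : ℂ) * χ (w : L)) := by
    intro w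
    push_cast
    rw [Finset.sum_mul]
    refine Finset.sum_congr rfl fun l _ => ?_
    ring
  simp_rw [h1]
  rw [Finset.sum_comm]
  refine Finset.sum_congr rfl fun l _ => ?_
  rw [← Finset.mul_sum, mul_assoc]
  congr 1
  rw [← Equiv.sum_comp (Equiv.mulLeft l⁻¹), Finset.mul_sum]
  refine Finset.sum_congr rfl fun w _ => ?_
  rw [Equiv.coe_mulLeft, mul_inv_cancel_left, Units.val_mul, map_mul]
  ring

/-- **The convolution bound.** -/
theorem conv_bound (g τ : Lˣ → ℝ) (M : ℝ) (hM0 : 0 ≤ M) (hM : ∀ χ : MulChar L ℂ, χ ≠ 1 → ‖ft τ χ‖ ^ 2 ≤ M) :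
    Fintype.card Lˣ * ∑ w : Lˣ, (∑ l : Lˣ, g l * τ (l * w)) ^ 2
      ≤ (∑ l, g l) ^ 2 * (∑ l, τ l) ^ 2 + M * (Fintype.card Lˣ * ∑ l, g l ^ 2) := by
  rw [← parseval, ← parseval, Finset.mul_sum]
  have h1 : ∀ χ : MulChar L ℂ, ‖ft (fun w => ∑ l : Lˣ, g l * τ (l * w)) χ‖ ^ 2
      = ‖ft g χ‖ ^ 2 * ‖ft τ χ‖ ^ 2 := by
    intro χ
    rw [ft_conv, norm_mul, mul_pow, RCLike.norm_conj]
  simp_rw [h1]
  have h2 : ∀ g : Lˣ → ℝ, ‖ft g 1‖ ^ 2 = (∑ l, g l) ^ 2 := by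
    intro g
    have h3 : ft g 1 = ((∑ l, g l : ℝ) : ℂ) := by
      rw [ft]
      push_cast
      refine Finset.sum_congr rfl fun u _ => ?_
      rw [MulChar.one_apply_coe, mul_one]
    rw [h3, Complex.norm_real, Real.norm_eq_abs, sq_abs]
  rw [← Finset.add_sum_erase _ _ (Finset.mem_univ (1 : MulChar L ℂ)),
    ← Finset.add_sum_erase (a := (1 : MulChar L ℂ)) _ (fun χ => M * ‖ft g χ‖ ^ 2)
      (Finset.mem_univ 1), h2, h2]
  have h4 : ∑ χ ∈ Finset.univ.erase (1 : MulChar L ℂ), ‖ft g χ‖ ^ 2 * ‖ft τ χ‖ ^ 2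
      ≤ ∑ χ ∈ Finset.univ.erase (1 : MulChar L ℂ), M * ‖ft g χ‖ ^ 2 := by
    refine Finset.sum_le_sum fun χ hχ => ?_
    rw [mul_comm]
    exact mul_le_mul_of_nonneg_right (hM χ (Finset.ne_of_mem_erase hχ)) (sq_nonneg _)
  have h5 : 0 ≤ M * (∑ l, g l) ^ 2 := mul_nonneg hM0 (sq_nonneg _)
  linarith

end Pool.Agent.PRW
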