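import Mathlib
import Pool.Agent.PRK.Odd
import Pool.Agent.PRW.Fourier

/-!
# Flatness of the graphs `om v w ∈ T` on `L × L`

If all the sums `∑_{u ∈ T} χ u` with `χ` a nontrivial multiplicative character are at most `√M` in
absolute value, then the eigenvalues are at most `√(|L| M + |T|²)` in absolute value.
-/

set_option autoImplicit false
set_option linter.unusedSectionVars false
open Classical

namespace Pool.Agent.PRW

open Pool.Agent.PRK (om om_add_left om_comm om_smul_left om_self om_zero_left)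

variable {L : Type} [Field L] [Fintype L] [Algebra (ZMod 2) L]

/-- a sum over the units -/
theorem sum_units (F : L → ℝ) (h0 : F 0 = 0) : ∑ u : Lˣ, F u = ∑ x : L, F x := by
  rw [← Finset.add_sum_erase _ _ (Finset.mem_univ (0 : L)), h0, zero_add]
  refine Finset.sum_bij (fun u _ => (u : L)) ?_ ?_ ?_ ?_
  · intro u _
    exact Finset.mem_erase.mpr ⟨u.ne_zero, Finset.mem_univ _⟩
  · intro a _ b _ h
    exact Units.ext h
  · intro x hx
    exact ⟨Units.mk0 x (Finset.ne_of_mem_erase hx), Finset.mem_univ _, rfl⟩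
  · intro u _
    rfl

/-- two coordinates -/
theorem sum_pair [CharP L 2] {x y : L × L} (h : om x y ≠ 0) (F G : L → ℝ) :
    ∑ z : L × L, F (om z x) * G (om z y) = (∑ u, F u) * ∑ u, G u := by
  have hinj : Function.Injective (fun z : L × L => (om z x, om z y)) := by
    intro z z' hz
    have h1 : om z x = om z' x := congrArg Prod.fst hz
    have h2 : om z y = om z' y := congrArg Prod.snd hz
    simp only [om] at h h1 h2
    have h3 : (z.1 + z'.1) * (x.1 * y.2 + x.2 * y.1) = 0 := by
      have f1 := CharTwo.add_self_eq_zero (z.2 * x.1 * y.1)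
      have f2 := CharTwo.add_self_eq_zero (z'.2 * x.1 * y.1)
      have f3 := CharTwo.add_self_eq_zero (z'.1 * x.2 * y.1)
      have f4 := CharTwo.add_self_eq_zero (z'.1 * y.2 * x.1)
      linear_combination y.1 * h1 + x.1 * h2 - f1 + f2 + f3 + f4
    have h4 : (z.2 + z'.2) * (x.1 * y.2 + x.2 * y.1) = 0 := by
      have f1 := CharTwo.add_self_eq_zero (z.1 * x.2 * y.2)
      have f2 := CharTwo.add_self_eq_zero (z'.1 * x.2 * y.2)
      have f3 := CharTwo.add_self_eq_zero (z'.2 * x.1 * y.2)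
      have f4 := CharTwo.add_self_eq_zero (z'.2 * y.1 * x.2)
      linear_combination y.2 * h1 + x.2 * h2 - f1 + f2 + f3 + f4
    have h5 : z.1 + z'.1 = 0 := (mul_eq_zero.mp h3).resolve_right h
    have h6 : z.2 + z'.2 = 0 := (mul_eq_zero.mp h4).resolve_right h
    have h7 := CharTwo.add_self_eq_zero z'.1
    have h8 := CharTwo.add_self_eq_zero z'.2
    refine Prod.ext ?_ ?_
    · linear_combination h5 - h7
    · linear_combination h6 - h8
  have hbij := Finite.injective_iff_bijective.mp hinj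
  have h1 := hbij.sum_comp (fun p : L × L => F p.1 * G p.2)
  simp only at h1
  rw [h1, Fintype.sum_prod_type, Finset.sum_mul_sum]

theorem sum_single [CharP L 2] {x : L × L} (h : x ≠ 0) (F : L → ℝ) :
    ∑ z : L × L, F (om z x) = Fintype.card L * ∑ u, F u := by
  obtain ⟨y, hy⟩ : ∃ y, om x y ≠ 0 := by
    by_cases h1 : x.1 = 0
    · have h2 : x.2 ≠ 0 := fun h2 => h (Prod.ext h1 h2)
      refine ⟨(1, 0), ?_⟩
      simpa [om] using h2
    · refine ⟨(0, 1), ?_⟩
      simpa [om] using h1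
  have h1 := sum_pair hy F (fun _ => 1)
  simp only [mul_one, Finset.sum_const, Finset.card_univ, nsmul_eq_mul] at h1
  rw [h1, mul_comm]

theorem exists_smul_of_om_eq_zero [CharP L 2] {x y : L × L} (hx : x ≠ 0) (hy : y ≠ 0)
    (h : om x y = 0) : ∃ μ : Lˣ, y = (μ : L) • x := by
  simp only [om] at h
  by_cases h1 : x.1 = 0
  · have h2 : x.2 ≠ 0 := fun h2 => hx (Prod.ext h1 h2)
    rw [h1, zero_mul, zero_add] at h
    have h3 : y.1 = 0 := (mul_eq_zero.mp h).resolve_left h2
    have h4 : y.2 ≠ 0 := fun h4 => hy (Prod.ext h3 h4)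
    refine ⟨Units.mk0 (y.2 / x.2) (div_ne_zero h4 h2), ?_⟩
    refine Prod.ext ?_ ?_
    · simp [h1, h3]
    · simp only [Units.val_mk0, Prod.smul_snd, smul_eq_mul]
      field_simp
  · have h3 : y.1 ≠ 0 := by
      intro h3
      rw [h3, mul_zero, add_zero] at h
      exact hy (Prod.ext h3 ((mul_eq_zero.mp h).resolve_left h1))
    refine ⟨Units.mk0 (y.1 / x.1) (div_ne_zero h3 h1), ?_⟩
    refine Prod.ext ?_ ?_
    · simp only [Units.val_mk0, Prod.smul_fst, smul_eq_mul]
      field_simp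
    · simp only [Units.val_mk0, Prod.smul_snd, smul_eq_mul]
      field_simp
      have h5 := CharTwo.add_self_eq_zero (x.2 * y.1)
      linear_combination h - h5

/-- indicator -/
noncomputable def ind (T : Finset L) (u : L) : ℝ := if u ∈ T then 1 else 0

/-- the number of pairs in `T` with a given quotient -/
noncomputable def rr (T : Finset L) (μ : Lˣ) : ℝ := ∑ w : Lˣ, ind T w * ind T ((μ * w : Lˣ) : L)

/-- **Common neighbours** -/
theorem common [CharP L 2] (T : Finset L) (h0 : (0 : L) ∉ T) {x y : L × L} (hx : x ≠ 0) (hy : y ≠ 0) :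
    ∑ z : L × L, ind T (om z x) * ind T (om z y)
      = (T.card : ℝ) ^ 2 + ∑ μ : Lˣ, (if y = (μ : L) • x
          then Fintype.card L * rr T μ - (T.card : ℝ) ^ 2 else 0) := by
  have hind0 : ind T 0 = 0 := by rw [ind, if_neg h0]
  have hsum : ∑ u : L, ind T u = T.card := by
    simp [ind]
  by_cases h : om x y = 0
  · obtain ⟨μ, hμ⟩ := exists_smul_of_om_eq_zero hx hy h
    rw [Finset.sum_eq_single μ]
    · rw [if_pos hμ]
      have h1 : ∀ z, om z y = μ * om z x := by
        intro z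
        rw [hμ, om_comm, om_smul_left, om_comm]
      simp_rw [h1]
      rw [sum_single hx (fun u => ind T u * ind T (μ * u)),
        ← sum_units (fun u => ind T u * ind T (μ * u)) (by rw [hind0, zero_mul]), rr]
      simp only [Units.val_mul]
      ring
    · intro ν _ hν
      rw [if_neg]
      intro h2
      apply hν
      rw [hμ] at h2
      have h3 : ((ν : L) - μ) • x = 0 := by rw [sub_smul, h2, sub_self]
      rcases smul_eq_zero.mp h3 with h4 | h4
      · exact Units.ext (sub_eq_zero.mp h4)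
      · exact absurd h4 hx
    · intro h2
      exact absurd (Finset.mem_univ μ) h2
  · rw [sum_pair h, hsum, Finset.sum_eq_zero]
    · ring
    · intro μ _
      rw [if_neg]
      intro h2
      apply h
      rw [h2, om_comm, om_smul_left, om_self, mul_zero]

theorem rr_conv (T : Finset L) (g : Lˣ → ℝ) :
    ∑ l : Lˣ, ∑ μ : Lˣ, g l * g μ * rr T (μ * l⁻¹)
      = ∑ w : Lˣ, (∑ l : Lˣ, g l * ind T ((l * w : Lˣ) : L)) ^ 2 := by
  have h1 : ∀ w : Lˣ, (∑ l : Lˣ, g l * ind T ((l * w : Lˣ) : L)) ^ 2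
      = ∑ l : Lˣ, ∑ μ : Lˣ, g l * g μ * (ind T ((l * w : Lˣ) : L) * ind T ((μ * w : Lˣ) : L)) := by
    intro w
    rw [sq, Finset.sum_mul_sum]
    refine Finset.sum_congr rfl fun l _ => Finset.sum_congr rfl fun μ _ => ?_
    ring
  have h2 : ∑ w : Lˣ, (∑ l : Lˣ, g l * ind T ((l * w : Lˣ) : L)) ^ 2
      = ∑ l : Lˣ, ∑ μ : Lˣ, ∑ w : Lˣ,
        g l * g μ * (ind T ((l * w : Lˣ) : L) * ind T ((μ * w : Lˣ) : L)) := by
    simp_rw [h1]
    rw [Finset.sum_comm]
    refine Finset.sum_congr rfl fun l _ => ?_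
    rw [Finset.sum_comm]
  rw [h2]
  refine Finset.sum_congr rfl fun l _ => Finset.sum_congr rfl fun μ _ => ?_
  rw [← Finset.mul_sum, rr]
  congr 1
  rw [← Equiv.sum_comp (Equiv.mulLeft l)]
  refine Finset.sum_congr rfl fun w _ => ?_
  rw [Equiv.coe_mulLeft]
  congr 3
  group

/-- **Flatness.** -/
theorem flat [CharP L 2] (T : Finset L) (h0 : (0 : L) ∉ T) (M : ℝ) (hM0 : 0 ≤ M)
    (hM : ∀ χ : MulChar L ℂ, χ ≠ 1 → ‖∑ u ∈ T, χ u‖ ^ 2 ≤ M)
    (f : L × L → ℝ) (hf0 : f 0 = 0) (hf : ∑ x, f x = 0) :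
    ∑ z : L × L, (∑ y : L × L, if om z y ∈ T then f y else 0) ^ 2
      ≤ (Fintype.card L * M + (T.card : ℝ) ^ 2) * ∑ x, f x ^ 2 := by
  set N : ℝ := ((Fintype.card Lˣ : ℕ) : ℝ) with hN
  have hNpos : 0 < N := by
    rw [hN]; exact_mod_cast Fintype.card_pos
  have hNL : N + 1 = Fintype.card L := by
    rw [hN]
    have := Fintype.card_units (α := L)
    have h1 : 1 < Fintype.card L := Fintype.one_lt_card
    have h2 : Fintype.card Lˣ + 1 = Fintype.card L := by omega
    exact_mod_cast h2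
  -- the Fourier coefficients of `T`
  have hT : ∀ χ : MulChar L ℂ, χ ≠ 1 → ‖ft (fun u : Lˣ => ind T u) χ‖ ^ 2 ≤ M := by
    intro χ hχ
    have h1 : ft (fun u : Lˣ => ind T u) χ = ∑ u ∈ T, χ u := by
      rw [ft]
      have h2 : ∑ u ∈ T, χ u = ∑ x : L, (if x ∈ T then χ x else 0) := by
        rw [Finset.sum_ite_mem, Finset.univ_inter]
      rw [h2, ← Finset.add_sum_erase _ _ (Finset.mem_univ (0 : L)), if_neg h0, zero_add]
      refine Finset.sum_bij (fun u _ => (u : L)) ?_ ?_ ?_ ?_
      · intro u _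
        exact Finset.mem_erase.mpr ⟨u.ne_zero, Finset.mem_univ _⟩
      · intro a _ b _ h
        exact Units.ext h
      · intro x hx
        exact ⟨Units.mk0 x (Finset.ne_of_mem_erase hx), Finset.mem_univ _, rfl⟩
      · intro u _
        simp only [ind]
        split_ifs <;> simp
    rw [h1]
    exact hM χ hχ
  have hTsum : ∑ u : Lˣ, ind T u = T.card := by
    rw [sum_units (fun u => ind T u) (by rw [ind, if_neg h0])]
    simp [ind]
  -- expansion
  have hexp : ∑ z : L × L, (∑ y : L × L, if om z y ∈ T then f y else 0) ^ 2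
      = ∑ x, ∑ y, f x * f y * ∑ z : L × L, ind T (om z x) * ind T (om z y) := by
    have h1 : ∀ z : L × L, (∑ y : L × L, if om z y ∈ T then f y else 0) ^ 2
        = ∑ x, ∑ y, f x * f y * (ind T (om z x) * ind T (om z y)) := by
      intro z
      rw [sq, Finset.sum_mul_sum]
      refine Finset.sum_congr rfl fun x _ => Finset.sum_congr rfl fun y _ => ?_
      simp only [ind]
      split_ifs <;> ring
    simp_rw [h1]
    rw [Finset.sum_comm]
    refine Finset.sum_congr rfl fun x _ => ?_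
    rw [Finset.sum_comm]
    refine Finset.sum_congr rfl fun y _ => ?_
    rw [← Finset.mul_sum]
  have hexp2 : ∑ z : L × L, (∑ y : L × L, if om z y ∈ T then f y else 0) ^ 2
      = ∑ x, ∑ μ : Lˣ, f x * f ((μ : L) • x) * (Fintype.card L * rr T μ - (T.card : ℝ) ^ 2) := by
    rw [hexp]
    have h1 : ∀ x y : L × L, f x * f y * ∑ z : L × L, ind T (om z x) * ind T (om z y)
        = (T.card : ℝ) ^ 2 * (f x * f y) + ∑ μ : Lˣ, (if y = (μ : L) • x
          then f x * f y * (Fintype.card L * rr T μ - (T.card : ℝ) ^ 2) else 0) := by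
      intro x y
      by_cases hx : x = 0
      · rw [hx, hf0]
        simp
      by_cases hy : y = 0
      · rw [hy, hf0]
        simp
      rw [common T h0 hx hy, mul_add, Finset.mul_sum]
      congr 1
      · ring
      · refine Finset.sum_congr rfl fun μ _ => ?_
        split_ifs <;> simp
    simp_rw [h1]
    simp_rw [Finset.sum_add_distrib]
    have h2 : ∑ x, ∑ y, (T.card : ℝ) ^ 2 * (f x * f y) = 0 := by
      simp_rw [← Finset.mul_sum]
      rw [← Finset.sum_mul, hf]
      ring
    rw [h2, zero_add]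
    refine Finset.sum_congr rfl fun x _ => ?_
    rw [Finset.sum_comm]
    refine Finset.sum_congr rfl fun μ _ => ?_
    rw [Finset.sum_ite_eq' Finset.univ ((μ : L) • x), if_pos (Finset.mem_univ _)]
  -- averaging over the orbits
  have hact : ∀ (l : Lˣ) (F : L × L → ℝ), ∑ x, F ((l : L) • x) = ∑ x, F x := by
    intro l F
    refine Function.Bijective.sum_comp (e := fun x : L × L => (l : L) • x) ?_ F
    refine Finite.injective_iff_bijective.mp ?_
    intro x y h
    have h1 := congrArg (fun z => ((l : L)⁻¹) • z) h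
    simpa [smul_smul] using h1
  have havg : N * ∑ z : L × L, (∑ y : L × L, if om z y ∈ T then f y else 0) ^ 2
      = ∑ x, ∑ l : Lˣ, ∑ μ : Lˣ, f ((l : L) • x) * f ((μ : L) • x)
        * (Fintype.card L * rr T (μ * l⁻¹) - (T.card : ℝ) ^ 2) := by
    rw [hexp2, Finset.sum_comm (s := (Finset.univ : Finset (L × L)))]
    have h1 : ∀ l : Lˣ, ∑ x, ∑ μ : Lˣ, f ((l : L) • x) * f ((μ : L) • x)
        * (Fintype.card L * rr T (μ * l⁻¹) - (T.card : ℝ) ^ 2)
        = ∑ x, ∑ μ : Lˣ, f x * f ((μ : L) • x) * (Fintype.card L * rr T μ - (T.card : ℝ) ^ 2) := by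
      intro l
      rw [← hact l (fun x => ∑ μ : Lˣ, f x * f ((μ : L) • x)
        * (Fintype.card L * rr T μ - (T.card : ℝ) ^ 2))]
      refine Finset.sum_congr rfl fun x _ => ?_
      rw [← Equiv.sum_comp (Equiv.mulRight l)]
      refine Finset.sum_congr rfl fun μ _ => ?_
      rw [Equiv.coe_mulRight, mul_inv_cancel_right, Units.val_mul, smul_smul]
    rw [Finset.sum_comm (s := (Finset.univ : Finset (L × L)))]
    simp_rw [h1]
    rw [Finset.sum_const, Finset.card_univ, nsmul_eq_mul, ← hN]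
    congr 1
    rw [Finset.sum_comm]
  have hmain : N * ∑ z : L × L, (∑ y : L × L, if om z y ∈ T then f y else 0) ^ 2
      ≤ N * ((Fintype.card L * M + (T.card : ℝ) ^ 2) * ∑ x, f x ^ 2) := by
    rw [havg]
    have h1 : ∀ x : L × L, ∑ l : Lˣ, ∑ μ : Lˣ, f ((l : L) • x) * f ((μ : L) • x)
        * (Fintype.card L * rr T (μ * l⁻¹) - (T.card : ℝ) ^ 2)
        ≤ (Fintype.card L * M + (T.card : ℝ) ^ 2) * ∑ l : Lˣ, f ((l : L) • x) ^ 2 := by
      intro x
      set g : Lˣ → ℝ := fun l => f ((l : L) • x) with hg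
      have h2 : ∑ l : Lˣ, ∑ μ : Lˣ, f ((l : L) • x) * f ((μ : L) • x)
          * (Fintype.card L * rr T (μ * l⁻¹) - (T.card : ℝ) ^ 2)
          = Fintype.card L * ∑ w : Lˣ, (∑ l : Lˣ, g l * ind T ((l * w : Lˣ) : L)) ^ 2
            - (T.card : ℝ) ^ 2 * (∑ l, g l) ^ 2 := by
        rw [← rr_conv, sq (∑ l, g l), Finset.sum_mul_sum, Finset.mul_sum, Finset.mul_sum,
          ← Finset.sum_sub_distrib]
        refine Finset.sum_congr rfl fun l _ => ?_
        rw [Finset.mul_sum, Finset.mul_sum, ← Finset.sum_sub_distrib]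
        refine Finset.sum_congr rfl fun μ _ => ?_
        rw [hg]
        ring
      rw [h2]
      have h3 := conv_bound g (fun u : Lˣ => ind T u) M hM0 hT
      rw [hTsum, ← hN] at h3
      have h4 : (∑ l, g l) ^ 2 ≤ N * ∑ l, g l ^ 2 := by
        have h5 := sq_sum_le_card_mul_sum_sq (s := (Finset.univ : Finset Lˣ)) (f := g)
        rw [Finset.card_univ] at h5
        exact h5
      rw [← hNL]
      set A := ∑ w : Lˣ, (∑ l : Lˣ, g l * ind T ((l * w : Lˣ) : L)) ^ 2 with hA
      set B := (∑ l, g l) ^ 2 with hB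
      set D := ∑ l, g l ^ 2 with hD
      have hB0 : 0 ≤ B := sq_nonneg _
      have hA1 : N * A ≤ B * (T.card : ℝ) ^ 2 + M * (N * D) := h3
      have hA2 : (N + 1) * (N * A) ≤ (N + 1) * (B * (T.card : ℝ) ^ 2 + M * (N * D)) :=
        mul_le_mul_of_nonneg_left hA1 (by linarith)
      have hT2 : B * (T.card : ℝ) ^ 2 ≤ N * D * (T.card : ℝ) ^ 2 :=
        mul_le_mul_of_nonneg_right h4 (sq_nonneg _)
      have h6 : N * ((N + 1) * A - (T.card : ℝ) ^ 2 * B)
          ≤ N * (((N + 1) * M + (T.card : ℝ) ^ 2) * D) := by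
        nlinarith
      exact le_of_mul_le_mul_left h6 hNpos
    refine (Finset.sum_le_sum fun x _ => h1 x).trans ?_
    rw [← Finset.mul_sum, Finset.sum_comm]
    simp_rw [hact _ (fun x => f x ^ 2)]
    rw [Finset.sum_const, Finset.card_univ, nsmul_eq_mul, ← hN]
    exact le_of_eq (by ring)
  exact le_of_mul_le_mul_left hmain hNpos

end Pool.Agent.PRW
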