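import Mathlib

/-!
# Power sums, Newton's identities and a bound for coefficients

* `norm_le_of_powerSums`: if the power sums of finitely many complex numbers are `O(B ^ m)`, then all
  of them have absolute value at most `B`;
* `exists_roots`: if `n a_n = ∑ S_i a_{n-i}`, with `a` finitely supported, then `S_i` is minus the
  `i`-th power sum of the inverse roots of `∑ a_j z ^ j`;
* `coeff_bound`: the resulting bound for the `a_j`.
-/

set_option autoImplicit false
open Polynomial

namespace Pool.Agent.PRW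

theorem norm_le_of_powerSums {ι : Type} [Fintype ι] (z : ι → ℂ) (B K : ℝ) (hB : 0 < B)
    (h : ∀ m : ℕ, 1 ≤ m → ‖∑ i, z i ^ m‖ ≤ K * B ^ m) (i : ι) : ‖z i‖ ≤ B := by
  classical
  by_contra hlt
  push Not at hlt
  set S : Finset ℂ := Finset.univ.image z with hS
  set g : ℂ[X] := ∏ w ∈ S.erase (z i), (X - C w) with hg
  have hgz : g.eval (z i) ≠ 0 := by
    rw [hg, eval_prod, Finset.prod_ne_zero_iff]
    intro w hw
    rw [eval_sub, eval_X, eval_C, sub_ne_zero]
    exact (Finset.ne_of_mem_erase hw).symm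
  have hg0 : ∀ j, z j ≠ z i → g.eval (z j) = 0 := by
    intro j hj
    rw [hg, eval_prod]
    refine Finset.prod_eq_zero (i := z j) (Finset.mem_erase.mpr ⟨hj, ?_⟩) (by simp)
    exact Finset.mem_image_of_mem z (Finset.mem_univ j)
  set c : ℕ := (Finset.univ.filter (fun j => z j = z i)).card with hc
  have hcpos : 0 < c := Finset.card_pos.mpr ⟨i, by simp⟩
  -- the combination of power sums
  have hcomb : ∀ n : ℕ, ∑ k ∈ Finset.range (g.natDegree + 1), g.coeff k * ∑ j, z j ^ (n + k)
      = c * (z i ^ n * g.eval (z i)) := by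
    intro n
    have h1 : ∑ k ∈ Finset.range (g.natDegree + 1), g.coeff k * ∑ j, z j ^ (n + k)
        = ∑ j, z j ^ n * g.eval (z j) := by
      simp_rw [Finset.mul_sum]
      rw [Finset.sum_comm]
      refine Finset.sum_congr rfl fun j _ => ?_
      rw [eval_eq_sum_range, Finset.mul_sum]
      refine Finset.sum_congr rfl fun k _ => ?_
      rw [pow_add]; ring
    rw [h1, ← Finset.sum_filter_add_sum_filter_not Finset.univ (fun j => z j = z i)]
    have h2 : ∑ j ∈ Finset.univ.filter (fun j => z j = z i), z j ^ n * g.eval (z j)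
        = c * (z i ^ n * g.eval (z i)) := by
      rw [Finset.sum_congr rfl (g := fun _ => z i ^ n * g.eval (z i))]
      · rw [Finset.sum_const, nsmul_eq_mul]
      · intro j hj
        rw [(Finset.mem_filter.mp hj).2]
    have h3 : ∑ j ∈ Finset.univ.filter (fun j => ¬ z j = z i), z j ^ n * g.eval (z j) = 0 := by
      refine Finset.sum_eq_zero fun j hj => ?_
      rw [hg0 j (Finset.mem_filter.mp hj).2, mul_zero]
    rw [h2, h3, add_zero]
  set D : ℝ := ∑ k ∈ Finset.range (g.natDegree + 1), ‖g.coeff k‖ * (K * B ^ k) with hD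
  have hbound : ∀ n : ℕ, 1 ≤ n → (c : ℝ) * (‖z i‖ ^ n * ‖g.eval (z i)‖) ≤ D * B ^ n := by
    intro n hn
    have h1 := congrArg norm (hcomb n)
    rw [norm_mul, norm_mul, norm_pow, Complex.norm_natCast] at h1
    rw [← h1]
    refine (norm_sum_le _ _).trans ?_
    rw [hD, Finset.sum_mul]
    refine Finset.sum_le_sum fun k _ => ?_
    rw [norm_mul]
    have h2 := h (n + k) (by omega)
    calc ‖g.coeff k‖ * ‖∑ j, z j ^ (n + k)‖ ≤ ‖g.coeff k‖ * (K * B ^ (n + k)) :=
          mul_le_mul_of_nonneg_left h2 (norm_nonneg _)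
      _ = ‖g.coeff k‖ * (K * B ^ k) * B ^ n := by rw [pow_add]; ring
  have hr : 1 < ‖z i‖ / B := (one_lt_div hB).mpr hlt
  set e : ℝ := (c : ℝ) * ‖g.eval (z i)‖ with he
  have hepos : 0 < e := mul_pos (by exact_mod_cast hcpos) (norm_pos_iff.mpr hgz)
  obtain ⟨n, hn⟩ := pow_unbounded_of_one_lt (D / e) hr
  have hn' : D / e < (‖z i‖ / B) ^ (n + 1) :=
    hn.trans_le (pow_le_pow_right₀ hr.le (Nat.le_succ n))
  have h3 := hbound (n + 1) (by omega)
  rw [div_pow, div_lt_div_iff₀ hepos (pow_pos hB _)] at hn'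
  have h4 : (c : ℝ) * (‖z i‖ ^ (n + 1) * ‖g.eval (z i)‖) = ‖z i‖ ^ (n + 1) * e := by
    rw [he]; ring
  rw [h4] at h3
  linarith

theorem exists_list (s : Multiset ℂ) (t : ℕ) (h : s.card = t) :
    ∃ ω : Fin t → ℂ, Finset.univ.val.map ω = s := by
  subst h
  induction s using Quotient.inductionOn with
  | _ l =>
    refine ⟨fun i => l.get (Fin.cast (by simp) i), ?_⟩
    simp only [Fin.univ_val_map]
    have h1 : (List.ofFn fun i : Fin (Multiset.card (⟦l⟧ : Multiset ℂ)) =>
        l.get (Fin.cast (by simp) i)) = l := by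
      refine List.ext_getElem ?_ ?_
      · simp
      · intro n h1 h2
        simp
    rw [h1]
    rfl

theorem exists_roots (t : ℕ) (a : ℕ → ℂ) (ha0 : a 0 = 1) (hat : ∀ n, t < n → a n = 0)
    (S : ℕ → ℂ) (hS : ∀ n : ℕ, (n : ℂ) * a n = ∑ i ∈ Finset.Icc 1 n, S i * a (n - i)) :
    ∃ ω : Fin t → ℂ, (∀ m, 1 ≤ m → ∑ i, ω i ^ m = - S m) ∧
      (∏ i, (X - C (ω i))) = ∑ j ∈ Finset.range (t + 1), C (a j) * X ^ (t - j) := by
  classical
  set p : ℂ[X] := ∑ j ∈ Finset.range (t + 1), C (a j) * X ^ (t - j) with hp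
  have hp' : p = X ^ t + ∑ j ∈ Finset.Icc 1 t, C (a j) * X ^ (t - j) := by
    rw [hp, Finset.sum_range_eq_add_Ico _ (by omega)]
    simp only [ha0, map_one, one_mul, Nat.sub_zero]
    congr 1
  have hdeg : (∑ j ∈ Finset.Icc 1 t, C (a j) * X ^ (t - j) : ℂ[X]).degree < t := by
    refine (degree_sum_le _ _).trans_lt ?_
    rw [Finset.sup_lt_iff (by exact WithBot.bot_lt_coe t)]
    intro j hj
    rw [Finset.mem_Icc] at hj
    refine (degree_C_mul_X_pow_le _ _).trans_lt ?_
    exact_mod_cast (by omega : t - j < t)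
  have hmonic : p.Monic := by
    rw [hp']
    exact monic_X_pow_add hdeg
  have hnat : p.natDegree = t := by
    rw [hp']
    refine natDegree_eq_of_degree_eq_some ?_
    rw [degree_add_eq_left_of_degree_lt (by rw [degree_X_pow]; exact hdeg), degree_X_pow]
  have hcard : p.roots.card = t := by
    rw [← hnat]
    exact (IsAlgClosed.splits p).natDegree_eq_card_roots.symm
  -- list the roots
  obtain ⟨ω, hω⟩ : ∃ ω : Fin t → ℂ, Finset.univ.val.map ω = p.roots := by
    exact exists_list _ _ hcard
  have hprod : ∏ i, (X - C (ω i)) = p := by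
    have h1 := (IsAlgClosed.splits p).eq_prod_roots_of_monic hmonic
    rw [h1, ← hω, Multiset.map_map]
    rfl
  -- the coefficients are elementary symmetric functions
  set E : ℕ → ℂ := fun k => MvPolynomial.aeval ω (MvPolynomial.esymm (Fin t) ℂ k) with hE
  have hEa : ∀ j, a j = (-1) ^ j * E j := by
    intro j
    by_cases hj : j ≤ t
    · have h1 := Multiset.prod_X_sub_X_eq_sum_esymm (Finset.univ.val.map ω)
      rw [Multiset.map_map] at h1
      have h2 : (Finset.univ.val.map ((fun t => X - C t) ∘ ω)).prod = p := hprod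
      rw [h2, Multiset.card_map, Finset.card_val, Finset.card_univ, Fintype.card_fin] at h1
      have h3 : p.coeff (t - j) = (∑ j ∈ Finset.range (t + 1),
          (-1) ^ j * (C ((Finset.univ.val.map ω).esymm j) * X ^ (t - j)) : ℂ[X]).coeff (t - j) := by
        rw [← h1]
      have h4 : p.coeff (t - j) = a j := by
        rw [hp, finsetSum_coeff]
        rw [Finset.sum_eq_single j]
        · simp
        · intro b hb hbj
          rw [coeff_C_mul, coeff_X_pow, if_neg, mul_zero]
          have := Finset.mem_range.mp hb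
          omega
        · intro h
          exact absurd (Finset.mem_range.mpr (by omega)) h
      rw [h4] at h3
      rw [h3, finsetSum_coeff, Finset.sum_eq_single j]
      · rw [hE]
        simp only
        rw [MvPolynomial.aeval_esymm_eq_multiset_esymm]
        rw [show ((-1 : ℂ[X]) ^ j * (C ((Finset.univ.val.map ω).esymm j) * X ^ (t - j)))
          = C ((-1) ^ j * (Finset.univ.val.map ω).esymm j) * X ^ (t - j) by
            simp [mul_assoc]]
        rw [coeff_C_mul, coeff_X_pow, if_pos rfl, mul_one]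
      · intro b hb hbj
        rw [show ((-1 : ℂ[X]) ^ b * (C ((Finset.univ.val.map ω).esymm b) * X ^ (t - b)))
          = C ((-1) ^ b * (Finset.univ.val.map ω).esymm b) * X ^ (t - b) by
            simp [mul_assoc]]
        rw [coeff_C_mul, coeff_X_pow, if_neg, mul_zero]
        have := Finset.mem_range.mp hb
        omega
      · intro h
        exact absurd (Finset.mem_range.mpr (by omega)) h
    · rw [hat j (by omega)]
      have h1 : MvPolynomial.esymm (Fin t) ℂ j = 0 := by
        rw [MvPolynomial.esymm, Finset.powersetCard_eq_empty.mpr (by simpa using hj),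
          Finset.sum_empty]
      simp only [hE, h1, map_zero, mul_zero]
  -- Newton
  set P : ℕ → ℂ := fun k => ∑ i, ω i ^ k with hP
  have hPsum : ∀ k, MvPolynomial.aeval ω (MvPolynomial.psum (Fin t) ℂ k) = P k := by
    intro k
    simp [MvPolynomial.psum, hP]
  have hNewton : ∀ k : ℕ, (k : ℂ) * a k = - ∑ i ∈ Finset.Icc 1 k, P i * a (k - i) := by
    intro k
    have h1 := congrArg (MvPolynomial.aeval ω) (MvPolynomial.mul_esymm_eq_sum (Fin t) ℂ k)
    simp only [map_mul, map_natCast, map_pow, map_neg, map_one, map_sum] at h1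
    have h2 : ∑ x ∈ (Finset.HasAntidiagonal.antidiagonal k).filter (fun x => x.1 < k),
        (-1) ^ x.1 * MvPolynomial.aeval ω (MvPolynomial.esymm (Fin t) ℂ x.1)
          * MvPolynomial.aeval ω (MvPolynomial.psum (Fin t) ℂ x.2)
        = ∑ i ∈ Finset.Icc 1 k, P i * a (k - i) := by
      refine Finset.sum_bij' (fun x _ => x.2) (fun i _ => (k - i, i)) ?_ ?_ ?_ ?_ ?_
      · rintro ⟨x, y⟩ hx
        rw [Finset.mem_filter, Finset.HasAntidiagonal.mem_antidiagonal] at hx
        rw [Finset.mem_Icc]
        simp only at hx ⊢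
        omega
      · intro i hi
        rw [Finset.mem_Icc] at hi
        rw [Finset.mem_filter, Finset.HasAntidiagonal.mem_antidiagonal]
        simp only
        omega
      · rintro ⟨x, y⟩ hx
        rw [Finset.mem_filter, Finset.HasAntidiagonal.mem_antidiagonal] at hx
        simp only at hx ⊢
        rw [Prod.mk.injEq]
        exact ⟨by omega, rfl⟩
      · intro i hi
        rfl
      · rintro ⟨x, y⟩ hx
        rw [Finset.mem_filter, Finset.HasAntidiagonal.mem_antidiagonal] at hx
        simp only at hx ⊢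
        rw [hPsum, hEa (k - y), show k - y = x by omega]
        ring
    rw [h2] at h1
    rw [hEa k]
    calc (k : ℂ) * ((-1) ^ k * E k) = (-1) ^ k * ((k : ℂ) * E k) := by ring
      _ = (-1) ^ k * ((-1) ^ (k + 1) * ∑ i ∈ Finset.Icc 1 k, P i * a (k - i)) := by rw [← h1]
      _ = - ∑ i ∈ Finset.Icc 1 k, P i * a (k - i) := by
          rw [← mul_assoc, ← pow_add, show k + (k + 1) = 2 * k + 1 by ring, pow_succ, pow_mul]
          simp
  refine ⟨ω, ?_, hprod⟩
  intro m
  induction m using Nat.strong_induction_on with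
  | _ m ih =>
    intro hm
    have h1 := hNewton m
    rw [hS m] at h1
    have hsplit : Finset.Icc 1 m = insert m (Finset.Icc 1 (m - 1)) := by
      ext x
      simp only [Finset.mem_insert, Finset.mem_Icc]
      omega
    have hnot : m ∉ Finset.Icc 1 (m - 1) := by
      simp only [Finset.mem_Icc]
      omega
    rw [hsplit, Finset.sum_insert hnot, Finset.sum_insert hnot, Nat.sub_self, ha0] at h1
    have h2 : ∑ i ∈ Finset.Icc 1 (m - 1), S i * a (m - i)
        = - ∑ i ∈ Finset.Icc 1 (m - 1), P i * a (m - i) := by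
      rw [← Finset.sum_neg_distrib]
      refine Finset.sum_congr rfl fun i hi => ?_
      rw [Finset.mem_Icc] at hi
      have h3 := ih i (by omega) hi.1
      rw [show P i = - S i from h3]
      ring
    rw [h2] at h1
    show P m = - S m
    linear_combination h1

/-- The bound for the coefficients. -/
theorem coeff_bound (t : ℕ) (a : ℕ → ℂ) (ha0 : a 0 = 1) (hat : ∀ n, t < n → a n = 0)
    (S : ℕ → ℂ) (hS : ∀ n : ℕ, (n : ℂ) * a n = ∑ i ∈ Finset.Icc 1 n, S i * a (n - i))
    (e : ℕ) (he : 1 ≤ e) (B : ℝ) (hB : 0 < B) (K : ℝ)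
    (hbd : ∀ m, 1 ≤ m → ‖S (e * m)‖ ≤ K * (B ^ e) ^ m) (j : ℕ) (hj : j ≤ t) :
    ‖a j‖ ≤ B ^ j * (t.choose j : ℝ) := by
  obtain ⟨ω, h1, h2⟩ := exists_roots t a ha0 hat S hS
  have hroot : ∀ i, ‖ω i‖ ≤ B := by
    intro i
    have h3 := norm_le_of_powerSums (fun i => ω i ^ e) (B ^ e) K (pow_pos hB e) (by
      intro m hm
      have h4 : ∑ i, (ω i ^ e) ^ m = - S (e * m) := by
        rw [← h1 (e * m) (by nlinarith)]
        refine Finset.sum_congr rfl fun i _ => ?_
        rw [← pow_mul]
      rw [h4, norm_neg]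
      exact hbd m hm) i
    rw [norm_pow] at h3
    exact le_of_pow_le_pow_left₀ (by omega) hB.le h3
  set p : ℂ[X] := ∏ i, (X - C (ω i)) with hp
  have hmonic : p.Monic := monic_prod_of_monic _ _ fun i _ => monic_X_sub_C _
  have hdeg : p.natDegree = t := by
    rw [hp, natDegree_prod_of_monic _ _ fun i _ => monic_X_sub_C _]
    simp
  have hcoeff : p.coeff (t - j) = a j := by
    rw [h2, finsetSum_coeff, Finset.sum_eq_single j]
    · simp
    · intro b hb hbj
      rw [coeff_C_mul, coeff_X_pow, if_neg, mul_zero]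
      have := Finset.mem_range.mp hb
      omega
    · intro h
      exact absurd (Finset.mem_range.mpr (by omega)) h
  have h5 := coeff_le_of_roots_le (f := RingHom.id ℂ) (B := B) (t - j) hmonic
    (by rw [Polynomial.map_id]; exact IsAlgClosed.splits p) (by
      intro z hz
      rw [Polynomial.map_id] at hz
      have h6 := isRoot_of_mem_roots hz
      rw [IsRoot.def, hp, eval_prod, Finset.prod_eq_zero_iff] at h6
      obtain ⟨i, _, hi⟩ := h6
      rw [eval_sub, eval_X, eval_C, sub_eq_zero] at hi
      rw [hi]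
      exact hroot i)
  rw [Polynomial.map_id, hcoeff, hdeg, show t - (t - j) = j by omega,
    Nat.choose_symm hj] at h5
  exact h5

end Pool.Agent.PRW
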