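import Mathlib

/-!
# The L-function of a multiplicative function on monic polynomials over a finite field

For `h` multiplicative on monic polynomials put `A n = ∑_{f monic, deg f = n} h f` and
`S n = ∑_{π monic irreducible, deg π ∣ n} deg π · h π ^ (n / deg π)`. Then
`n A n = ∑_{i=1}^n S i A (n - i)`.
-/

set_option autoImplicit false
set_option linter.unusedSectionVars false
open Polynomial
open Classical

namespace Pool.Agent.PRW

section

variable (F : Type) [Field F] [Fintype F]

/-- the monic polynomials of degree `n` -/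
noncomputable def monics (n : ℕ) : Finset F[X] :=
  (Finset.univ : Finset (Fin n → F)).image (fun a => X ^ n + ∑ i : Fin n, C (a i) * X ^ (i : ℕ))

variable {F}

theorem low_degree {n : ℕ} (a : Fin n → F) : (∑ i : Fin n, C (a i) * X ^ (i : ℕ) : F[X]).degree < n := by
  refine (degree_sum_le _ _).trans_lt ?_
  rw [Finset.sup_lt_iff (by exact WithBot.bot_lt_coe n)]
  intro j _
  refine (degree_C_mul_X_pow_le _ _).trans_lt ?_
  exact_mod_cast j.2

theorem mem_monics {n : ℕ} {f : F[X]} : f ∈ monics F n ↔ f.Monic ∧ f.natDegree = n := by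
  constructor
  · intro hf
    obtain ⟨a, _, rfl⟩ := Finset.mem_image.mp hf
    refine ⟨monic_X_pow_add (low_degree a), ?_⟩
    refine natDegree_eq_of_degree_eq_some ?_
    rw [degree_add_eq_left_of_degree_lt (by rw [degree_X_pow]; exact low_degree a), degree_X_pow]
  · rintro ⟨hm, hn⟩
    refine Finset.mem_image.mpr ⟨fun i => f.coeff i, Finset.mem_univ _, ?_⟩
    rw [Finset.sum_fin_eq_sum_range]
    have h1 := hm.as_sum
    rw [hn] at h1
    conv_rhs => rw [h1]
    congr 1
    refine Finset.sum_congr rfl fun i hi => ?_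
    rw [dif_pos (Finset.mem_range.mp hi)]

/-- the monic irreducible polynomials of degree `n` -/
noncomputable def irr (n : ℕ) : Finset F[X] := (monics F n).filter Irreducible

theorem mem_irr {n : ℕ} {f : F[X]} : f ∈ irr n ↔ (f.Monic ∧ f.natDegree = n) ∧ Irreducible f := by
  rw [irr, Finset.mem_filter, mem_monics]

/-- counting powers dividing a polynomial -/
theorem card_pow_dvd {f p : F[X]} (hf : f.Monic) (hp : p.Monic) (hirr : Irreducible p) :
    ((Finset.Icc 1 f.natDegree).filter (fun j => p ^ j ∣ f)).card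
      = (UniqueFactorizationMonoid.normalizedFactors f).count p := by
  have h1 : ∀ j : ℕ, p ^ j ∣ f ↔ j ≤ (UniqueFactorizationMonoid.normalizedFactors f).count p := by
    intro j
    rw [pow_dvd_iff_le_emultiplicity,
      UniqueFactorizationMonoid.le_emultiplicity_iff_replicate_le_normalizedFactors hirr hf.ne_zero,
      hp.normalize_eq_self, Multiset.le_count_iff_replicate_le]
  have h2 : (UniqueFactorizationMonoid.normalizedFactors f).count p ≤ f.natDegree := by
    have h3 := (h1 _).mpr le_rfl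
    have h4 := natDegree_le_of_dvd h3 hf.ne_zero
    rw [hp.natDegree_pow] at h4
    have h5 := hirr.natDegree_pos
    nlinarith
  have h6 : (Finset.Icc 1 f.natDegree).filter (fun j => p ^ j ∣ f)
      = Finset.Icc 1 ((UniqueFactorizationMonoid.normalizedFactors f).count p) := by
    ext j
    rw [Finset.mem_filter, Finset.mem_Icc, Finset.mem_Icc, h1]
    omega
  rw [h6, Nat.card_Icc]
  omega

/-- the degree as a sum over prime powers -/
theorem degree_sum {n : ℕ} {f : F[X]} (hf : f ∈ monics F n) :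
    (n : ℂ) = ∑ d ∈ Finset.Icc 1 n, ∑ p ∈ irr (F := F) d, ∑ j ∈ Finset.Icc 1 n,
      (if p ^ j ∣ f then (d : ℂ) else 0) := by
  obtain ⟨hm, hn⟩ := mem_monics.mp hf
  set s := UniqueFactorizationMonoid.normalizedFactors f with hs
  have hmem : ∀ p ∈ s, p.Monic ∧ Irreducible p := by
    intro p hp
    have h1 := UniqueFactorizationMonoid.irreducible_of_normalized_factor p hp
    refine ⟨?_, h1⟩
    exact (normalize_eq_self_iff_monic h1.ne_zero).mp
      (UniqueFactorizationMonoid.normalize_normalized_factor p hp)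
  have hprod : s.prod = f := by
    rw [hs, UniqueFactorizationMonoid.prod_normalizedFactors_eq hm.ne_zero, hm.normalize_eq_self]
  have hdeg : n = ∑ p ∈ s.toFinset, s.count p * p.natDegree := by
    rw [← hn]
    conv_lhs => rw [← hprod]
    rw [natDegree_multiset_prod_of_monic _ (fun p hp => (hmem p hp).1),
      Finset.sum_multiset_map_count]
    simp
  have h2 : ∀ d, ∀ p ∈ irr (F := F) d, ∑ j ∈ Finset.Icc 1 n, (if p ^ j ∣ f then (d : ℂ) else 0)
      = ((s.count p * p.natDegree : ℕ) : ℂ) := by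
    intro d p hp
    obtain ⟨⟨hp1, hp2⟩, hp3⟩ := mem_irr.mp hp
    rw [← Finset.sum_filter, Finset.sum_const, nsmul_eq_mul, ← hn, card_pow_dvd hm hp1 hp3, hp2]
    push_cast
    rfl
  have h3 : ∑ d ∈ Finset.Icc 1 n, ∑ p ∈ irr (F := F) d, ∑ j ∈ Finset.Icc 1 n,
      (if p ^ j ∣ f then (d : ℂ) else 0)
      = ∑ p ∈ (Finset.Icc 1 n).biUnion (fun d => irr (F := F) d), ((s.count p * p.natDegree : ℕ) : ℂ) := by
    rw [Finset.sum_biUnion]
    · refine Finset.sum_congr rfl fun d _ => Finset.sum_congr rfl fun p hp => h2 d p hp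
    · intro d1 _ d2 _ hne
      rw [Function.onFun, Finset.disjoint_left]
      intro p hp1 hp2
      exact hne ((mem_irr.mp hp1).1.2.symm.trans (mem_irr.mp hp2).1.2)
  rw [h3]
  conv_lhs => rw [hdeg]
  push_cast
  refine Finset.sum_subset ?_ ?_
  · intro p hp
    rw [Multiset.mem_toFinset] at hp
    obtain ⟨h4, h5⟩ := hmem p hp
    refine Finset.mem_biUnion.mpr ⟨p.natDegree, ?_, mem_irr.mpr ⟨⟨h4, rfl⟩, h5⟩⟩
    rw [Finset.mem_Icc]
    refine ⟨h5.natDegree_pos, ?_⟩
    have h6 : p ∣ f := by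
      rw [← hprod]
      exact Multiset.dvd_prod hp
    have := natDegree_le_of_dvd h6 hm.ne_zero
    omega
  · intro p _ hp
    rw [Multiset.mem_toFinset] at hp
    rw [Multiset.count_eq_zero_of_notMem hp]
    simp

variable (h : F[X] → ℂ)

/-- sum over monic polynomials -/
noncomputable def Acoef (n : ℕ) : ℂ := ∑ f ∈ monics F n, h f

/-- sum over prime powers -/
noncomputable def Spow (n : ℕ) : ℂ :=
  ∑ d ∈ (Finset.Icc 1 n).filter (fun d => d ∣ n), ∑ p ∈ irr (F := F) d, (d : ℂ) * h p ^ (n / d)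

variable {h}

theorem map_pow_monic (h1 : h 1 = 1) (hmul : ∀ f g : F[X], f.Monic → g.Monic → h (f * g) = h f * h g)
    {p : F[X]} (hp : p.Monic) (j : ℕ) : h (p ^ j) = h p ^ j := by
  induction j with
  | zero => simp [h1]
  | succ j ih => rw [pow_succ, hmul _ _ (hp.pow j) hp, ih, pow_succ]

theorem sum_multiples (h1 : h 1 = 1)
    (hmul : ∀ f g : F[X], f.Monic → g.Monic → h (f * g) = h f * h g)
    {p : F[X]} (hp : p.Monic) (j n : ℕ) :
    ∑ f ∈ (monics F n).filter (fun f => p ^ j ∣ f), h f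
      = if j * p.natDegree ≤ n then h p ^ j * Acoef h (n - j * p.natDegree) else 0 := by
  split_ifs with hle
  · rw [Acoef, Finset.mul_sum]
    symm
    refine Finset.sum_bij (fun g _ => p ^ j * g) ?_ ?_ ?_ ?_
    · intro g hg
      obtain ⟨h2, h3⟩ := mem_monics.mp hg
      rw [Finset.mem_filter, mem_monics]
      refine ⟨⟨(hp.pow j).mul h2, ?_⟩, dvd_mul_right _ _⟩
      rw [(hp.pow j).natDegree_mul h2, hp.natDegree_pow, h3]
      omega
    · intro g1 _ g2 _ heq
      exact mul_left_cancel₀ (hp.pow j).ne_zero heq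
    · intro f hf
      rw [Finset.mem_filter, mem_monics] at hf
      obtain ⟨⟨h2, h3⟩, g, rfl⟩ := hf
      have h4 : g.Monic := Monic.of_mul_monic_left (hp.pow j) h2
      refine ⟨g, mem_monics.mpr ⟨h4, ?_⟩, rfl⟩
      rw [(hp.pow j).natDegree_mul h4, hp.natDegree_pow] at h3
      omega
    · intro g hg
      rw [hmul _ _ (hp.pow j) (mem_monics.mp hg).1, map_pow_monic h1 hmul hp]
  · refine Finset.sum_eq_zero fun f hf => ?_
    exfalso
    rw [Finset.mem_filter, mem_monics] at hf
    have h4 := natDegree_le_of_dvd hf.2 hf.1.1.ne_zero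
    rw [hp.natDegree_pow, hf.1.2] at h4
    exact hle h4

/-- **The recursion** coming from the logarithmic derivative of the Euler product. -/
theorem newton (h1 : h 1 = 1)
    (hmul : ∀ f g : F[X], f.Monic → g.Monic → h (f * g) = h f * h g) (n : ℕ) :
    (n : ℂ) * Acoef h n = ∑ i ∈ Finset.Icc 1 n, Spow h i * Acoef h (n - i) := by
  -- left side
  have e1 : (n : ℂ) * Acoef h n = ∑ d ∈ Finset.Icc 1 n, ∑ p ∈ irr (F := F) d, ∑ j ∈ Finset.Icc 1 n,
      (if j * d ≤ n then (d : ℂ) * (h p ^ j * Acoef h (n - j * d)) else 0) := by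
    rw [Acoef, Finset.mul_sum]
    have h2 : ∀ f ∈ monics F n, (n : ℂ) * h f
        = ∑ d ∈ Finset.Icc 1 n, ∑ p ∈ irr (F := F) d, ∑ j ∈ Finset.Icc 1 n,
          (if p ^ j ∣ f then (d : ℂ) * h f else 0) := by
      intro f hf
      rw [degree_sum hf, Finset.sum_mul]
      refine Finset.sum_congr rfl fun d _ => ?_
      rw [Finset.sum_mul]
      refine Finset.sum_congr rfl fun p _ => ?_
      rw [Finset.sum_mul]
      refine Finset.sum_congr rfl fun j _ => ?_
      rw [ite_mul, zero_mul]
    rw [Finset.sum_congr rfl h2, Finset.sum_comm]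
    refine Finset.sum_congr rfl fun d _ => ?_
    rw [Finset.sum_comm]
    refine Finset.sum_congr rfl fun p hp => ?_
    rw [Finset.sum_comm]
    refine Finset.sum_congr rfl fun j _ => ?_
    obtain ⟨⟨hp1, hp2⟩, _⟩ := mem_irr.mp hp
    rw [← Finset.sum_filter, ← Finset.mul_sum, sum_multiples h1 hmul hp1, hp2]
    split_ifs <;> simp
  rw [e1]
  -- right side
  have e2 : ∑ i ∈ Finset.Icc 1 n, Spow h i * Acoef h (n - i)
      = ∑ i ∈ Finset.Icc 1 n, ∑ d ∈ Finset.Icc 1 n, (if d ∣ i then
          ∑ p ∈ irr (F := F) d, (d : ℂ) * (h p ^ (i / d) * Acoef h (n - i)) else 0) := by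
    refine Finset.sum_congr rfl fun i hi => ?_
    rw [Finset.mem_Icc] at hi
    rw [Spow, Finset.sum_mul, ← Finset.sum_filter]
    have h3 : (Finset.Icc 1 i).filter (fun d => d ∣ i) = (Finset.Icc 1 n).filter (fun d => d ∣ i) := by
      ext d
      simp only [Finset.mem_filter, Finset.mem_Icc]
      constructor
      · rintro ⟨⟨h4, h5⟩, h6⟩
        exact ⟨⟨h4, by omega⟩, h6⟩
      · rintro ⟨⟨h4, _⟩, h6⟩
        exact ⟨⟨h4, Nat.le_of_dvd (by omega) h6⟩, h6⟩
    rw [h3]
    refine Finset.sum_congr rfl fun d _ => ?_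
    rw [Finset.sum_mul]
    refine Finset.sum_congr rfl fun p _ => ?_
    ring
  rw [e2, Finset.sum_comm]
  refine Finset.sum_congr rfl fun d hd => ?_
  rw [Finset.mem_Icc] at hd
  have h7 : ∀ j ∈ Finset.Icc 1 n, (∑ p ∈ irr (F := F) d,
      if j * d ≤ n then (d : ℂ) * (h p ^ j * Acoef h (n - j * d)) else 0)
      = if j * d ≤ n then ∑ p ∈ irr (F := F) d, (d : ℂ) * (h p ^ j * Acoef h (n - j * d)) else 0 := by
    intro j _
    split_ifs <;> simp
  rw [Finset.sum_comm, Finset.sum_congr rfl h7, ← Finset.sum_filter, ← Finset.sum_filter]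
  refine Finset.sum_bij (fun j _ => j * d) ?_ ?_ ?_ ?_
  · intro j hj
    rw [Finset.mem_filter, Finset.mem_Icc] at hj ⊢
    refine ⟨⟨?_, hj.2⟩, dvd_mul_left _ _⟩
    nlinarith [hj.1.1]
  · intro j1 _ j2 _ heq
    exact Nat.eq_of_mul_eq_mul_right (by omega) heq
  · intro i hi
    rw [Finset.mem_filter, Finset.mem_Icc] at hi
    obtain ⟨⟨h4, h5⟩, c, rfl⟩ := hi
    refine ⟨c, ?_, by ring⟩
    rw [Finset.mem_filter, Finset.mem_Icc]
    refine ⟨⟨?_, ?_⟩, by rw [mul_comm]; exact h5⟩
    · rcases Nat.eq_zero_or_pos c with rfl | hc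
      · simp at h4
      · exact hc
    · nlinarith
  · intro j hj
    rw [Nat.mul_div_cancel _ (by omega)]

end

end Pool.Agent.PRW
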