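import Mathlib
import Pool.Agent.PRW.LFun

/-!
# The sums over prime powers as sums over the points of an extension field
-/

set_option autoImplicit false
set_option linter.unusedSectionVars false
open Polynomial
open Classical

namespace Pool.Agent.PRW

variable {F : Type} [Field F] [Fintype F] {K : Type} [Field K] [Fintype K] [Algebra F K]

theorem finrank_pos' : 0 < Module.finrank F K := Module.finrank_pos

/-- the number of points with a given minimal polynomial -/
theorem card_fiber {d : ℕ} (hd : d ∣ Module.finrank F K) {p : F[X]} (hp : p ∈ irr (F := F) d) :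
    (Finset.univ.filter (fun x : K => minpoly F x = p)).card = d := by
  obtain ⟨⟨hm, hn⟩, hirr⟩ := mem_irr.mp hp
  have : Fact (Irreducible p) := ⟨hirr⟩
  have h1 : Module.finrank F (AdjoinRoot p) = d := by
    rw [← hn]
    exact finrank_quotient_span_eq_natDegree
  have h2 : Nat.card (AdjoinRoot p →ₐ[F] K) = d := by
    rw [FiniteField.natCard_algHom_of_finrank_dvd (by rw [h1]; exact hd), h1]
  conv_rhs => rw [← h2]
  rw [← Fintype.card_subtype, ← Nat.card_eq_fintype_card]
  symm
  refine Nat.card_congr ?_
  refine (AdjoinRoot.equiv K F p hirr.ne_zero).trans (Equiv.subtypeEquivRight fun x => ?_)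
  rw [mem_aroots]
  constructor
  · rintro ⟨_, hx⟩
    exact (minpoly.eq_of_irreducible_of_monic hirr hx hm).symm
  · rintro rfl
    exact ⟨hirr.ne_zero, minpoly.aeval F x⟩

theorem minpoly_mem (x : K) : minpoly F x ∈ irr (F := F) (minpoly F x).natDegree := by
  have hx : IsIntegral F x := Algebra.IsIntegral.isIntegral x
  exact mem_irr.mpr ⟨⟨minpoly.monic hx, rfl⟩, minpoly.irreducible hx⟩

theorem spow_eq (h : F[X] → ℂ) {n : ℕ} (hn : Module.finrank F K = n) :
    Spow h n = ∑ x : K, h (minpoly F x) ^ (n / (minpoly F x).natDegree) := by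
  have hnpos : 0 < n := hn ▸ Module.finrank_pos
  set D := (Finset.Icc 1 n).filter (fun d => d ∣ n) with hD
  have hmap : ∀ x : K, minpoly F x ∈ D.biUnion (fun d => irr (F := F) d) := by
    intro x
    have hx : IsIntegral F x := Algebra.IsIntegral.isIntegral x
    have h1 : (minpoly F x).natDegree ∣ n := by
      rw [← hn]
      exact minpoly.degree_dvd hx
    refine Finset.mem_biUnion.mpr ⟨(minpoly F x).natDegree, ?_, minpoly_mem x⟩
    rw [hD, Finset.mem_filter, Finset.mem_Icc]
    exact ⟨⟨minpoly.natDegree_pos hx, Nat.le_of_dvd hnpos h1⟩, h1⟩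
  rw [← Finset.sum_fiberwise_of_maps_to (t := D.biUnion (fun d => irr (F := F) d))
    (g := fun x : K => minpoly F x) (fun x _ => hmap x)]
  rw [Finset.sum_biUnion]
  · rw [Spow]
    refine Finset.sum_congr rfl fun d hd => Finset.sum_congr rfl fun p hp => ?_
    have hd' : d ∣ n := (Finset.mem_filter.mp hd).2
    rw [Finset.sum_congr rfl (g := fun _ => h p ^ (n / d))]
    · rw [Finset.sum_const, card_fiber (by rw [hn]; exact hd') hp, nsmul_eq_mul]
    · intro x hx
      rw [(Finset.mem_filter.mp hx).2, (mem_irr.mp hp).1.2]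
  · intro d1 _ d2 _ hne
    rw [Function.onFun, Finset.disjoint_left]
    intro p hp1 hp2
    exact hne ((mem_irr.mp hp1).1.2.symm.trans (mem_irr.mp hp2).1.2)

theorem dvd_iff_pow_eq (x : K) (n : ℕ) :
    (minpoly F x).natDegree ∣ n ↔ x ^ (Fintype.card F) ^ n = x := by
  have hx : IsIntegral F x := Algebra.IsIntegral.isIntegral x
  rw [(minpoly.irreducible hx).natDegree_dvd_iff_dvd_X_pow_card_pow_sub_X, minpoly.dvd_iff,
    Nat.card_eq_fintype_card]
  simp [sub_eq_zero]

theorem prod_periodic {R : Type} [CommMonoid R] (f : ℕ → R) (d : ℕ) (hf : ∀ i, f (i + d) = f i)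
    (m : ℕ) : ∏ i ∈ Finset.range (d * m), f i = (∏ i ∈ Finset.range d, f i) ^ m := by
  have h1 : ∀ m i, f (d * m + i) = f i := by
    intro m
    induction m with
    | zero => intro i; simp
    | succ m ih =>
      intro i
      rw [show d * (m + 1) + i = d * m + i + d by ring, hf, ih]
  induction m with
  | zero => simp
  | succ m ih =>
    rw [show d * (m + 1) = d * m + d by ring, Finset.prod_range_add, ih, pow_succ]
    simp_rw [h1]

theorem frob_add (x y : K) (n : ℕ) :
    (x + y) ^ (Fintype.card F) ^ n = x ^ (Fintype.card F) ^ n + y ^ (Fintype.card F) ^ n := by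
  obtain ⟨p, hcp, n', hp, hc⟩ := FiniteField.card' F
  have : CharP K p := charP_of_injective_algebraMap (algebraMap F K).injective p
  have : Fact p.Prime := ⟨hp⟩
  rw [hc, ← pow_mul]
  exact add_pow_char_pow x y _ _

theorem frob_injective (n : ℕ) : Function.Injective (fun x : K => x ^ (Fintype.card F) ^ n) := by
  obtain ⟨p, hcp, n', hp, hc⟩ := FiniteField.card' F
  have : CharP K p := charP_of_injective_algebraMap (algebraMap F K).injective p
  have : Fact p.Prime := ⟨hp⟩
  intro x y hxy
  simp only [hc, ← pow_mul] at hxy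
  exact iterateFrobenius_inj K p (n' * n) hxy

/-- the factorisation of the minimal polynomial -/
theorem minpoly_map_eq (x : K) :
    (minpoly F x).map (algebraMap F K)
      = ∏ i ∈ Finset.range (minpoly F x).natDegree, (X - C (x ^ (Fintype.card F) ^ i)) := by
  have hx : IsIntegral F x := Algebra.IsIntegral.isIntegral x
  set d := (minpoly F x).natDegree with hd
  have hinj : Set.InjOn (fun i : ℕ => x ^ (Fintype.card F) ^ i) (Finset.range d : Set ℕ) := by
    have key : ∀ i j : ℕ, i < j → j < d → x ^ (Fintype.card F) ^ i ≠ x ^ (Fintype.card F) ^ j := by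
      intro i j hij hj heq
      have h1 : (x ^ (Fintype.card F) ^ (j - i)) ^ (Fintype.card F) ^ i = x ^ (Fintype.card F) ^ i := by
        rw [← pow_mul, ← pow_add, Nat.sub_add_cancel hij.le, heq]
      have h2 := frob_injective (F := F) (K := K) i h1
      have h3 := (dvd_iff_pow_eq (F := F) x (j - i)).mpr h2
      have h4 := Nat.le_of_dvd (by omega) h3
      omega
    intro i hi j hj heq
    simp only [Finset.coe_range, Set.mem_Iio] at hi hj
    rcases lt_trichotomy i j with h | h | h
    · exact absurd heq (key i j h hj)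
    · exact h
    · exact absurd heq.symm (key j i h hi)
  have hroot : ∀ i, ((minpoly F x).map (algebraMap F K)).IsRoot (x ^ (Fintype.card F) ^ i) := by
    intro i
    have h1 : (aeval (((FiniteField.frobeniusAlgHom F K) ^ i) x)) (minpoly F x) = 0 := by
      rw [aeval_algHom_apply, minpoly.aeval, map_zero]
    have h2 : ((FiniteField.frobeniusAlgHom F K) ^ i) x = x ^ (Fintype.card F) ^ i := by
      rw [AlgHom.coe_pow, FiniteField.coe_frobeniusAlgHom, pow_iterate]
    rw [h2] at h1
    rw [IsRoot.def, eval_map_algebraMap]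
    exact h1
  have hdvd : (∏ i ∈ Finset.range d, (X - C (x ^ (Fintype.card F) ^ i)))
      ∣ (minpoly F x).map (algebraMap F K) := by
    refine Finset.prod_dvd_of_coprime ?_ ?_
    · intro i hi j hj hij
      refine pairwise_coprime_X_sub_C (s := fun i : ↥(Finset.range d) => x ^ (Fintype.card F) ^ (i : ℕ)) ?_
        (i := ⟨i, hi⟩) (j := ⟨j, hj⟩) (fun h => hij (congrArg Subtype.val h))
      intro a b hab
      exact Subtype.ext (hinj a.2 b.2 hab)
    · intro i _
      exact dvd_iff_isRoot.mpr (hroot i)
  refine eq_of_monic_of_dvd_of_natDegree_le ?_ ((minpoly.monic hx).map _) hdvd ?_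
  · exact monic_prod_of_monic _ _ fun i _ => monic_X_sub_C _
  · rw [natDegree_map, natDegree_prod_of_monic _ _ fun i _ => monic_X_sub_C _]
    simp only [natDegree_X_sub_C, Finset.sum_const, Finset.card_range, smul_eq_mul, mul_one]
    exact le_of_eq hd.symm

theorem minpoly_eval (x y : K) {n : ℕ} (hn : (minpoly F x).natDegree ∣ n) :
    (aeval y (minpoly F x)) ^ (n / (minpoly F x).natDegree)
      = ∏ i ∈ Finset.range n, (y - x ^ (Fintype.card F) ^ i) := by
  have hx : IsIntegral F x := Algebra.IsIntegral.isIntegral x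
  obtain ⟨m, hm⟩ := hn
  set d := (minpoly F x).natDegree with hd
  have hdpos : 0 < d := minpoly.natDegree_pos hx
  have h1 : aeval y (minpoly F x) = ∏ i ∈ Finset.range d, (y - x ^ (Fintype.card F) ^ i) := by
    rw [← eval_map_algebraMap, minpoly_map_eq, eval_prod]
    refine Finset.prod_congr rfl fun i _ => by simp
  rw [h1, hm, Nat.mul_div_cancel_left _ hdpos]
  rw [prod_periodic (fun i => y - x ^ (Fintype.card F) ^ i) d]
  intro i
  rw [pow_add, mul_comm, pow_mul, (dvd_iff_pow_eq (F := F) x d).mp dvd_rfl]

end Pool.Agent.PRW
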