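import Mathlib

/-!
# Stepanov's method

`K` is a finite field of characteristic two with `Q = q ^ n = 2 ^ N` elements, `β ∈ K` and
`c = ∏_{i<n} (X ^ (q ^ i) + β)`, `τ = ∑_{i<N} X ^ (2 ^ i)`. We bound the number of `α ∈ K` with
`c(α) = λ` and `τ(α) = ε` for given `λ ≠ 0` and `ε`.

The auxiliary polynomial is `∑ (h_{kj} + h'_{kj} τ) c ^ j (X + β) ^ (Q k)` with polynomials `h, h'` of
small degree; its nonvanishing is seen from the orders at `β`.
-/

set_option autoImplicit false
set_option linter.unusedSectionVars false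
open Polynomial
open Classical

namespace Pool.Agent.PRW

variable {K : Type} [Field K] [Fintype K] [CharP K 2]

/-- the absolute trace as a polynomial -/
noncomputable def tauP (K : Type) [Field K] (N : ℕ) : K[X] := ∑ i ∈ Finset.range N, X ^ 2 ^ i

/-- the data for the method -/
structure SData (K : Type) [Field K] [Fintype K] where
  s : ℕ
  q : ℕ
  n : ℕ
  N : ℕ
  t : ℕ
  E : ℕ
  o : ℕ
  β : K
  b : ℕ → K
  P : K[X]
  g : ℕ → K[X]
  c1 : K[X]
  hs : 1 ≤ s
  hq : q = 2 ^ s
  hQ : Fintype.card K = q ^ n
  hN : Fintype.card K = 2 ^ N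
  hb : ∀ i, b i ^ q ^ i = β
  hPg : ∀ i, P = (X + C (b i)) * g i
  hg : ∀ i, (g i).natDegree ≤ t
  hPdeg : P.natDegree ≤ t
  hPc : ∀ α, P.eval α = 0 → (∏ i ∈ Finset.range n, (X ^ q ^ i + C β)).eval α = 0
  hE : E * o + 1 = Fintype.card K
  hE1 : 1 ≤ E
  hc1 : (∏ i ∈ Finset.range n, (X ^ q ^ i + C β)) = (X + C β) ^ o * c1
  hc1β : c1.eval β ≠ 0

variable (S : SData K)

/-- the polynomial `c` -/
noncomputable def SData.c : K[X] := ∏ i ∈ Finset.range S.n, (X ^ S.q ^ i + C S.β)

theorem frob2 {R : Type} [CommRing R] [CharP R 2] (x y : R) (m : ℕ) :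
    (x + y) ^ 2 ^ m = x ^ 2 ^ m + y ^ 2 ^ m := add_pow_char_pow x y _ _

theorem SData.frobq {R : Type} [CommRing R] [CharP R 2] (x y : R) (i : ℕ) :
    (x + y) ^ S.q ^ i = x ^ S.q ^ i + y ^ S.q ^ i := by
  rw [S.hq, ← pow_mul]
  exact frob2 x y _

theorem tau_sq (N : ℕ) : (tauP K N) ^ 2 + tauP K N = X ^ 2 ^ N + X := by
  induction N with
  | zero =>
    simp [tauP]
    exact (CharTwo.add_self_eq_zero (X : K[X])).symm
  | succ N ih =>
    have h1 : tauP K (N + 1) = tauP K N + X ^ 2 ^ N := by
      rw [tauP, Finset.sum_range_succ, ← tauP]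
    rw [h1, CharTwo.add_sq, ← pow_mul, ← pow_succ]
    have h2 : (X : K[X]) ^ 2 ^ N + X ^ 2 ^ N = 0 := CharTwo.add_self_eq_zero _
    linear_combination ih + h2

/-- A small combination of `1` and `τ` has small order at `β`. -/
theorem approx {N A o : ℕ} (hN : Fintype.card K = 2 ^ N) (hA : 2 * A ≤ o) (hoQ : o ≤ Fintype.card K)
    (β : K) (h h' : K[X]) (hh : h.degree < A) (hh' : h'.degree < A)
    (hdvd : (X + C β) ^ o ∣ h + h' * tauP K N) : h = 0 ∧ h' = 0 := by
  have h2 : (2 : K[X]) = 0 := CharTwo.two_eq_zero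
  have e1 : (h + h' * tauP K N) * (h + h' * tauP K N + h')
      = h ^ 2 + h * h' + h' ^ 2 * (X + C β) + h' ^ 2 * (X + C β) ^ (Fintype.card K) := by
    have e2 : (X + C β) ^ (Fintype.card K) = X ^ 2 ^ N + C β := by
      rw [hN, frob2, ← C_pow, ← hN, FiniteField.pow_card]
    rw [e2]
    have e3 := tau_sq (K := K) N
    have e4 : (C β : K[X]) + C β = 0 := CharTwo.add_self_eq_zero _
    linear_combination (h' ^ 2) * e3 + (h * h' * tauP K N) * h2 - h' ^ 2 * e4
  have e5 : (X + C β) ^ o ∣ h ^ 2 + h * h' + h' ^ 2 * (X + C β) := by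
    have e6 : (X + C β) ^ o ∣ h ^ 2 + h * h' + h' ^ 2 * (X + C β)
        + h' ^ 2 * (X + C β) ^ (Fintype.card K) := by
      rw [← e1]
      exact Dvd.dvd.mul_right hdvd _
    exact (dvd_add_left (Dvd.dvd.mul_left (pow_dvd_pow _ hoQ) _)).mp e6
  have hA0 : h ^ 2 + h * h' + h' ^ 2 * (X + C β) = 0 := by
    by_contra hne
    have h3 := degree_le_of_dvd e5 hne
    rw [degree_pow, degree_X_add_C, nsmul_eq_mul, mul_one] at h3
    rcases Nat.eq_zero_or_pos A with hA' | hA'
    · subst hA'
      have h4 : h = 0 := by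
        rw [← degree_eq_bot]
        exact Nat.WithBot.lt_zero_iff.mp (by exact_mod_cast hh)
      have h5 : h' = 0 := by
        rw [← degree_eq_bot]
        exact Nat.WithBot.lt_zero_iff.mp (by exact_mod_cast hh')
      apply hne
      rw [h4, h5]
      simp
    have hn1 : h.natDegree ≤ A - 1 := by
      rcases eq_or_ne h 0 with h4 | h4
      · simp [h4]
      · have := (natDegree_lt_iff_degree_lt h4).mpr hh
        omega
    have hn2 : h'.natDegree ≤ A - 1 := by
      rcases eq_or_ne h' 0 with h4 | h4
      · simp [h4]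
      · have := (natDegree_lt_iff_degree_lt h4).mpr hh'
        omega
    have h6 : (h ^ 2 + h * h' + h' ^ 2 * (X + C β)).natDegree ≤ 2 * A - 1 := by
      refine (natDegree_add_le _ _).trans (max_le ((natDegree_add_le _ _).trans (max_le ?_ ?_)) ?_)
      · refine natDegree_pow_le.trans ?_
        omega
      · refine natDegree_mul_le.trans ?_
        omega
      · refine natDegree_mul_le.trans ?_
        have h7 : (h' ^ 2).natDegree ≤ 2 * h'.natDegree := natDegree_pow_le
        rw [natDegree_X_add_C]
        omega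
    have h8 : (o : WithBot ℕ) ≤ ((2 * A - 1 : ℕ) : WithBot ℕ) :=
      h3.trans (degree_le_natDegree.trans (by exact_mod_cast h6))
    have h9 : o ≤ 2 * A - 1 := by exact_mod_cast h8
    omega
  have hprod : h * (h + h') = h' ^ 2 * (X + C β) := by
    linear_combination hA0 - h' ^ 2 * (X + C β) * h2
  have hh'0 : h' = 0 := by
    by_contra hne
    have hR : h' ^ 2 * (X + C β) ≠ 0 := mul_ne_zero (pow_ne_zero _ hne) (X_add_C_ne_zero β)
    have hL := hR
    rw [← hprod] at hL
    have hh1 : h ≠ 0 := left_ne_zero_of_mul hL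
    have hh2 : h + h' ≠ 0 := right_ne_zero_of_mul hL
    have hd := congrArg natDegree hprod
    rw [natDegree_mul hh1 hh2, natDegree_mul (pow_ne_zero _ hne) (X_add_C_ne_zero β), natDegree_pow,
      natDegree_X_add_C] at hd
    rcases lt_trichotomy h.natDegree h'.natDegree with h3 | h3 | h3
    · rw [natDegree_add_eq_right_of_natDegree_lt h3] at hd
      omega
    · have h4 := natDegree_add_le h h'
      rw [h3, max_self] at h4
      omega
    · rw [natDegree_add_eq_left_of_natDegree_lt h3] at hd
      omega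
  refine ⟨?_, hh'0⟩
  rw [hh'0] at hA0
  simpa using hA0

theorem SData.card_pos : 0 < Fintype.card K := Fintype.card_pos

theorem SData.o_le : S.o ≤ Fintype.card K := by
  have h1 := S.hE
  have h2 := S.hE1
  nlinarith [Nat.zero_le S.o]

/-- the terms of the auxiliary polynomial -/
noncomputable def SData.term (h h' : K[X]) (k j : ℕ) : K[X] :=
  (h + h' * tauP K S.N) * S.c ^ j * (X + C S.β) ^ (Fintype.card K * k)

/-- **Independence.** -/
theorem SData.independent {A K0 : ℕ} (hA : 2 * A ≤ S.o) (h h' : ℕ → ℕ → K[X])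
    (hh : ∀ k j, (h k j).degree < A) (hh' : ∀ k j, (h' k j).degree < A)
    (hR : ∑ k ∈ Finset.range K0, ∑ j ∈ Finset.range S.E, S.term (h k j) (h' k j) k j = 0) :
    ∀ k < K0, ∀ j < S.E, h k j = 0 ∧ h' k j = 0 := by
  have hE := S.hE
  -- orders
  have horder : ∀ k j k' j' : ℕ, j < S.E → j' < S.E → k * S.E + j < k' * S.E + j' →
      S.o * j + Fintype.card K * k + S.o ≤ S.o * j' + Fintype.card K * k' := by
    intro k j k' j' hj hj' hlt
    rcases lt_trichotomy k k' with h1 | h1 | h1
    · have h2 : Fintype.card K * (k + 1) ≤ Fintype.card K * k' := Nat.mul_le_mul_left _ h1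
      have h3 : S.o * (j + 1) ≤ S.o * S.E := Nat.mul_le_mul_left _ hj
      nlinarith
    · subst h1
      have h2 : j + 1 ≤ j' := by omega
      have h3 : S.o * (j + 1) ≤ S.o * j' := Nat.mul_le_mul_left _ h2
      nlinarith
    · exfalso
      have h2 : (k' + 1) * S.E ≤ k * S.E := Nat.mul_le_mul_right _ h1
      nlinarith
  have hdvdterm : ∀ k j, (X + C S.β) ^ (S.o * j + Fintype.card K * k) ∣ S.term (h k j) (h' k j) k j := by
    intro k j
    rw [SData.term, pow_add]
    refine mul_dvd_mul (Dvd.dvd.mul_left ?_ _) dvd_rfl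
    rw [pow_mul]
    refine pow_dvd_pow_of_dvd ?_ j
    rw [SData.c, S.hc1]
    exact dvd_mul_right _ _
  have main : ∀ m : ℕ, ∀ k < K0, ∀ j < S.E, k * S.E + j = m → h k j = 0 ∧ h' k j = 0 := by
    intro m
    induction m using Nat.strong_induction_on with
    | _ m ih =>
      intro k hk j hj hm
      -- the other terms are divisible by a higher power
      have h1 : (X + C S.β) ^ (S.o * j + Fintype.card K * k + S.o) ∣ S.term (h k j) (h' k j) k j := by
        have h2 : S.term (h k j) (h' k j) k j
            = - ((∑ k' ∈ Finset.range K0, ∑ j' ∈ Finset.range S.E,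
                (if k' = k ∧ j' = j then 0 else S.term (h k' j') (h' k' j') k' j'))) := by
          have h3 : ∑ k' ∈ Finset.range K0, ∑ j' ∈ Finset.range S.E,
              (if k' = k ∧ j' = j then S.term (h k' j') (h' k' j') k' j' else 0)
              = S.term (h k j) (h' k j) k j := by
            rw [Finset.sum_eq_single k]
            · rw [Finset.sum_eq_single j]
              · simp
              · intro j' _ hne
                rw [if_neg (fun h => hne h.2)]
              · intro hne
                exact absurd (Finset.mem_range.mpr hj) hne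
            · intro k' _ hne
              refine Finset.sum_eq_zero fun j' _ => ?_
              rw [if_neg (fun h => hne h.1)]
            · intro hne
              exact absurd (Finset.mem_range.mpr hk) hne
          rw [eq_neg_iff_add_eq_zero, ← h3, ← Finset.sum_add_distrib]
          refine Eq.trans ?_ hR
          refine Finset.sum_congr rfl fun k' _ => ?_
          rw [← Finset.sum_add_distrib]
          refine Finset.sum_congr rfl fun j' _ => ?_
          split_ifs <;> simp
        rw [h2, dvd_neg]
        refine Finset.dvd_sum fun k' hk' => Finset.dvd_sum fun j' hj' => ?_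
        rw [Finset.mem_range] at hk' hj'
        split_ifs with h4
        · exact dvd_zero _
        · rcases lt_trichotomy (k' * S.E + j') (k * S.E + j) with h5 | h5 | h5
          · obtain ⟨h6, h7⟩ := ih _ (by omega) k' hk' j' hj' rfl
            rw [SData.term, h6, h7]
            simp
          · exfalso
            apply h4
            rcases lt_trichotomy k' k with h6 | h6 | h6
            · have h2 : (k' + 1) * S.E ≤ k * S.E := Nat.mul_le_mul_right _ h6
              nlinarith
            · subst h6
              exact ⟨rfl, by omega⟩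
            · have h2 : (k + 1) * S.E ≤ k' * S.E := Nat.mul_le_mul_right _ h6
              nlinarith
          · exact (pow_dvd_pow _ (horder k j k' j' hj hj' h5)).trans (hdvdterm k' j')
      -- cancel
      have h2 : S.term (h k j) (h' k j) k j
          = (X + C S.β) ^ (S.o * j + Fintype.card K * k) * ((h k j + h' k j * tauP K S.N) * S.c1 ^ j) := by
        rw [SData.term, SData.c, S.hc1, mul_pow, ← pow_mul, pow_add]
        ring
      rw [h2, pow_add] at h1
      have h3 : (X + C S.β) ^ S.o ∣ (h k j + h' k j * tauP K S.N) * S.c1 ^ j :=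
        (mul_dvd_mul_iff_left (pow_ne_zero _ (X_add_C_ne_zero S.β))).mp h1
      have hcop : IsCoprime ((X + C S.β) ^ S.o) (S.c1 ^ j) := by
        refine IsCoprime.pow ?_
        have h4 : (X + C S.β : K[X]) = X - C S.β := by
          rw [sub_eq_add_neg, ← C_neg, CharTwo.neg_eq]
        rw [h4]
        rw [(irreducible_X_sub_C S.β).coprime_iff_not_dvd]
        rw [dvd_iff_isRoot]
        exact S.hc1β
      have h5 : (X + C S.β) ^ S.o ∣ h k j + h' k j * tauP K S.N := hcop.dvd_of_dvd_mul_right h3
      exact approx S.hN hA S.o_le S.β _ _ (hh k j) (hh' k j) h5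
  intro k hk j hj
  exact main _ k hk j hj rfl

end Pool.Agent.PRW
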