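import Mathlib
import Pool.Agent.PRW.Step

/-!
# Stepanov's method: the Taylor expansions
-/

set_option autoImplicit false
set_option linter.unusedSectionVars false
open Polynomial
open Classical

namespace Pool.Agent.PRW

section weight

variable {K : Type} [Field K]

/-- the coefficient of `Y ^ m` has degree at most `B + t m` -/
def W (t B : ℕ) (G : K[X][X]) : Prop := ∀ m, (G.coeff m).natDegree ≤ B + t * m

theorem W.mono {t B B' : ℕ} {G : K[X][X]} (h : W t B G) (hB : B ≤ B') : W t B' G :=
  fun m => (h m).trans (by omega)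

theorem W.mul {t B B' : ℕ} {G G' : K[X][X]} (h : W t B G) (h' : W t B' G') : W t (B + B') (G * G') := by
  intro m
  rw [coeff_mul]
  refine natDegree_sum_le_of_forall_le _ _ fun x hx => ?_
  have h1 : x.1 + x.2 = m := Finset.HasAntidiagonal.mem_antidiagonal.mp hx
  refine natDegree_mul_le.trans ?_
  have h2 := h x.1
  have h3 := h' x.2
  subst h1
  nlinarith

theorem W.add {t B : ℕ} {G G' : K[X][X]} (h : W t B G) (h' : W t B G') : W t B (G + G') := by
  intro m
  rw [coeff_add]
  exact (natDegree_add_le _ _).trans (max_le (h m) (h' m))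

theorem W.C {t B : ℕ} {f : K[X]} (h : f.natDegree ≤ B) : W t B (C f) := by
  intro m
  rw [coeff_C]
  split_ifs
  · omega
  · simp

theorem W.one (t : ℕ) : W t 0 (1 : K[X][X]) := by
  rw [← C_1]
  exact W.C (by simp)

theorem W.CX {t : ℕ} {f : K[X]} (h : f.natDegree ≤ t) : W t 0 (Polynomial.C f * X) := by
  intro m
  rw [coeff_C_mul, coeff_X]
  split_ifs with h1
  · subst h1
    rw [mul_one]
    omega
  · simp

theorem W.pow {t B : ℕ} {G : K[X][X]} (h : W t B G) (j : ℕ) : W t (B * j) (G ^ j) := by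
  induction j with
  | zero => simpa using W.one t
  | succ j ih =>
    rw [pow_succ, Nat.mul_succ]
    exact ih.mul h

theorem W.pow0 {t : ℕ} {G : K[X][X]} (h : W t 0 G) (j : ℕ) : W t 0 (G ^ j) := by
  have := h.pow j
  rwa [Nat.zero_mul] at this

theorem W.sum {t B : ℕ} {ι : Type} (s : Finset ι) (f : ι → K[X][X]) (h : ∀ i ∈ s, W t B (f i)) :
    W t B (∑ i ∈ s, f i) := by
  intro m
  rw [finsetSum_coeff]
  exact natDegree_sum_le_of_forall_le _ _ fun i hi => h i hi m

theorem W.prod0 {t : ℕ} {ι : Type} (s : Finset ι) (f : ι → K[X][X]) (h : ∀ i ∈ s, W t 0 (f i)) :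
    W t 0 (∏ i ∈ s, f i) := by
  induction s using Finset.induction_on with
  | empty => simpa using W.one t
  | insert a s ha ih =>
    rw [Finset.prod_insert ha]
    have h1 := (h a (Finset.mem_insert_self a s)).mul (ih fun i hi => h i (Finset.mem_insert_of_mem hi))
    simpa using h1

end weight

variable {K : Type} [Field K] [Fintype K] [CharP K 2] (S : SData K)

/-- the expansions at the points where `c = lam` and `τ = ep` -/
noncomputable def SData.G (lam ep : K) (k j l a : ℕ) : K[X][X] :=
  (C X + C S.P * X) ^ a * (C (C ep) + ∑ i ∈ Finset.range S.N, (C S.P * X) ^ 2 ^ i) ^ l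
    * (C (C lam) * ∏ i ∈ Finset.range S.n, (1 + (C (S.g i) * X) ^ S.q ^ i)) ^ j
    * C ((X + C S.β) ^ k)

/-- the auxiliary polynomials -/
noncomputable def SData.R (k j l a : ℕ) : K[X] :=
  X ^ a * (tauP K S.N) ^ l * S.c ^ j * (X + C S.β) ^ (Fintype.card K * k)

theorem SData.W_G (lam ep : K) (k j l a : ℕ) : W S.t (a + k) (S.G lam ep k j l a) := by
  have h1 : W S.t 1 (C X + C S.P * X : K[X][X]) :=
    (W.C (by simp)).add ((W.CX S.hPdeg).mono (by omega))
  have h1' := h1.pow a
  rw [one_mul] at h1'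
  have h2 : W S.t 0 (C (C ep) + ∑ i ∈ Finset.range S.N, (C S.P * X) ^ 2 ^ i : K[X][X]) :=
    (W.C (by simp)).add (W.sum _ _ fun i _ => (W.CX S.hPdeg).pow0 _)
  have h3 : W S.t 0 (C (C lam) * ∏ i ∈ Finset.range S.n, (1 + (C (S.g i) * X) ^ S.q ^ i) : K[X][X]) := by
    have h4 : W S.t 0 (C (C lam) : K[X][X]) := W.C (by simp)
    have h5 : W S.t 0 (∏ i ∈ Finset.range S.n, (1 + (C (S.g i) * X) ^ S.q ^ i) : K[X][X]) :=
      W.prod0 _ _ fun i _ => (W.one _).add ((W.CX (S.hg i)).pow0 _)
    simpa using h4.mul h5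
  have h6 : W S.t k (C ((X + C S.β) ^ k) : K[X][X]) := by
    refine W.C ?_
    rw [natDegree_pow, natDegree_X_add_C, mul_one]
  have h7 := ((h1'.mul (h2.pow0 l)).mul (h3.pow0 j)).mul h6
  simpa [SData.G] using h7

/-- **The comparison** of the auxiliary polynomial with its expansion. -/
theorem SData.comp_sub (lam ep al : K) (hc : S.c.eval al = lam) (ht : (tauP K S.N).eval al = ep)
    (k j l a : ℕ) :
    X ^ (Fintype.card K) ∣ (S.R k j l a).comp (C al + C (S.P.eval al) * X)
      - (S.G lam ep k j l a).map (evalRingHom al) := by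
  set s := S.P.eval al with hs
  -- the pieces
  have e1 : (C X + C S.P * X : K[X][X]).map (evalRingHom al) = C al + C s * X := by
    simp [Polynomial.map_add, Polynomial.map_mul, hs]
  have e2 : (tauP K S.N).comp (C al + C s * X)
      = (C (C ep) + ∑ i ∈ Finset.range S.N, (C S.P * X) ^ 2 ^ i : K[X][X]).map (evalRingHom al) := by
    rw [Polynomial.map_add, Polynomial.map_sum]
    simp only [Polynomial.map_pow, Polynomial.map_mul, map_C, map_X, coe_evalRingHom, eval_C]
    rw [← ht, tauP, eval_finsetSum, map_sum, ← Finset.sum_add_distrib, Polynomial.sum_comp]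
    refine Finset.sum_congr rfl fun i _ => ?_
    rw [pow_comp, X_comp, frob2, eval_pow, eval_X, C_pow]
  have e3 : S.c.comp (C al + C s * X)
      = (C (C lam) * ∏ i ∈ Finset.range S.n, (1 + (C (S.g i) * X) ^ S.q ^ i) : K[X][X]).map
        (evalRingHom al) := by
    rw [Polynomial.map_mul, Polynomial.map_prod]
    simp only [Polynomial.map_add, Polynomial.map_one, Polynomial.map_pow, Polynomial.map_mul,
      map_C, map_X, coe_evalRingHom, eval_C]
    rw [← hc, SData.c, eval_prod, map_prod, ← Finset.prod_mul_distrib, Polynomial.prod_comp]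
    refine Finset.prod_congr rfl fun i _ => ?_
    rw [add_comp, pow_comp, X_comp, C_comp, S.frobq, eval_add, eval_pow, eval_X, eval_C]
    have h1 : al ^ S.q ^ i + S.β = (al + S.b i) ^ S.q ^ i := by
      rw [S.frobq, S.hb]
    have h2 : s = (al + S.b i) * (S.g i).eval al := by
      rw [hs]
      conv_lhs => rw [S.hPg i]
      rw [eval_mul, eval_add, eval_X, eval_C]
    have h3 : (C s * X : K[X]) ^ S.q ^ i
        = C (al ^ S.q ^ i + S.β) * (C ((S.g i).eval al) * X) ^ S.q ^ i := by
      rw [h1, h2, C_mul, mul_assoc, mul_pow, C_pow]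
    rw [mul_add, mul_one, h3, C_add, C_pow]
    ring
  have e4 : ((X + C S.β) ^ (Fintype.card K * k) : K[X]).comp (C al + C s * X)
      = (C (al + S.β) + C (s ^ Fintype.card K) * X ^ Fintype.card K) ^ k := by
    rw [pow_comp, add_comp, X_comp, C_comp, pow_mul]
    congr 1
    have h1 : (C al + C s * X + C S.β : K[X]) = C (al + S.β) + C s * X := by
      rw [C_add]; ring
    rw [h1, S.hN, frob2, mul_pow, ← C_pow, ← C_pow, ← S.hN, FiniteField.pow_card]
  have e5 : (S.G lam ep k j l a).map (evalRingHom al)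
      = (C al + C s * X) ^ a * ((tauP K S.N).comp (C al + C s * X)) ^ l
        * (S.c.comp (C al + C s * X)) ^ j * (C (al + S.β)) ^ k := by
    rw [SData.G, Polynomial.map_mul, Polynomial.map_mul, Polynomial.map_mul, Polynomial.map_pow, e1,
      Polynomial.map_pow, ← e2, Polynomial.map_pow, ← e3]
    congr 1
    rw [map_C, coe_evalRingHom, eval_pow, eval_add, eval_X, eval_C, C_pow]
  rw [e5, SData.R, mul_comp, mul_comp, mul_comp, pow_comp, X_comp, pow_comp, pow_comp, e4, ← mul_sub]
  refine Dvd.dvd.mul_left ?_ _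
  refine Dvd.dvd.trans ?_ (sub_dvd_pow_sub_pow _ _ k)
  rw [add_sub_cancel_left]
  exact dvd_mul_left _ _

end Pool.Agent.PRW
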