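import Mathlib
import Pool.Agent.PRW.Step2

/-!
# Stepanov's method: the bound
-/

set_option autoImplicit false
set_option linter.unusedSectionVars false
open Polynomial
open Classical

namespace Pool.Agent.PRW

variable {K : Type} [Field K] [Fintype K] [CharP K 2] (S : SData K)

theorem dvd_of_comp {s al : K} (hs : s ≠ 0) {M : ℕ} {R : K[X]}
    (h : X ^ M ∣ R.comp (C al + C s * X)) : (X - C al) ^ M ∣ R := by
  obtain ⟨T, hT⟩ := h
  have h1 : (R.comp (C al + C s * X)).comp (C s⁻¹ * (X - C al)) = R := by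
    rw [comp_assoc]
    have h2 : (C al + C s * X : K[X]).comp (C s⁻¹ * (X - C al)) = X := by
      rw [add_comp, mul_comp, C_comp, C_comp, X_comp, ← mul_assoc, ← C_mul, mul_inv_cancel₀ hs]
      simp
    rw [h2, comp_X]
  rw [← h1, hT, mul_comp, pow_comp, X_comp, mul_pow]
  exact Dvd.dvd.mul_right (dvd_mul_left _ _) _

theorem geom_le (q : ℕ) (hq : 2 ≤ q) (n : ℕ) : ∑ i ∈ Finset.range n, q ^ i ≤ q ^ n := by
  induction n with
  | zero => simp
  | succ n ih =>
    rw [Finset.sum_range_succ, pow_succ]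
    nlinarith [Nat.zero_le (q ^ n)]

theorem SData.natDegree_c : S.c.natDegree ≤ Fintype.card K := by
  rw [SData.c]
  refine (natDegree_prod_le _ _).trans ?_
  rw [S.hQ]
  have hq : 2 ≤ S.q := by
    rw [S.hq]
    calc 2 = 2 ^ 1 := by norm_num
      _ ≤ 2 ^ S.s := Nat.pow_le_pow_right (by norm_num) S.hs
  refine le_trans (Finset.sum_le_sum (g := fun i => S.q ^ i) fun i _ => ?_) (geom_le S.q hq S.n)
  refine (natDegree_add_le _ _).trans (max_le ?_ ?_)
  · rw [natDegree_X_pow]
  · simp

theorem SData.natDegree_tau : (tauP K S.N).natDegree ≤ Fintype.card K := by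
  rw [tauP]
  refine natDegree_sum_le_of_forall_le _ _ fun i hi => ?_
  rw [natDegree_X_pow, S.hN]
  exact Nat.pow_le_pow_right (by norm_num) (Finset.mem_range.mp hi).le

theorem SData.natDegree_R {A K0 k j l a : ℕ} (hA : 2 * A ≤ S.o) (hk : k < K0) (hj : j < S.E)
    (hl : l < 2) (ha : a < A) :
    (S.R k j l a).natDegree ≤ Fintype.card K * (S.E + K0) := by
  rw [SData.R]
  have h1 : (X ^ a : K[X]).natDegree ≤ Fintype.card K := by
    rw [natDegree_X_pow]
    have := S.o_le
    omega
  have h2 : ((tauP K S.N) ^ l).natDegree ≤ Fintype.card K := by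
    refine natDegree_pow_le.trans ?_
    have := S.natDegree_tau
    have hl' : l ≤ 1 := by omega
    nlinarith
  have h3 : (S.c ^ j).natDegree ≤ (S.E - 1) * Fintype.card K := by
    refine natDegree_pow_le.trans ?_
    exact Nat.mul_le_mul (by omega) S.natDegree_c
  have h4 : ((X + C S.β) ^ (Fintype.card K * k)).natDegree ≤ (K0 - 1) * Fintype.card K := by
    rw [natDegree_pow, natDegree_X_add_C, mul_one, mul_comm]
    exact Nat.mul_le_mul (by omega) le_rfl
  have h5 : (X ^ a * (tauP K S.N) ^ l).natDegree ≤ Fintype.card K + Fintype.card K :=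
    natDegree_mul_le.trans (add_le_add h1 h2)
  have h6 : (X ^ a * (tauP K S.N) ^ l * S.c ^ j).natDegree
      ≤ Fintype.card K + Fintype.card K + (S.E - 1) * Fintype.card K :=
    natDegree_mul_le.trans (add_le_add h5 h3)
  have h7 : (X ^ a * (tauP K S.N) ^ l * S.c ^ j * (X + C S.β) ^ (Fintype.card K * k)).natDegree
      ≤ Fintype.card K + Fintype.card K + (S.E - 1) * Fintype.card K + (K0 - 1) * Fintype.card K :=
    natDegree_mul_le.trans (add_le_add h6 h4)
  refine h7.trans (le_of_eq ?_)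
  obtain ⟨e, he⟩ : ∃ e, S.E = e + 1 := ⟨S.E - 1, by omega⟩
  obtain ⟨f, hf⟩ : ∃ f, K0 = f + 1 := ⟨K0 - 1, by omega⟩
  rw [he, hf]
  simp only [Nat.add_sub_cancel]
  ring

/-- existence of the coefficients -/
theorem SData.exists_coeff (lam ep : K) (A K0 M0 : ℕ)
    (hcount : M0 * (A + K0 + S.t * M0) < 2 * (K0 * (S.E * A))) :
    ∃ x : ℕ → ℕ → ℕ → ℕ → K, (∃ k < K0, ∃ j < S.E, ∃ l < 2, ∃ a < A, x k j l a ≠ 0) ∧
      ∀ m < M0, ∑ k ∈ Finset.range K0, ∑ j ∈ Finset.range S.E, ∑ l ∈ Finset.range 2,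
        ∑ a ∈ Finset.range A, C (x k j l a) * (S.G lam ep k j l a).coeff m = 0 := by
  set D := A + K0 + S.t * M0 with hD
  set Mx : Matrix (Fin M0 × Fin D) (Fin K0 × Fin S.E × Fin 2 × Fin A) K :=
    fun p i => ((S.G lam ep i.1 i.2.1 i.2.2.1 i.2.2.2).coeff p.1).coeff p.2 with hMx
  have hker : (LinearMap.ker Mx.mulVecLin) ≠ ⊥ := by
    refine LinearMap.ker_ne_bot_of_finrank_lt ?_
    rw [Module.finrank_fintype_fun_eq_card, Module.finrank_fintype_fun_eq_card]
    simp only [Fintype.card_prod, Fintype.card_fin]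
    calc M0 * D < 2 * (K0 * (S.E * A)) := hcount
      _ = K0 * (S.E * (2 * A)) := by ring
  obtain ⟨y, hy, hy0⟩ := (Submodule.ne_bot_iff _).mp hker
  rw [LinearMap.mem_ker, Matrix.mulVecLin_apply] at hy
  set x : ℕ → ℕ → ℕ → ℕ → K := fun k j l a =>
    if h : k < K0 ∧ j < S.E ∧ l < 2 ∧ a < A then
      y (⟨k, h.1⟩, ⟨j, h.2.1⟩, ⟨l, h.2.2.1⟩, ⟨a, h.2.2.2⟩) else 0 with hx
  have hxy : ∀ (k : Fin K0) (j : Fin S.E) (l : Fin 2) (a : Fin A), x k j l a = y (k, j, l, a) := by
    intro k j l a
    rw [hx]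
    simp only
    rw [dif_pos ⟨k.2, j.2, l.2, a.2⟩]
  refine ⟨x, ?_, ?_⟩
  · obtain ⟨⟨k, j, l, a⟩, hi⟩ := Function.ne_iff.mp hy0
    refine ⟨k, k.2, j, j.2, l, l.2, a, a.2, ?_⟩
    rw [hxy]
    exact hi
  · intro m hm
    have hconv : ∑ k ∈ Finset.range K0, ∑ j ∈ Finset.range S.E, ∑ l ∈ Finset.range 2,
        ∑ a ∈ Finset.range A, C (x k j l a) * (S.G lam ep k j l a).coeff m
        = ∑ i : Fin K0 × Fin S.E × Fin 2 × Fin A,
          C (y i) * (S.G lam ep i.1 i.2.1 i.2.2.1 i.2.2.2).coeff m := by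
      simp_rw [Finset.sum_range, hxy]
      rw [Fintype.sum_prod_type]
      refine Finset.sum_congr rfl fun k _ => ?_
      rw [Fintype.sum_prod_type]
      refine Finset.sum_congr rfl fun j _ => ?_
      rw [Fintype.sum_prod_type]
    rw [hconv]
    ext v
    rw [coeff_zero, finsetSum_coeff]
    by_cases hv : v < D
    · have h1 := congrFun hy (⟨m, hm⟩, ⟨v, hv⟩)
      rw [Matrix.mulVec, dotProduct, Pi.zero_apply] at h1
      refine Eq.trans ?_ h1
      refine Finset.sum_congr rfl fun i _ => ?_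
      rw [coeff_C_mul, mul_comm]
    · refine Finset.sum_eq_zero fun i _ => ?_
      rw [coeff_C_mul]
      have h2 := S.W_G lam ep i.1 i.2.1 i.2.2.1 i.2.2.2 m
      have h3 : S.t * m ≤ S.t * M0 := Nat.mul_le_mul_left _ hm.le
      have h4 := i.1.2
      have h5 := i.2.2.2.2
      rw [coeff_eq_zero_of_natDegree_lt (by omega), mul_zero]

/-- **Stepanov's bound.** -/
theorem SData.count (lam ep : K) (hlam : lam ≠ 0) (A K0 M0 : ℕ) (hA : 2 * A ≤ S.o)
    (hM : M0 ≤ Fintype.card K)
    (hcount : M0 * (A + K0 + S.t * M0) < 2 * (K0 * (S.E * A))) :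
    M0 * (Finset.univ.filter (fun al : K => S.c.eval al = lam ∧ (tauP K S.N).eval al = ep)).card
      ≤ Fintype.card K * (S.E + K0) := by
  obtain ⟨x, ⟨k0, hk0, j0, hj0, l0, hl0, a0, ha0, hx0⟩, hx⟩ := S.exists_coeff lam ep A K0 M0 hcount
  set RR : K[X] := ∑ k ∈ Finset.range K0, ∑ j ∈ Finset.range S.E, ∑ l ∈ Finset.range 2,
        ∑ a ∈ Finset.range A, C (x k j l a) * S.R k j l a with hRR
  -- it is nonzero
  have hne : RR ≠ 0 := by
    intro h0
    set hh : ℕ → ℕ → ℕ → K[X] := fun l k j => ∑ a ∈ Finset.range A, C (x k j l a) * X ^ a with hhh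
    have hdeg : ∀ l k j, (hh l k j).degree < A := by
      intro l k j
      refine (degree_sum_le _ _).trans_lt ?_
      rw [Finset.sup_lt_iff (by exact WithBot.bot_lt_coe A)]
      intro a ha
      refine (degree_C_mul_X_pow_le _ _).trans_lt ?_
      exact_mod_cast Finset.mem_range.mp ha
    have hsum : ∑ k ∈ Finset.range K0, ∑ j ∈ Finset.range S.E,
        S.term (hh 0 k j) (hh 1 k j) k j = 0 := by
      rw [← h0, hRR]
      refine Finset.sum_congr rfl fun k _ => Finset.sum_congr rfl fun j _ => ?_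
      rw [Finset.sum_range_succ, Finset.sum_range_one]
      simp only [hhh, SData.term, SData.R, pow_zero, pow_one, mul_one]
      rw [add_mul, add_mul, Finset.sum_mul, Finset.sum_mul, Finset.sum_mul, Finset.sum_mul,
        Finset.sum_mul]
      congr 1
      · refine Finset.sum_congr rfl fun a _ => by ring
      · refine Finset.sum_congr rfl fun a _ => by ring
    obtain ⟨h1, h2⟩ := S.independent hA (hh 0) (hh 1) (hdeg 0) (hdeg 1) hsum k0 hk0 j0 hj0
    have hl : hh l0 k0 j0 = 0 := by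
      interval_cases l0
      · exact h1
      · exact h2
    apply hx0
    have h3 := congrArg (fun p : K[X] => p.coeff a0) hl
    simp only [hhh, finsetSum_coeff, coeff_C_mul, coeff_X_pow, coeff_zero] at h3
    rw [Finset.sum_eq_single a0] at h3
    · simpa using h3
    · intro b _ hb
      rw [if_neg (fun h => hb h.symm), mul_zero]
    · intro h
      exact absurd (Finset.mem_range.mpr ha0) h
  -- high order zeros
  have hzero : ∀ al : K, S.c.eval al = lam → (tauP K S.N).eval al = ep → (X - C al) ^ M0 ∣ RR := by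
    intro al h1 h2
    have hs : S.P.eval al ≠ 0 := by
      intro h3
      apply hlam
      rw [← h1]
      exact S.hPc al h3
    refine dvd_of_comp hs ?_
    set GG : K[X][X] := ∑ k ∈ Finset.range K0, ∑ j ∈ Finset.range S.E, ∑ l ∈ Finset.range 2,
        ∑ a ∈ Finset.range A, C (C (x k j l a)) * S.G lam ep k j l a with hGG
    have h4 : X ^ M0 ∣ GG.map (evalRingHom al) := by
      rw [X_pow_dvd_iff]
      intro m hm
      rw [coeff_map, hGG]
      have h5 : (∑ k ∈ Finset.range K0, ∑ j ∈ Finset.range S.E, ∑ l ∈ Finset.range 2,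
        ∑ a ∈ Finset.range A, C (C (x k j l a)) * S.G lam ep k j l a).coeff m = 0 := by
        simp only [finsetSum_coeff, coeff_C_mul]
        exact hx m hm
      rw [h5, map_zero]
    have h6 : X ^ M0 ∣ RR.comp (C al + C (S.P.eval al) * X) - GG.map (evalRingHom al) := by
      refine (pow_dvd_pow X hM).trans ?_
      rw [hRR, hGG]
      simp only [Polynomial.sum_comp, Polynomial.map_sum, mul_comp, C_comp, Polynomial.map_mul,
        map_C, coe_evalRingHom, eval_C, ← Finset.sum_sub_distrib, ← mul_sub]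
      refine Finset.dvd_sum fun k _ => Finset.dvd_sum fun j _ => Finset.dvd_sum fun l _ =>
        Finset.dvd_sum fun a _ => Dvd.dvd.mul_left ?_ _
      exact S.comp_sub lam ep al h1 h2 k j l a
    have h7 := dvd_add h6 h4
    rwa [sub_add_cancel] at h7
  -- the degree
  have hdeg : RR.natDegree ≤ Fintype.card K * (S.E + K0) := by
    rw [hRR]
    refine natDegree_sum_le_of_forall_le _ _ fun k hk => natDegree_sum_le_of_forall_le _ _ fun j hj =>
      natDegree_sum_le_of_forall_le _ _ fun l hl => natDegree_sum_le_of_forall_le _ _ fun a ha => ?_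
    rw [Finset.mem_range] at hk hj hl ha
    exact (natDegree_C_mul_le _ _).trans (S.natDegree_R hA hk hj hl ha)
  -- the product of the factors
  have hprod : (∏ al ∈ Finset.univ.filter (fun al : K => S.c.eval al = lam ∧ (tauP K S.N).eval al = ep),
      (X - C al) ^ M0) ∣ RR := by
    refine Finset.prod_dvd_of_coprime ?_ ?_
    · intro a _ b _ hab
      exact (isCoprime_X_sub_C_of_isUnit_sub (sub_ne_zero.mpr hab).isUnit).pow
    · intro al hal
      rw [Finset.mem_filter] at hal
      exact hzero al hal.2.1 hal.2.2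
  have hle := natDegree_le_of_dvd hprod hne
  rw [natDegree_prod_of_monic _ _ fun i _ => (monic_X_sub_C i).pow _] at hle
  simp only [natDegree_pow, natDegree_X_sub_C, mul_one, Finset.sum_const, smul_eq_mul] at hle
  rw [mul_comm]
  exact hle.trans hdeg

end Pool.Agent.PRW
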