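import Mathlib
import Pool.Agent.PRW.Step3
import Pool.Agent.PRW.Points

/-!
# Stepanov's method: choice of the parameters, and the data of a field extension
-/

set_option autoImplicit false
set_option linter.unusedSectionVars false
open Polynomial
open Classical

namespace Pool.Agent.PRW

section params

variable {K : Type} [Field K] [Fintype K] [CharP K 2] (S : SData K)

theorem arith1 {E o t Z A K0 f : ℕ} (hE1 : 1 ≤ E) (hE : E * o + 1 = Z ^ 2)
    (hge : 2 * (t + 3) * (E + 1) ≤ Z) (hA3 : o ≤ 2 * A + 1) (hK0 : K0 = f + 1 + (t + 2))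
    (hf1 : 2 * E * f ≤ Z) (hf2 : Z < 2 * E * (f + 1)) :
    Z * (A + K0 + t * Z) < 2 * (K0 * (E * A)) := by
  have hZ1 : 1 ≤ Z := by nlinarith
  have hEA : Z ^ 2 ≤ 2 * E * A + E + 1 := by
    have h1 : E * o ≤ E * (2 * A + 1) := Nat.mul_le_mul_left _ hA3
    linarith
  have hZt : 2 * (t + 3) ≤ Z := by
    have h1 : 2 * (t + 3) * 1 ≤ 2 * (t + 3) * (E + 1) := Nat.mul_le_mul_left _ (by omega)
    omega
  have hZE : 2 * ((t + 2) * (E + 1)) ≤ Z := by
    have h1 : 2 * ((t + 2) * (E + 1)) ≤ 2 * (t + 3) * (E + 1) := by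
      rw [← mul_assoc]
      exact Nat.mul_le_mul_right _ (by omega)
    omega
  have h1 : Z * A + (t + 2) * (2 * E * A) ≤ 2 * (K0 * (E * A)) := by
    have h2 : (Z + 2 * E * (t + 2)) * A ≤ (2 * E * (f + 1) + 2 * E * (t + 2)) * A :=
      Nat.mul_le_mul_right _ (by omega)
    calc Z * A + (t + 2) * (2 * E * A) = (Z + 2 * E * (t + 2)) * A := by ring
      _ ≤ (2 * E * (f + 1) + 2 * E * (t + 2)) * A := h2
      _ = 2 * (K0 * (E * A)) := by rw [hK0]; ring
  have h3 : (t + 2) * Z ^ 2 ≤ (t + 2) * (2 * E * A) + (t + 2) * (E + 1) := by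
    have := Nat.mul_le_mul_left (t + 2) hEA
    linarith
  have h4 : 2 * (Z * f) ≤ Z ^ 2 := by
    have h5 : 2 * f ≤ 2 * E * f := Nat.mul_le_mul_right _ (by omega)
    have h6 : 2 * f ≤ Z := h5.trans hf1
    nlinarith
  have h7 : Z * (A + K0 + t * Z) = Z * A + Z * f + (t + 3) * Z + t * Z ^ 2 := by
    rw [hK0]; ring
  have h8 : 2 * ((t + 3) * Z) ≤ Z ^ 2 := by nlinarith
  have h9 : (t + 2) * (E + 1) < Z ^ 2 := by
    have h10 : 0 < (t + 2) * (E + 1) := by positivity
    nlinarith
  rw [h7]
  linarith

theorem arith2 {E t Z K0 f : ℕ} (hK0 : K0 = f + 1 + (t + 2)) (hf1 : 2 * E * f ≤ Z) :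
    2 * E * (Z * (E + K0)) ≤ Z ^ 2 + 2 * E * (2 * (t + 3) * (E + 1)) * Z := by
  have h4 : 2 * E * K0 ≤ Z + 2 * E * (t + 3) := by
    have : 2 * E * K0 = 2 * E * f + 2 * E * (t + 3) := by rw [hK0]; ring
    omega
  have h5 : Z * (2 * E * K0) ≤ Z * (Z + 2 * E * (t + 3)) := Nat.mul_le_mul_left _ h4
  have h6 : E + t + 3 ≤ 2 * (t + 3) * (E + 1) := by nlinarith [Nat.zero_le (t * E)]
  have h7 : 2 * E * (E + t + 3) * Z ≤ 2 * E * (2 * (t + 3) * (E + 1)) * Z :=
    Nat.mul_le_mul_right _ (Nat.mul_le_mul_left _ h6)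
  linarith

/-- **Stepanov's bound**, when `card K` is a square. -/
theorem SData.bound (lam ep : K) (hlam : lam ≠ 0) (Z : ℕ) (hZ : Fintype.card K = Z ^ 2) :
    2 * S.E * (Finset.univ.filter (fun al : K => S.c.eval al = lam ∧ (tauP K S.N).eval al = ep)).card
      ≤ Z ^ 2 + 2 * S.E * (2 * (S.t + 3) * (S.E + 1)) * Z := by
  have hcc : (Finset.univ.filter (fun al : K => S.c.eval al = lam ∧ (tauP K S.N).eval al = ep)).card
      ≤ Z ^ 2 := by
    rw [← hZ]
    exact Finset.card_le_univ _
  have hE1 := S.hE1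
  have hE := S.hE
  rw [hZ] at hE
  have hZ1 : 1 ≤ Z := by
    have : 0 < Fintype.card K := Fintype.card_pos
    rw [hZ] at this
    exact Nat.pos_of_ne_zero (by rintro rfl; simp at this)
  rcases Nat.lt_or_ge Z (2 * (S.t + 3) * (S.E + 1)) with hlt | hge
  · refine (Nat.mul_le_mul_left _ hcc).trans ?_
    have h1 : Z ^ 2 ≤ (2 * (S.t + 3) * (S.E + 1)) * Z := by
      rw [sq]
      exact Nat.mul_le_mul_right _ hlt.le
    calc 2 * S.E * Z ^ 2 ≤ 2 * S.E * ((2 * (S.t + 3) * (S.E + 1)) * Z) := Nat.mul_le_mul_left _ h1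
      _ = 2 * S.E * (2 * (S.t + 3) * (S.E + 1)) * Z := by rw [← mul_assoc]
      _ ≤ _ := Nat.le_add_left _ _
  · have hf1 : 2 * S.E * (Z / (2 * S.E)) ≤ Z := Nat.mul_div_le Z (2 * S.E)
    have hf2 : Z < 2 * S.E * (Z / (2 * S.E) + 1) := Nat.lt_mul_div_succ Z (by omega)
    have hcount := arith1 (A := S.o / 2) (K0 := Z / (2 * S.E) + 1 + (S.t + 2)) hE1 hE hge (by omega)
      rfl hf1 hf2
    have hmain := S.count lam ep hlam (S.o / 2) (Z / (2 * S.E) + 1 + (S.t + 2)) Z (by omega)
      (by rw [hZ, sq]; exact Nat.le_mul_of_pos_left _ hZ1) hcount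
    rw [hZ, sq, mul_assoc] at hmain
    exact (Nat.mul_le_mul_left _ (Nat.le_of_mul_le_mul_left hmain hZ1)).trans (arith2 rfl hf1)

end params

section data

variable (F : Type) [Field F] [Fintype F] [CharP F 2] {K : Type} [Field K] [Fintype K]
  [CharP K 2] [Algebra F K]

theorem geom_filter (q t m : ℕ) (ht : 0 < t) :
    (q ^ t - 1) * (∑ i ∈ (Finset.range (t * m)).filter (fun i => t ∣ i), q ^ i) + 1 = q ^ (t * m)
      ∨ q = 0 := by
  rcases Nat.eq_zero_or_pos q with h | hq
  · exact Or.inr h
  left
  have h1 : ∑ i ∈ (Finset.range (t * m)).filter (fun i => t ∣ i), q ^ i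
      = ∑ j ∈ Finset.range m, (q ^ t) ^ j := by
    symm
    refine Finset.sum_bij (fun j _ => t * j) ?_ ?_ ?_ ?_
    · intro j hj
      rw [Finset.mem_filter, Finset.mem_range]
      exact ⟨Nat.mul_lt_mul_of_pos_left (Finset.mem_range.mp hj) ht, dvd_mul_right _ _⟩
    · intro a _ b _ h
      exact Nat.eq_of_mul_eq_mul_left ht h
    · intro i hi
      rw [Finset.mem_filter, Finset.mem_range] at hi
      obtain ⟨h2, j, rfl⟩ := hi
      exact ⟨j, Finset.mem_range.mpr (Nat.lt_of_mul_lt_mul_left h2), rfl⟩
    · intro j _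
      rw [pow_mul]
  rw [h1]
  have hqt : 1 ≤ q ^ t := Nat.one_le_pow _ _ hq
  obtain ⟨e, he⟩ : ∃ e, q ^ t = e + 1 := ⟨q ^ t - 1, by omega⟩
  rw [pow_mul, he]
  simp only [Nat.add_sub_cancel]
  clear h1
  induction m with
  | zero => simp
  | succ m ih =>
    rw [Finset.sum_range_succ, mul_add, pow_succ]
    linarith

/-- The data attached to an element of an extension field. -/
noncomputable def mkData (x : K) : SData K :=
  haveI hx : IsIntegral F x := Algebra.IsIntegral.isIntegral x
  { s := (FiniteField.card F 2).choose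
    q := Fintype.card F
    n := Module.finrank F K
    N := (FiniteField.card F 2).choose * Module.finrank F K
    t := (minpoly F x).natDegree
    E := Fintype.card F ^ (minpoly F x).natDegree - 1
    o := ∑ i ∈ (Finset.range (Module.finrank F K)).filter (fun i => (minpoly F x).natDegree ∣ i),
      Fintype.card F ^ i
    β := x
    b := fun i => x ^ (Fintype.card F) ^ (((minpoly F x).natDegree - 1) * i)
    P := (minpoly F x).map (algebraMap F K)
    g := fun i => ((minpoly F x).map (algebraMap F K))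
      /ₘ (X - C (x ^ (Fintype.card F) ^ (((minpoly F x).natDegree - 1) * i)))
    c1 := ∏ i ∈ (Finset.range (Module.finrank F K)).filter (fun i => ¬ (minpoly F x).natDegree ∣ i),
      (X + C (x ^ (Fintype.card F) ^ (((minpoly F x).natDegree - 1) * i))) ^ (Fintype.card F) ^ i
    hs := (FiniteField.card F 2).choose.2
    hq := (FiniteField.card F 2).choose_spec.2
    hQ := Module.card_eq_pow_finrank
    hN := by
      rw [pow_mul, ← (FiniteField.card F 2).choose_spec.2]
      exact Module.card_eq_pow_finrank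
    hb := by
      intro i
      have hpos : 0 < (minpoly F x).natDegree := minpoly.natDegree_pos hx
      rw [← pow_mul, ← pow_add, ← Nat.succ_mul, Nat.succ_eq_add_one, Nat.sub_add_cancel hpos]
      exact (dvd_iff_pow_eq (F := F) x _).mp (dvd_mul_right _ _)
    hPg := by
      intro i
      have h1 : ((minpoly F x).map (algebraMap F K)).IsRoot
          (x ^ (Fintype.card F) ^ (((minpoly F x).natDegree - 1) * i)) := by
        have h1 : (aeval (((FiniteField.frobeniusAlgHom F K) ^ (((minpoly F x).natDegree - 1) * i)) x))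
            (minpoly F x) = 0 := by
          rw [aeval_algHom_apply, minpoly.aeval, map_zero]
        have h2 : ((FiniteField.frobeniusAlgHom F K) ^ (((minpoly F x).natDegree - 1) * i)) x
            = x ^ (Fintype.card F) ^ (((minpoly F x).natDegree - 1) * i) := by
          rw [AlgHom.coe_pow, FiniteField.coe_frobeniusAlgHom, pow_iterate]
        rw [h2] at h1
        rw [IsRoot.def, eval_map_algebraMap]
        exact h1
      have h2 := mul_divByMonic_eq_iff_isRoot.mpr h1
      rw [← CharTwo.sub_eq_add]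
      exact h2.symm
    hg := by
      intro i
      rw [natDegree_divByMonic _ (monic_X_sub_C _), natDegree_map]
      exact Nat.sub_le _ _
    hPdeg := by rw [natDegree_map]
    hPc := by
      intro al hal
      rw [minpoly_map_eq, eval_prod, Finset.prod_eq_zero_iff] at hal
      obtain ⟨i, hi, h1⟩ := hal
      rw [eval_sub, eval_X, eval_C, sub_eq_zero] at h1
      have hpos : 0 < (minpoly F x).natDegree := minpoly.natDegree_pos hx
      have hdvd : (minpoly F x).natDegree ∣ Module.finrank F K := minpoly.degree_dvd hx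
      have hle := Nat.le_of_dvd Module.finrank_pos hdvd
      rw [Finset.mem_range] at hi
      rw [eval_prod]
      rcases Nat.eq_zero_or_pos i with h2 | h2
      · subst h2
        refine Finset.prod_eq_zero (i := 0) (Finset.mem_range.mpr (by omega)) ?_
        rw [eval_add, eval_pow, eval_X, eval_C, h1]
        simp only [pow_zero, pow_one]
        exact CharTwo.add_self_eq_zero x
      · refine Finset.prod_eq_zero (i := (minpoly F x).natDegree - i)
          (Finset.mem_range.mpr (by omega)) ?_
        rw [eval_add, eval_pow, eval_X, eval_C, h1, ← pow_mul, ← pow_add,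
          Nat.add_sub_cancel' hi.le, (dvd_iff_pow_eq (F := F) x _).mp dvd_rfl]
        exact CharTwo.add_self_eq_zero x
    hE := by
      have hdvd : (minpoly F x).natDegree ∣ Module.finrank F K := minpoly.degree_dvd hx
      obtain ⟨m, hm⟩ := hdvd
      rw [Module.card_eq_pow_finrank (K := F) (V := K), hm]
      rcases geom_filter (Fintype.card F) (minpoly F x).natDegree m (minpoly.natDegree_pos hx) with h | h
      · exact h
      · exact absurd h Fintype.card_ne_zero
    hE1 := by
      have h1 : 2 ≤ Fintype.card F := Fintype.one_lt_card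
      have h2 : 2 ^ 1 ≤ Fintype.card F ^ (minpoly F x).natDegree :=
        (Nat.pow_le_pow_left h1 1).trans (Nat.pow_le_pow_right (by omega) (minpoly.natDegree_pos hx))
      omega
    hc1 := by
      have hb : ∀ i, (x ^ (Fintype.card F) ^ (((minpoly F x).natDegree - 1) * i))
          ^ (Fintype.card F) ^ i = x := by
        intro i
        have hpos : 0 < (minpoly F x).natDegree := minpoly.natDegree_pos hx
        rw [← pow_mul, ← pow_add, ← Nat.succ_mul, Nat.succ_eq_add_one, Nat.sub_add_cancel hpos]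
        exact (dvd_iff_pow_eq (F := F) x _).mp (dvd_mul_right _ _)
      have h1 : ∀ i, (X ^ (Fintype.card F) ^ i + C x : K[X])
          = (X + C (x ^ (Fintype.card F) ^ (((minpoly F x).natDegree - 1) * i)))
            ^ (Fintype.card F) ^ i := by
        intro i
        have h2 := (FiniteField.card F 2).choose_spec.2
        have h3 : ∀ a b : K[X], (a + b) ^ (Fintype.card F) ^ i
            = a ^ (Fintype.card F) ^ i + b ^ (Fintype.card F) ^ i := by
          intro a b
          rw [h2, ← pow_mul]
          exact frob2 a b _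
        rw [h3, ← C_pow, hb]
      simp_rw [h1]
      rw [← Finset.prod_filter_mul_prod_filter_not (Finset.range (Module.finrank F K))
        (fun i => (minpoly F x).natDegree ∣ i)]
      congr 1
      rw [← Finset.prod_pow_eq_pow_sum]
      refine Finset.prod_congr rfl fun i hi => ?_
      rw [(dvd_iff_pow_eq (F := F) x _).mp (Dvd.dvd.mul_left (Finset.mem_filter.mp hi).2 _)]
    hc1β := by
      rw [eval_prod, Finset.prod_ne_zero_iff]
      intro i hi
      rw [eval_pow, eval_add, eval_X, eval_C]
      refine pow_ne_zero _ ?_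
      intro h
      apply (Finset.mem_filter.mp hi).2
      rw [dvd_iff_pow_eq (K := K)]
      have h1 : x ^ (Fintype.card F) ^ (((minpoly F x).natDegree - 1) * i) = x := by
        have h2 : x - x ^ (Fintype.card F) ^ (((minpoly F x).natDegree - 1) * i) = 0 := by
          rw [CharTwo.sub_eq_add]; exact h
        exact (sub_eq_zero.mp h2).symm
      have hpos : 0 < (minpoly F x).natDegree := minpoly.natDegree_pos hx
      have hb : (x ^ (Fintype.card F) ^ (((minpoly F x).natDegree - 1) * i))
          ^ (Fintype.card F) ^ i = x := by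
        rw [← pow_mul, ← pow_add, ← Nat.succ_mul, Nat.succ_eq_add_one, Nat.sub_add_cancel hpos]
        exact (dvd_iff_pow_eq (F := F) x _).mp (dvd_mul_right _ _)
      rw [h1] at hb
      exact hb }

end data

end Pool.Agent.PRW
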