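import Mathlib
import Pool.Agent.PRW.Points

/-!
# The hybrid characters and the vanishing of the high coefficients
-/

set_option autoImplicit false
set_option linter.unusedSectionVars false
open Polynomial
open Classical

namespace Pool.Agent.PRW

/-- the nontrivial additive character of `𝔽₂` -/
noncomputable def sg (u : ZMod 2) : ℂ := if u = 0 then 1 else -1

theorem sg_zero : sg 0 = 1 := by simp [sg]

theorem sg_one : sg 1 = -1 := by
  rw [sg, if_neg (by decide)]

theorem zmod2_cases (u : ZMod 2) : u = 0 ∨ u = 1 := by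
  revert u; decide

theorem sg_add (u v : ZMod 2) : sg (u + v) = sg u * sg v := by
  rcases zmod2_cases u with rfl | rfl
  · rw [zero_add, sg_zero, one_mul]
  · rcases zmod2_cases v with rfl | rfl
    · rw [add_zero, sg_zero, mul_one]
    · rw [show (1 : ZMod 2) + 1 = 0 from rfl, sg_zero, sg_one]
      norm_num

theorem sg_nsmul (k : ℕ) (u : ZMod 2) : sg (k * u) = sg u ^ k := by
  induction k with
  | zero => simp [sg_zero]
  | succ k ih => rw [Nat.cast_succ, add_mul, one_mul, sg_add, ih, pow_succ]

theorem sg_norm (u : ZMod 2) : ‖sg u‖ = 1 := by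
  rw [sg]; split_ifs <;> simp

theorem sum_sg_odd {e : ℕ} (he : Odd e) : ∑ u : ZMod 2, sg u ^ e = 0 := by
  have h1 : (Finset.univ : Finset (ZMod 2)) = {0, 1} := by decide
  rw [h1, Finset.sum_pair (by decide), sg_zero, sg_one, he.neg_one_pow]
  simp

/-- equidistribution of surjective additive maps -/
theorem sum_comp_surj {G H : Type} [AddCommGroup G] [Fintype G] [AddCommGroup H] [Fintype H]
    (φ : G →+ H) (hφ : Function.Surjective φ) (f : H → ℂ) :
    (Fintype.card H : ℂ) * ∑ g, f (φ g) = (Fintype.card G : ℂ) * ∑ h, f h := by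
  have h1 : ∀ h : H, ∑ g, f (φ g + h) = ∑ g, f (φ g) := by
    intro h
    obtain ⟨g0, rfl⟩ := hφ h
    rw [← Equiv.sum_comp (Equiv.addRight g0) (fun g => f (φ g))]
    refine Finset.sum_congr rfl fun g _ => ?_
    simp
  calc (Fintype.card H : ℂ) * ∑ g, f (φ g) = ∑ _h : H, ∑ g, f (φ g) := by
        rw [Finset.sum_const, Finset.card_univ, nsmul_eq_mul]
    _ = ∑ h : H, ∑ g, f (φ g + h) := Finset.sum_congr rfl fun h _ => (h1 h).symm
    _ = ∑ g, ∑ h : H, f (φ g + h) := Finset.sum_comm
    _ = ∑ _g : G, ∑ h, f h := by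
        refine Finset.sum_congr rfl fun g _ => ?_
        exact Equiv.sum_comp (Equiv.addLeft (φ g)) f
    _ = (Fintype.card G : ℂ) * ∑ h, f h := by
        rw [Finset.sum_const, Finset.card_univ, nsmul_eq_mul]

variable {F : Type} [Field F] [Fintype F] [Algebra (ZMod 2) F]
  {L : Type} [Field L] [Fintype L] [Algebra F L]

/-- the hybrid character -/
noncomputable def hyb (η : L) (χ : MulChar L ℂ) (e : ℕ) (f : F[X]) : ℂ :=
  χ (aeval η f) * sg (Algebra.trace (ZMod 2) F f.nextCoeff) ^ e

theorem hyb_one (η : L) (χ : MulChar L ℂ) (e : ℕ) : hyb (F := F) η χ e 1 = 1 := by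
  rw [hyb, map_one, map_one]
  have : (1 : F[X]).nextCoeff = 0 := by
    rw [nextCoeff_eq_zero]; left; simp
  rw [this, map_zero, sg_zero]
  simp

theorem hyb_mul (η : L) (χ : MulChar L ℂ) (e : ℕ) (f g : F[X]) (hf : f.Monic) (hg : g.Monic) :
    hyb η χ e (f * g) = hyb η χ e f * hyb η χ e g := by
  rw [hyb, hyb, hyb, map_mul, map_mul, hf.nextCoeff_mul hg, map_add, sg_add]
  ring

/-- evaluation of polynomials of degree `< m` is onto if `m` is at least the degree of the field -/
theorem eval_surj {η : L} (hη : (minpoly F η).natDegree = Module.finrank F L) {m : ℕ}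
    (hm : Module.finrank F L ≤ m) (y : L) : ∃ g : Fin m → F, ∑ i : Fin m, g i • η ^ (i : ℕ) = y := by
  have hint : IsIntegral F η := Algebra.IsIntegral.isIntegral η
  have htop : (IntermediateField.adjoin F {η}) = ⊤ :=
    (Field.primitive_element_iff_minpoly_natDegree_eq F η).mpr hη
  have hy : y ∈ (IntermediateField.adjoin F {η}).toSubalgebra := by
    rw [htop]
    exact IntermediateField.mem_top
  rw [IntermediateField.adjoin_simple_toSubalgebra_of_isAlgebraic hint.isAlgebraic,
    Algebra.adjoin_singleton_eq_range_aeval] at hy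
  obtain ⟨p, hp⟩ := hy
  set r := p %ₘ (minpoly F η) with hr
  have hmon := minpoly.monic hint
  have h1 : aeval η r = y := by
    rw [hr]
    have h2 := congrArg (aeval η) (modByMonic_add_div p (minpoly F η))
    rw [map_add, map_mul, minpoly.aeval, zero_mul, add_zero] at h2
    rw [h2]
    exact hp
  have hdeg : r.natDegree < m := by
    have h3 : r.natDegree < (minpoly F η).natDegree :=
      natDegree_modByMonic_lt p hmon (by
        intro h
        have := minpoly.natDegree_pos hint
        rw [h] at this
        simp at this)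
    omega
  refine ⟨fun i => r.coeff i, ?_⟩
  rw [← h1, aeval_eq_sum_range' hdeg, Finset.sum_range]

/-- **Vanishing of the high coefficients** -/
theorem Acoef_eq_zero {η : L} (hη : (minpoly F η).natDegree = Module.finrank F L) (χ : MulChar L ℂ)
    (e : ℕ) (hnt : χ ≠ 1 ∨ Odd e) {n : ℕ} (hn : Module.finrank F L < n) :
    Acoef (hyb (F := F) η χ e) n = 0 := by
  obtain ⟨m, rfl⟩ : ∃ m, n = m + 1 := ⟨n - 1, by omega⟩
  have hm : Module.finrank F L ≤ m := by omega
  rw [Acoef, monics, Finset.sum_image]
  · -- split off the top coefficient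
    rw [← Equiv.sum_comp (Fin.snocEquiv (fun _ => F)), Fintype.sum_prod_type]
    have hval : ∀ (a : F) (g : Fin m → F),
        hyb (F := F) η χ e (X ^ (m + 1) + ∑ i : Fin (m + 1),
          C ((Fin.snocEquiv (fun _ => F)) (a, g) i) * X ^ (i : ℕ))
        = sg (Algebra.trace (ZMod 2) F a) ^ e
          * χ ((η ^ (m + 1) + a • η ^ m) + ∑ i : Fin m, g i • η ^ (i : ℕ)) := by
      intro a g
      have h1 : (X ^ (m + 1) + ∑ i : Fin (m + 1),
          C ((Fin.snocEquiv (fun _ => F)) (a, g) i) * X ^ (i : ℕ) : F[X])
          = X ^ (m + 1) + C a * X ^ m + ∑ i : Fin m, C (g i) * X ^ (i : ℕ) := by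
        rw [Fin.sum_univ_castSucc]
        simp only [Fin.snocEquiv_apply, Fin.snoc_castSucc, Fin.snoc_last, Fin.val_castSucc,
          Fin.val_last]
        ring
      rw [h1, hyb]
      have h2 : (∑ i : Fin m, C (g i) * X ^ (i : ℕ) : F[X]).degree < m := low_degree g
      have h3 : (X ^ (m + 1) + C a * X ^ m + ∑ i : Fin m, C (g i) * X ^ (i : ℕ) : F[X]).natDegree
          = m + 1 := by
        refine natDegree_eq_of_degree_eq_some ?_
        rw [add_assoc, degree_add_eq_left_of_degree_lt, degree_X_pow]
        rw [degree_X_pow]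
        refine (degree_add_le _ _).trans_lt (max_lt ?_ ?_)
        · refine (degree_C_mul_X_pow_le _ _).trans_lt ?_
          exact_mod_cast Nat.lt_succ_self m
        · exact h2.trans (by exact_mod_cast Nat.lt_succ_self m)
      have h4 : (X ^ (m + 1) + C a * X ^ m + ∑ i : Fin m, C (g i) * X ^ (i : ℕ) : F[X]).nextCoeff
          = a := by
        rw [nextCoeff_of_natDegree_pos (by omega), h3, Nat.add_sub_cancel, coeff_add, coeff_add,
          coeff_X_pow, if_neg (by omega), coeff_C_mul, coeff_X_pow, if_pos rfl,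
          coeff_eq_zero_of_degree_lt h2]
        ring
      rw [h4, mul_comm]
      congr 2
      simp [map_sum, Algebra.smul_def]
    simp_rw [hval, ← Finset.mul_sum]
    -- the inner sum
    set φ : (Fin m → F) →+ L :=
      { toFun := fun g => ∑ i : Fin m, g i • η ^ (i : ℕ)
        map_zero' := by simp
        map_add' := by
          intro g g'
          rw [← Finset.sum_add_distrib]
          refine Finset.sum_congr rfl fun i _ => by simp [add_smul] } with hφ
    have hsurj : Function.Surjective φ := fun y => eval_surj hη hm y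
    have hinner : ∀ y0 : L, (Fintype.card L : ℂ) * ∑ g : Fin m → F, χ (y0 + ∑ i : Fin m, g i • η ^ (i : ℕ))
        = (Fintype.card (Fin m → F) : ℂ) * ∑ y, χ y := by
      intro y0
      have h5 := sum_comp_surj φ hsurj (fun y => χ (y0 + y))
      have h6 : ∑ h : L, χ (y0 + h) = ∑ h : L, χ h := Equiv.sum_comp (Equiv.addLeft y0) (fun y => χ y)
      rw [h6] at h5
      exact h5
    have hL : (Fintype.card L : ℂ) ≠ 0 := by
      exact_mod_cast Fintype.card_ne_zero
    have hinner' : ∀ y0 : L, ∑ g : Fin m → F, χ (y0 + ∑ i : Fin m, g i • η ^ (i : ℕ))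
        = (Fintype.card (Fin m → F) : ℂ) / (Fintype.card L : ℂ) * ∑ y, χ y := by
      intro y0
      rw [div_mul_eq_mul_div, eq_div_iff hL, mul_comm, hinner]
    simp_rw [hinner']
    rw [← Finset.sum_mul]
    rcases hnt with h | h
    · rw [MulChar.sum_eq_zero_of_ne_one h]
      ring
    · have h6 := sum_comp_surj (Algebra.trace (ZMod 2) F).toAddMonoidHom
        (Algebra.trace_surjective (ZMod 2) F) (fun u => sg u ^ e)
      rw [sum_sg_odd h, mul_zero] at h6
      have h7 : ∑ g : F, sg (Algebra.trace (ZMod 2) F g) ^ e = 0 := by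
        have h8 : (Fintype.card (ZMod 2) : ℂ) ≠ 0 := by
          exact_mod_cast Fintype.card_ne_zero
        exact (mul_eq_zero.mp h6).resolve_left h8
      rw [h7, zero_mul]
  · -- injectivity
    intro a _ b _ hab
    simp only at hab
    have h1 := add_left_cancel hab
    funext i
    have h2 := congrArg (fun p : F[X] => p.coeff i) h1
    simp only [finsetSum_coeff, coeff_C_mul, coeff_X_pow] at h2
    rw [Finset.sum_eq_single i, Finset.sum_eq_single i] at h2
    · simpa using h2
    · intro j _ hj
      rw [if_neg (fun h => hj (Fin.ext h.symm)), mul_zero]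
    · intro h
      exact absurd (Finset.mem_univ i) h
    · intro j _ hj
      rw [if_neg (fun h => hj (Fin.ext h.symm)), mul_zero]
    · intro h
      exact absurd (Finset.mem_univ i) h

end Pool.Agent.PRW
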