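import Mathlib
import Pool.Agent.PRW.Vanish
import Pool.Agent.PRW.Step4
import Pool.Agent.PRW.PowerSum

/-!
# Weil's bound for hybrid sums modulo an irreducible polynomial, in characteristic two

`F` is a finite field of characteristic two, `L = F(η)` an extension of degree `t`, `χ` a
multiplicative character of `L` and `ψ` a power of the absolute additive character of `F` of order
two; not both are trivial. Then `|∑ χ(f(η)) ψ(a_1(f))| ≤ binom(t, j) q ^ (j / 2)`, the sum over the
monic polynomials `f` of degree `j` over `F`, with next-to-leading coefficient `a_1(f)`.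
-/

set_option autoImplicit false
set_option linter.unusedSectionVars false
open Polynomial
open Classical

namespace Pool.Agent.PRW

theorem char_sum_bound {ι : Type} (s : Finset ι) (cnt : ι → ℝ) (Ψ : ι → ℂ) (hΨ : ∀ i, ‖Ψ i‖ ≤ 1)
    (hsum : ∑ i ∈ s, Ψ i = 0) (B T D : ℝ) (hT : 0 ≤ T) (hup : ∀ i ∈ s, cnt i ≤ B + T)
    (hlow : (s.card : ℝ) * B - D ≤ ∑ i ∈ s, cnt i) :
    ‖∑ i ∈ s, (cnt i : ℂ) * Ψ i‖ ≤ 2 * s.card * T + D := by
  have h1 : ∑ i ∈ s, (cnt i : ℂ) * Ψ i = ∑ i ∈ s, ((cnt i - B : ℝ) : ℂ) * Ψ i := by
    have h2 : ∑ i ∈ s, ((cnt i - B : ℝ) : ℂ) * Ψ i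
        = ∑ i ∈ s, (cnt i : ℂ) * Ψ i - (B : ℂ) * ∑ i ∈ s, Ψ i := by
      rw [Finset.mul_sum, ← Finset.sum_sub_distrib]
      refine Finset.sum_congr rfl fun i _ => ?_
      push_cast
      ring
    rw [h2, hsum]
    ring
  rw [h1]
  refine (norm_sum_le _ _).trans ?_
  have h3 : ∀ i ∈ s, ‖((cnt i - B : ℝ) : ℂ) * Ψ i‖ ≤ 2 * T - (cnt i - B) := by
    intro i hi
    rw [norm_mul, Complex.norm_real, Real.norm_eq_abs]
    have h4 := hup i hi
    calc |cnt i - B| * ‖Ψ i‖ ≤ |cnt i - B| * 1 := mul_le_mul_of_nonneg_left (hΨ i) (abs_nonneg _)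
      _ = |cnt i - B| := mul_one _
      _ ≤ 2 * T - (cnt i - B) := by
          rw [abs_le]
          constructor <;> linarith
  refine (Finset.sum_le_sum h3).trans ?_
  rw [Finset.sum_sub_distrib, Finset.sum_sub_distrib, Finset.sum_const, Finset.sum_const,
    nsmul_eq_mul, nsmul_eq_mul]
  linarith

theorem mulchar_norm_le {L : Type} [Field L] [Fintype L] (χ : MulChar L ℂ) (x : L) : ‖χ x‖ ≤ 1 := by
  rcases eq_or_ne x 0 with rfl | hx
  · rw [MulChar.map_zero]; simp
  · have h1 : (χ x) ^ (Fintype.card L - 1) = 1 := by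
      rw [← map_pow, FiniteField.pow_card_sub_one_eq_one x hx, map_one]
    have h2 : Fintype.card L - 1 ≠ 0 := by
      have : 1 < Fintype.card L := Fintype.one_lt_card
      omega
    exact (Complex.norm_eq_one_of_pow_eq_one h1 h2).le

section points

variable {F : Type} [Field F] [Fintype F] [Algebra (ZMod 2) F]
  {L : Type} [Field L] [Fintype L] [Algebra F L]
  {K : Type} [Field K] [Fintype K] [Algebra F K] [Algebra L K] [IsScalarTower F L K]
  [Algebra (ZMod 2) K] [IsScalarTower (ZMod 2) F K]

/-- the norm-type value at a point -/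
noncomputable def nv (η : L) (x : K) : L :=
  (aeval η (minpoly F x)) ^ (Module.finrank F K / (minpoly F x).natDegree)

theorem hyb_point (η : L) (χ : MulChar L ℂ) (e : ℕ) (x : K) :
    hyb η χ e (minpoly F x) ^ (Module.finrank F K / (minpoly F x).natDegree)
      = χ (nv (F := F) η x) * sg (Algebra.trace (ZMod 2) K x) ^ e := by
  have hx : IsIntegral F x := Algebra.IsIntegral.isIntegral x
  have hchar : CharP F 2 := charP_of_injective_algebraMap (algebraMap (ZMod 2) F).injective 2
  set d := (minpoly F x).natDegree with hd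
  have hdpos : 0 < d := minpoly.natDegree_pos hx
  have hk : Module.finrank (IntermediateField.adjoin F {x}) K = Module.finrank F K / d := by
    have h1 := Module.finrank_mul_finrank F (IntermediateField.adjoin F {x}) K
    rw [IntermediateField.adjoin.finrank hx, ← hd] at h1
    rw [← h1, Nat.mul_div_cancel_left _ hdpos]
  have htr : Algebra.trace (ZMod 2) K x
      = ((Module.finrank F K / d : ℕ) : ZMod 2) * Algebra.trace (ZMod 2) F (minpoly F x).nextCoeff := by
    rw [← Algebra.trace_trace (S := F) (R := ZMod 2), trace_eq_finrank_mul_minpoly_nextCoeff F x, hk,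
      CharTwo.neg_eq]
    rw [← nsmul_eq_mul, map_nsmul, nsmul_eq_mul]
  rw [hyb, mul_pow, nv, map_pow, htr, sg_nsmul, ← pow_mul, ← pow_mul]
  congr 2
  ring

theorem algebraMap_nv (η : L) (x : K) [CharP F 2] [CharP K 2] :
    algebraMap L K (nv (F := F) η x) = (mkData F (algebraMap L K η)).c.eval x := by
  have h1 : algebraMap L K (aeval η (minpoly F x)) = aeval (algebraMap L K η) (minpoly F x) := by
    rw [aeval_algebraMap_apply]
  rw [nv, map_pow, h1, minpoly_eval x (algebraMap L K η) (minpoly.degree_dvd (Algebra.IsIntegral.isIntegral x)),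
    SData.c, eval_prod]
  refine Finset.prod_congr rfl fun i _ => ?_
  show _ = eval x (X ^ (Fintype.card F) ^ i + C (algebraMap L K η))
  rw [eval_add, eval_pow, eval_X, eval_C, CharTwo.sub_eq_add, add_comm]

theorem tau_eval (η : L) (x : K) [CharP F 2] [CharP K 2] :
    algebraMap (ZMod 2) K (Algebra.trace (ZMod 2) K x)
      = (tauP K (mkData F (algebraMap L K η)).N).eval x := by
  have hN : (mkData F (algebraMap L K η)).N = Module.finrank (ZMod 2) K := by
    have h1 := (mkData F (algebraMap L K η)).hN
    have h2 : Fintype.card K = 2 ^ Module.finrank (ZMod 2) K := by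
      rw [Module.card_eq_pow_finrank (K := ZMod 2) (V := K), ZMod.card]
    rw [h2] at h1
    exact (Nat.pow_right_injective (le_refl 2) h1).symm
  rw [hN, FiniteField.algebraMap_trace_eq_sum_pow, tauP, eval_finsetSum]
  refine Finset.sum_congr rfl fun i _ => ?_
  rw [eval_pow, eval_X, Nat.card_eq_fintype_card, ZMod.card]

/-- the number of points of a class -/
noncomputable def cnt (F : Type) [Field F] [Fintype F] [Algebra F L] [Algebra F K]
    (η : L) (p : L × ZMod 2) : ℕ :=
  (Finset.univ.filter (fun x : K => (nv (F := F) η x, Algebra.trace (ZMod 2) K x) = p)).card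

theorem spow_classes (η : L) (χ : MulChar L ℂ) (e : ℕ) {n : ℕ} (hn : Module.finrank F K = n) :
    Spow (hyb (F := F) η χ e) n
      = ∑ p : L × ZMod 2, (cnt (K := K) F η p : ℂ) * (χ p.1 * sg p.2 ^ e) := by
  rw [spow_eq (K := K) _ hn]
  subst hn
  simp_rw [hyb_point]
  rw [← Finset.sum_fiberwise (s := Finset.univ)
    (g := fun x : K => (nv (F := F) η x, Algebra.trace (ZMod 2) K x))]
  refine Finset.sum_congr rfl fun p _ => ?_
  rw [Finset.sum_congr rfl (g := fun _ => χ p.1 * sg p.2 ^ e)]
  · rw [Finset.sum_const, nsmul_eq_mul, cnt]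
  · intro x hx
    rw [Finset.mem_filter] at hx
    rw [← hx.2]

theorem mkData_t (η : L) [CharP F 2] [CharP K 2] :
    (mkData F (algebraMap L K η)).t = (minpoly F η).natDegree := by
  show (minpoly F (algebraMap L K η)).natDegree = _
  rw [minpoly.algebraMap_eq (algebraMap L K).injective]

theorem mkData_E {η : L} (hη : (minpoly F η).natDegree = Module.finrank F L) [CharP F 2] [CharP K 2] :
    (mkData F (algebraMap L K η)).E = Fintype.card L - 1 := by
  show Fintype.card F ^ (minpoly F (algebraMap L K η)).natDegree - 1 = _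
  rw [minpoly.algebraMap_eq (algebraMap L K).injective, hη, ← Module.card_eq_pow_finrank]

/-- the bound for the classes -/
theorem cnt_le {η : L} (hη : (minpoly F η).natDegree = Module.finrank F L) {Z : ℕ}
    (hZ : Fintype.card K = Z ^ 2) (p : L × ZMod 2) (hp : p.1 ≠ 0) :
    2 * (Fintype.card L - 1) * cnt (K := K) F η p
      ≤ Z ^ 2 + 2 * (Fintype.card L - 1)
        * (2 * (Module.finrank F L + 3) * ((Fintype.card L - 1) + 1)) * Z := by
  have hchF : CharP F 2 := charP_of_injective_algebraMap (algebraMap (ZMod 2) F).injective 2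
  have hchK : CharP K 2 := charP_of_injective_algebraMap (algebraMap (ZMod 2) K).injective 2
  have h1 : cnt (K := K) F η p
      = (Finset.univ.filter (fun x : K => (mkData F (algebraMap L K η)).c.eval x = algebraMap L K p.1
        ∧ (tauP K (mkData F (algebraMap L K η)).N).eval x = algebraMap (ZMod 2) K p.2)).card := by
    rw [cnt]
    congr 1
    refine Finset.filter_congr fun x _ => ?_
    rw [← algebraMap_nv, ← tau_eval, Prod.ext_iff]
    simp only
    rw [(algebraMap L K).injective.eq_iff, (algebraMap (ZMod 2) K).injective.eq_iff]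
  have h2 := (mkData F (algebraMap L K η)).bound (algebraMap L K p.1) (algebraMap (ZMod 2) K p.2)
    ((_root_.map_ne_zero _).mpr hp) Z hZ
  rw [← h1, mkData_E hη, mkData_t, hη] at h2
  exact h2

/-- the exceptional points -/
theorem card_zero {η : L} (hη : (minpoly F η).natDegree = Module.finrank F L) :
    (Finset.univ.filter (fun x : K => nv (F := F) η x = 0)).card ≤ Module.finrank F L := by
  have hint : IsIntegral F η := Algebra.IsIntegral.isIntegral η
  have hd : Module.finrank F L ∣ Module.finrank F K := by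
    rw [← Module.finrank_mul_finrank F L K]
    exact dvd_mul_right _ _
  have h1 := card_fiber (K := K) hd (p := minpoly F η) (by
    have := minpoly_mem (F := F) η
    rwa [hη] at this)
  rw [← h1]
  refine Finset.card_le_card fun x hx => ?_
  rw [Finset.mem_filter] at hx ⊢
  refine ⟨Finset.mem_univ _, ?_⟩
  have hx' : IsIntegral F x := Algebra.IsIntegral.isIntegral x
  have h2 : aeval η (minpoly F x) = 0 := by
    by_contra hne
    exact pow_ne_zero _ hne hx.2
  exact (minpoly.eq_of_irreducible_of_monic (minpoly.irreducible hx') h2 (minpoly.monic hx'))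

/-- **The bound for the sums over the points.** -/
theorem spow_bound {η : L} (hη : (minpoly F η).natDegree = Module.finrank F L) (χ : MulChar L ℂ)
    (e : ℕ) (hnt : χ ≠ 1 ∨ Odd e) {n Z : ℕ} (hn : Module.finrank F K = n)
    (hZ : Fintype.card K = Z ^ 2) :
    ‖Spow (hyb (F := F) η χ e) n‖
      ≤ 2 * (2 * ((Fintype.card L - 1 : ℕ) : ℝ))
        * ((2 * (Module.finrank F L + 3) * ((Fintype.card L - 1) + 1) : ℕ) * Z)
        + Module.finrank F L := by
  set E := Fintype.card L - 1 with hE
  set C1 := 2 * (Module.finrank F L + 3) * (E + 1) with hC1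
  have hE1 : 1 ≤ E := by
    have : 1 < Fintype.card L := Fintype.one_lt_card
    omega
  have hER : (0 : ℝ) < 2 * E := by positivity
  set s : Finset (L × ZMod 2) := Finset.univ.filter (fun p => p.1 ≠ 0) with hs
  have hcard : s.card = 2 * E := by
    have h1 : s = (Finset.univ.filter (fun x : L => x ≠ 0)) ×ˢ (Finset.univ : Finset (ZMod 2)) := by
      ext p
      simp [hs]
    rw [h1, Finset.card_product, Finset.card_univ, ZMod.card, Finset.filter_ne' Finset.univ (0 : L),
      Finset.card_erase_of_mem (Finset.mem_univ _), Finset.card_univ, ← hE]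
    ring
  have hsplit : Spow (hyb (F := F) η χ e) n
      = ∑ p ∈ s, (((cnt (K := K) F η p : ℝ)) : ℂ) * (χ p.1 * sg p.2 ^ e) := by
    rw [spow_classes (K := K) η χ e hn, hs, Finset.sum_filter]
    refine Finset.sum_congr rfl fun p _ => ?_
    split_ifs with h1
    · push_cast; rfl
    · rw [not_not.mp h1, MulChar.map_zero]
      ring
  rw [hsplit]
  have hsum : ∑ p ∈ s, χ p.1 * sg p.2 ^ e = 0 := by
    have h1 : ∑ p ∈ s, χ p.1 * sg p.2 ^ e = ∑ p : L × ZMod 2, χ p.1 * sg p.2 ^ e := by
      rw [hs, Finset.sum_filter]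
      refine Finset.sum_congr rfl fun p _ => ?_
      split_ifs with h1
      · rfl
      · rw [not_not.mp h1, MulChar.map_zero]
        ring
    rw [h1, Fintype.sum_prod_type]
    simp_rw [← Finset.mul_sum]
    rw [← Finset.sum_mul]
    rcases hnt with h | h
    · rw [MulChar.sum_eq_zero_of_ne_one h, zero_mul]
    · rw [sum_sg_odd h, mul_zero]
  have hup : ∀ p ∈ s, (cnt (K := K) F η p : ℝ) ≤ (Z : ℝ) ^ 2 / (2 * E) + (C1 * Z : ℝ) := by
    intro p hp
    rw [hs, Finset.mem_filter] at hp
    have h1 := cnt_le (K := K) hη hZ p hp.2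
    rw [← hE, ← hC1] at h1
    have h2 : (2 * (E : ℝ)) * (cnt (K := K) F η p : ℝ) ≤ (Z : ℝ) ^ 2 + 2 * E * C1 * Z := by
      exact_mod_cast h1
    rw [div_add' _ _ _ hER.ne', le_div_iff₀ hER]
    linarith
  have hlow : (s.card : ℝ) * ((Z : ℝ) ^ 2 / (2 * E)) - Module.finrank F L
      ≤ ∑ p ∈ s, (cnt (K := K) F η p : ℝ) := by
    have h1 : ∑ p ∈ s, cnt (K := K) F η p + (Finset.univ.filter (fun x : K => nv (F := F) η x = 0)).card
        = Z ^ 2 := by
      have h2 : ∑ p ∈ s, cnt (K := K) F η p
          = (Finset.univ.filter (fun x : K => ¬ nv (F := F) η x = 0)).card := by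
        rw [Finset.card_eq_sum_card_fiberwise (t := s)
          (f := fun x : K => (nv (F := F) η x, Algebra.trace (ZMod 2) K x))]
        · refine Finset.sum_congr rfl fun p hp => ?_
          rw [cnt, Finset.filter_filter]
          congr 1
          refine Finset.filter_congr fun x _ => ?_
          rw [hs, Finset.mem_filter] at hp
          constructor
          · intro h3
            refine ⟨?_, h3⟩
            rw [← h3] at hp
            exact hp.2
          · intro h3
            exact h3.2
        · intro x hx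
          simp only [Finset.coe_filter, Finset.mem_univ, true_and, Set.mem_setOf_eq] at hx
          rw [hs]
          simpa using hx
      rw [h2, ← hZ, add_comm, Finset.card_filter_add_card_filter_not, Finset.card_univ]
    have h3 := card_zero (K := K) hη
    have h4 : (∑ p ∈ s, (cnt (K := K) F η p : ℝ)) + Module.finrank F L ≥ (Z : ℝ) ^ 2 := by
      have h5 : Z ^ 2 ≤ ∑ p ∈ s, cnt (K := K) F η p + Module.finrank F L := by omega
      exact_mod_cast h5
    rw [hcard]
    push_cast
    rw [mul_div_cancel₀ _ hER.ne']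
    linarith
  have hmain := char_sum_bound s (fun p => (cnt (K := K) F η p : ℝ)) (fun p => χ p.1 * sg p.2 ^ e)
    (by
      intro p
      rw [norm_mul, norm_pow, sg_norm, one_pow, mul_one]
      exact mulchar_norm_le χ p.1) hsum ((Z : ℝ) ^ 2 / (2 * E)) (C1 * Z : ℝ) (Module.finrank F L)
      (by positivity) hup hlow
  rw [hcard] at hmain
  refine hmain.trans (le_of_eq ?_)
  push_cast
  ring

end points

/-- **Weil's bound.** -/
theorem weil {F : Type} [Field F] [Fintype F] [Algebra (ZMod 2) F]
    {L : Type} [Field L] [Fintype L] [Algebra F L] {η : L}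
    (hη : (minpoly F η).natDegree = Module.finrank F L) (χ : MulChar L ℂ)
    (e : ℕ) (hnt : χ ≠ 1 ∨ Odd e) (j : ℕ) (hj : j ≤ Module.finrank F L) :
    ‖Acoef (hyb (F := F) η χ e) j‖
      ≤ Real.sqrt (Fintype.card F) ^ j * ((Module.finrank F L).choose j : ℝ) := by
  have hchF : CharP F 2 := charP_of_injective_algebraMap (algebraMap (ZMod 2) F).injective 2
  have hchL : CharP L 2 := charP_of_injective_algebraMap (algebraMap F L).injective 2
  have : Fact (Nat.Prime 2) := ⟨Nat.prime_two⟩
  set t := Module.finrank F L with ht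
  have htpos : 0 < t := Module.finrank_pos
  have hB : 0 < Real.sqrt (Fintype.card F) := Real.sqrt_pos.mpr (by exact_mod_cast Fintype.card_pos)
  set E := Fintype.card L - 1 with hE
  refine coeff_bound t (Acoef (hyb (F := F) η χ e)) ?_ ?_ (Spow (hyb (F := F) η χ e)) ?_ (2 * t)
    (by omega) (Real.sqrt (Fintype.card F)) hB
    (2 * (2 * (E : ℝ)) * (2 * (t + 3) * (E + 1) : ℕ) + t) ?_ j hj
  · -- a_0 = 1
    have h1 : monics F 0 = {1} := by
      ext f
      rw [mem_monics, Finset.mem_singleton]
      constructor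
      · rintro ⟨h2, h3⟩
        exact h2.natDegree_eq_zero.mp h3
      · rintro rfl
        exact ⟨monic_one, natDegree_one⟩
    rw [Acoef, h1, Finset.sum_singleton, hyb_one]
  · intro n hn
    exact Acoef_eq_zero hη χ e hnt hn
  · exact newton (hyb_one η χ e) (hyb_mul η χ e)
  · intro m hm
    have hm0 : NeZero (2 * m) := ⟨by omega⟩
    let K := FiniteField.Extension L 2 (2 * m)
    letI : Fintype K := Fintype.ofFinite K
    letI : Algebra F K := ((algebraMap L K).comp (algebraMap F L)).toAlgebra
    haveI : IsScalarTower F L K := IsScalarTower.of_algebraMap_eq' rfl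
    haveI : IsScalarTower (ZMod 2) F K := IsScalarTower.of_algebraMap_eq' (Subsingleton.elim _ _)
    have hfin : Module.finrank F K = 2 * t * m := by
      rw [← Module.finrank_mul_finrank F L K, FiniteField.finrank_extension L 2 (2 * m), ← ht]
      ring
    have hcard : Fintype.card K = (Fintype.card F ^ (t * m)) ^ 2 := by
      rw [Module.card_eq_pow_finrank (K := F) (V := K), hfin, ← pow_mul]
      congr 1
      ring
    have h1 := spow_bound (K := K) hη χ e hnt hfin hcard
    rw [← hE, ← ht] at h1
    refine h1.trans ?_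
    have h2 : (Real.sqrt (Fintype.card F) ^ (2 * t)) ^ m = ((Fintype.card F ^ (t * m) : ℕ) : ℝ) := by
      rw [pow_mul, Real.sq_sqrt (by positivity), ← pow_mul]
      push_cast
      rfl
    rw [h2]
    set Z : ℕ := Fintype.card F ^ (t * m) with hZ
    have hZ1 : (1 : ℝ) ≤ Z := by
      have : 1 ≤ Z := Nat.one_le_pow _ _ Fintype.card_pos
      exact_mod_cast this
    have h3 : (t : ℝ) ≤ t * Z := by nlinarith [Nat.cast_nonneg (α := ℝ) t]
    push_cast
    push_cast at h3
    nlinarith

end Pool.Agent.PRW
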