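import Mathlib
import Pool.Agent.PRK.Core
import Pool.Agent.PRK.Odd
import Pool.Agent.PRW.Weil
import Pool.Agent.PRW.Clique
import Pool.Agent.PRW.Flat

/-!
# `K_{2t}`-free pseudorandom graphs of density `n ^ (-1/(2t))`
-/

set_option autoImplicit false
set_option linter.unusedSectionVars false
open Polynomial
open Classical

namespace Pool.Agent.PRW

open Pool.Agent.PRK (om om_add_left om_comm om_smul_left om_self om_zero_left)

section

variable {F : Type} [Field F] [Fintype F] [Algebra (ZMod 2) F]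
  {L : Type} [Field L] [Fintype L] [Algebra F L]

/-- the functional: the coefficient of the highest power of the generator -/
theorem exists_lam {η : L} (hη : (minpoly F η).natDegree = Module.finrank F L) {s : ℕ}
    (hs : Module.finrank F L = s + 1) :
    ∃ lam : L →ₗ[F] F, ∀ p : F[X], p.natDegree ≤ s → lam (aeval η p) = p.coeff s := by
  let ev : (Fin (s + 1) → F) →ₗ[F] L :=
    { toFun := fun g => ∑ i : Fin (s + 1), g i • η ^ (i : ℕ)
      map_add' := by
        intro g g'
        rw [← Finset.sum_add_distrib]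
        refine Finset.sum_congr rfl fun i _ => by simp [add_smul]
      map_smul' := by
        intro c g
        rw [RingHom.id_apply, Finset.smul_sum]
        refine Finset.sum_congr rfl fun i _ => by simp [mul_smul] }
  have hsurj : Function.Surjective ev := fun y => eval_surj hη (le_of_eq hs) y
  have hbij : Function.Bijective ev := by
    refine ⟨?_, hsurj⟩
    rw [LinearMap.injective_iff_surjective_of_finrank_eq_finrank]
    · exact hsurj
    · rw [hs]; simp
  set e := LinearEquiv.ofBijective ev hbij with he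
  refine ⟨(LinearMap.proj (Fin.last s)) ∘ₗ e.symm.toLinearMap, ?_⟩
  intro p hp
  have h1 : aeval η p = e (fun i => p.coeff i) := by
    rw [he, LinearEquiv.ofBijective_apply]
    show _ = ∑ i : Fin (s + 1), p.coeff i • η ^ (i : ℕ)
    rw [aeval_eq_sum_range' (Nat.lt_succ_of_le hp), Finset.sum_range]
  rw [LinearMap.comp_apply, LinearEquiv.coe_coe, h1, LinearEquiv.symm_apply_apply,
    LinearMap.proj_apply]
  simp

/-- the polynomials -/
noncomputable def PT (F : Type) [Field F] [Fintype F] [Algebra (ZMod 2) F] (s : ℕ) (b : ZMod 2) :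
    Finset F[X] := (monics F s).filter (fun f => Algebra.trace (ZMod 2) F f.nextCoeff = b)

theorem monics_injOn {s : ℕ} {η : L} (hη : s < (minpoly F η).natDegree) :
    Set.InjOn (aeval η) (monics F s : Set F[X]) := by
  intro f hf g hg h
  have h1 := mem_monics.mp (Finset.mem_coe.mp hf)
  have h2 := mem_monics.mp (Finset.mem_coe.mp hg)
  by_contra hne
  have h3 : f - g ≠ 0 := sub_ne_zero.mpr hne
  have h4 : aeval η (f - g) = 0 := by rw [map_sub, h, sub_self]
  have h5 := minpoly.degree_le_of_ne_zero F η h3 h4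
  have h6 : (f - g).natDegree ≤ s := by
    refine (natDegree_sub_le _ _).trans ?_
    rw [h1.2, h2.2, max_self]
  have h7 : (minpoly F η).natDegree ≤ (f - g).natDegree := natDegree_le_natDegree h5
  omega

/-- `monics` is parametrised by coefficient vectors -/
theorem param_inj (s : ℕ) : Function.Injective (fun a : Fin s → F =>
    (X ^ s + ∑ i : Fin s, C (a i) * X ^ (i : ℕ) : F[X])) := by
  intro a b hab
  simp only at hab
  have h1 := add_left_cancel hab
  funext i
  have h2 := congrArg (fun p : F[X] => p.coeff i) h1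
  simp only [finsetSum_coeff, coeff_C_mul, coeff_X_pow] at h2
  rw [Finset.sum_eq_single i, Finset.sum_eq_single i] at h2
  · simpa using h2
  · intro j _ hj
    rw [if_neg (fun h => hj (Fin.ext h.symm)), mul_zero]
  · intro h
    exact absurd (Finset.mem_univ i) h
  · intro j _ hj
    rw [if_neg (fun h => hj (Fin.ext h.symm)), mul_zero]
  · intro h
    exact absurd (Finset.mem_univ i) h

theorem param_next (s : ℕ) (a : Fin (s + 1) → F) :
    (X ^ (s + 1) + ∑ i : Fin (s + 1), C (a i) * X ^ (i : ℕ) : F[X]).nextCoeff = a (Fin.last s) := by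
  have h1 : (X ^ (s + 1) + ∑ i : Fin (s + 1), C (a i) * X ^ (i : ℕ) : F[X]) ∈ monics F (s + 1) :=
    Finset.mem_image.mpr ⟨a, Finset.mem_univ _, rfl⟩
  have h2 := (mem_monics.mp h1).2
  rw [nextCoeff_of_natDegree_pos (by omega), h2, Nat.add_sub_cancel, coeff_add, coeff_X_pow,
    if_neg (by omega), zero_add, finsetSum_coeff, Finset.sum_eq_single (Fin.last s)]
  · simp
  · intro j _ hj
    rw [coeff_C_mul, coeff_X_pow, if_neg, mul_zero]
    intro h
    exact hj (Fin.ext (by simpa using h.symm))
  · intro h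
    exact absurd (Finset.mem_univ _) h

theorem card_PT (s : ℕ) (b : ZMod 2) :
    (PT F (s + 1) b).card * 2 = Fintype.card F ^ (s + 1) := by
  have h1 : (Finset.univ.filter (fun a : Fin (s + 1) → F =>
      Algebra.trace (ZMod 2) F (a (Fin.last s)) = b)).card * Fintype.card (ZMod 2)
      = Fintype.card (Fin (s + 1) → F) := by
    convert PRK.card_fiber_surj (fun a : Fin (s + 1) → F =>
      Algebra.trace (ZMod 2) F (a (Fin.last s))) (fun x y => by rw [Pi.add_apply, map_add])
      (fun y => by
        obtain ⟨z, hz⟩ := Algebra.trace_surjective (ZMod 2) F y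
        exact ⟨fun _ => z, hz⟩) b
  rw [ZMod.card, Fintype.card_fun, Fintype.card_fin] at h1
  rw [← h1]
  congr 1
  symm
  refine Finset.card_bij (fun a _ => (X ^ (s + 1) + ∑ i : Fin (s + 1), C (a i) * X ^ (i : ℕ) : F[X]))
    ?_ ?_ ?_
  · intro a ha
    rw [Finset.mem_filter] at ha
    rw [PT, Finset.mem_filter, param_next]
    exact ⟨Finset.mem_image.mpr ⟨a, Finset.mem_univ _, rfl⟩, ha.2⟩
  · intro a _ b _ h
    exact param_inj _ h
  · intro f hf
    rw [PT, Finset.mem_filter] at hf
    obtain ⟨a, _, rfl⟩ := Finset.mem_image.mp hf.1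
    rw [param_next] at hf
    exact ⟨a, Finset.mem_filter.mpr ⟨Finset.mem_univ _, hf.2⟩, rfl⟩

/-- the set -/
noncomputable def TT (F : Type) [Field F] [Fintype F] [Algebra (ZMod 2) F] {L : Type} [Field L]
    [Fintype L] [Algebra F L] (η : L) (s : ℕ) (b : ZMod 2) : Finset L := (PT F s b).image (aeval η)

theorem PT_injOn {s : ℕ} {b : ZMod 2} {η : L} (hη : s < (minpoly F η).natDegree) :
    Set.InjOn (aeval η) (PT F s b : Set F[X]) :=
  (monics_injOn hη).mono (by
    intro f hf
    exact (Finset.mem_filter.mp (Finset.mem_coe.mp hf)).1)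

theorem card_TT {s : ℕ} {b : ZMod 2} {η : L} (hη : s + 1 < (minpoly F η).natDegree) :
    (TT F η (s + 1) b).card * 2 = Fintype.card F ^ (s + 1) := by
  rw [TT, Finset.card_image_of_injOn (PT_injOn hη), card_PT]

theorem sg_indicator (u b : ZMod 2) :
    (1 + sg b * sg u : ℂ) = if u = b then 2 else 0 := by
  rcases zmod2_cases u with rfl | rfl <;> rcases zmod2_cases b with rfl | rfl <;>
    simp [sg_zero, sg_one] <;> norm_num

theorem sum_TT {s : ℕ} {b : ZMod 2} {η : L} (hη : s < (minpoly F η).natDegree) (χ : MulChar L ℂ) :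
    2 * ∑ u ∈ TT F η s b, χ u
      = Acoef (hyb (F := F) η χ 0) s + sg b * Acoef (hyb (F := F) η χ 1) s := by
  rw [TT, Finset.sum_image (PT_injOn hη), PT, Finset.sum_filter, Acoef, Acoef, Finset.mul_sum,
    Finset.mul_sum, ← Finset.sum_add_distrib]
  refine Finset.sum_congr rfl fun f _ => ?_
  have h1 := sg_indicator (Algebra.trace (ZMod 2) F f.nextCoeff) b
  rw [hyb, hyb, pow_zero, pow_one, mul_one]
  calc (2 : ℂ) * (if Algebra.trace (ZMod 2) F f.nextCoeff = b then χ (aeval η f) else 0)
      = χ (aeval η f) * (if Algebra.trace (ZMod 2) F f.nextCoeff = b then 2 else 0) := by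
        split_ifs <;> ring
    _ = _ := by rw [← h1]; ring

/-- the character sums of the set -/
theorem sum_TT_le {s : ℕ} {b : ZMod 2} {η : L} (hη : (minpoly F η).natDegree = Module.finrank F L)
    (hs : Module.finrank F L = s + 1) (χ : MulChar L ℂ) (hχ : χ ≠ 1) :
    ‖∑ u ∈ TT F η s b, χ u‖ ^ 2 ≤ (s + 1 : ℝ) ^ 2 * (Fintype.card F : ℝ) ^ s := by
  have h1 := sum_TT (F := F) (b := b) (η := η) (s := s) (by omega) χ
  have h2 := weil hη χ 0 (Or.inl hχ) s (by omega)
  have h3 := weil hη χ 1 (Or.inl hχ) s (by omega)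
  have hch : ((Module.finrank F L).choose s : ℝ) = s + 1 := by
    rw [hs, Nat.choose_succ_self_right]
    push_cast
    ring
  rw [hch] at h2 h3
  have h4 : ‖∑ u ∈ TT F η s b, χ u‖ ≤ Real.sqrt (Fintype.card F) ^ s * (s + 1) := by
    have h5 : ‖(2 : ℂ) * ∑ u ∈ TT F η s b, χ u‖
        ≤ 2 * (Real.sqrt (Fintype.card F) ^ s * (s + 1)) := by
      rw [h1]
      refine (norm_add_le _ _).trans ?_
      rw [norm_mul, sg_norm, one_mul]
      linarith
    rw [norm_mul] at h5
    have h6 : ‖(2 : ℂ)‖ = 2 := by simp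
    rw [h6] at h5
    linarith
  have h7 : (Real.sqrt (Fintype.card F) ^ s) ^ 2 = (Fintype.card F : ℝ) ^ s := by
    rw [← pow_mul, mul_comm, pow_mul, Real.sq_sqrt (by positivity)]
  calc ‖∑ u ∈ TT F η s b, χ u‖ ^ 2 ≤ (Real.sqrt (Fintype.card F) ^ s * (s + 1)) ^ 2 :=
        pow_le_pow_left₀ (norm_nonneg _) h4 2
    _ = (s + 1 : ℝ) ^ 2 * (Fintype.card F : ℝ) ^ s := by
        rw [mul_pow, h7]; ring

/-- the values of the functional on the set -/
theorem lam_TT {s : ℕ} {b : ZMod 2} {η : L} {lam : L →ₗ[F] F}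
    (hlam : ∀ p : F[X], p.natDegree ≤ s + 1 → lam (aeval η p) = p.coeff (s + 1))
    (hb : b = Algebra.trace (ZMod 2) F (lam (η ^ (s + 2)))) {x : L} (hx : x ∈ TT F η (s + 1) b) :
    lam x = 1 ∧ Algebra.trace (ZMod 2) F (lam (η * x)) = 0 := by
  obtain ⟨f, hf, rfl⟩ := Finset.mem_image.mp hx
  rw [PT, Finset.mem_filter] at hf
  obtain ⟨hf1, hf2⟩ := hf
  rw [mem_monics] at hf1
  obtain ⟨hmon, hdeg⟩ := hf1
  constructor
  · rw [hlam f hdeg.le, ← hdeg]
    exact hmon
  · have h1 : η * aeval η f = η ^ (s + 2) + aeval η (X * f - X ^ (s + 2)) := by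
      rw [map_sub, map_mul, aeval_X, map_pow, aeval_X]
      ring
    have h2 : (X * f - X ^ (s + 2) : F[X]).natDegree ≤ s + 1 := by
      rw [natDegree_le_iff_coeff_eq_zero]
      intro n hn
      rw [coeff_sub, coeff_X_pow]
      obtain ⟨m, rfl⟩ : ∃ m, n = m + 1 := ⟨n - 1, by omega⟩
      rw [coeff_X_mul]
      by_cases h3 : m = s + 1
      · rw [if_pos (by omega), h3, ← hdeg]
        have : f.coeff f.natDegree = 1 := hmon
        rw [this, sub_self]
      · rw [if_neg (by omega), sub_zero]
        exact coeff_eq_zero_of_natDegree_lt (by omega)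
    have h3 : (X * f - X ^ (s + 2) : F[X]).coeff (s + 1) = f.nextCoeff := by
      rw [coeff_sub, coeff_X_mul, coeff_X_pow, if_neg (by omega), sub_zero,
        nextCoeff_of_natDegree_pos (by omega), hdeg, Nat.add_sub_cancel]
    rw [h1, map_add, hlam _ h2, h3, map_add, hf2, ← hb]
    exact CharTwo.add_self_eq_zero _

end

end Pool.Agent.PRW
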