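import Mathlib

/-!
# A generator of absolute trace one
-/

set_option autoImplicit false
open Classical

namespace Pool.Agent.PRW

theorem exists_gen (F L : Type) [Field F] [Fintype F] [Algebra (ZMod 2) F] [Field L] [Fintype L]
    [Algebra F L] [Algebra (ZMod 2) L] [IsScalarTower (ZMod 2) F L] :
    ∃ η : L, (minpoly F η).natDegree = Module.finrank F L ∧ Algebra.trace (ZMod 2) L η = 1 := by
  have hgal : IsGalois F L := inferInstance
  set b := IsGalois.normalBasis F L with hb
  set η0 : L := b 1 with hη0
  have hap : ∀ σ, b σ = σ η0 := fun σ => IsGalois.normalBasis_apply σ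
  -- the trace
  have htr : Algebra.trace F L η0 ≠ 0 := by
    intro h
    have h1 := trace_eq_sum_automorphisms (K := F) η0
    rw [h, map_zero] at h1
    have h2 : ∑ σ : Gal(L/F), (1 : F) • b σ = 0 := by
      rw [h1]
      refine Finset.sum_congr rfl fun σ _ => ?_
      rw [one_smul, hap]
    have h3 := Fintype.linearIndependent_iff.mp b.linearIndependent (fun _ => 1) h2 1
    exact one_ne_zero h3
  obtain ⟨a, ha⟩ := Algebra.trace_surjective (ZMod 2) F 1
  have ha0 : a ≠ 0 := by
    rintro rfl
    rw [map_zero] at ha
    exact zero_ne_one ha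
  set c : F := a / Algebra.trace F L η0 with hc
  have hc0 : c ≠ 0 := div_ne_zero ha0 htr
  refine ⟨c • η0, ?_, ?_⟩
  · rw [← Field.primitive_element_iff_minpoly_natDegree_eq, ← IsGalois.fixedField_fixingSubgroup
      (IntermediateField.adjoin F {c • η0})]
    have h1 : (IntermediateField.adjoin F {c • η0}).fixingSubgroup = ⊥ := by
      rw [eq_bot_iff]
      intro σ hσ
      rw [IntermediateField.mem_fixingSubgroup_iff] at hσ
      have h2 := hσ (c • η0) (IntermediateField.mem_adjoin_simple_self F _)
      rw [map_smul] at h2
      have h3 : σ η0 = η0 := by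
        have h4 := congrArg (fun z => c⁻¹ • z) h2
        simpa [smul_smul, inv_mul_cancel₀ hc0] using h4
      rw [← hap] at h3
      have h5 : σ = 1 := b.injective h3
      rw [h5]
      exact Subgroup.one_mem _
    rw [h1, IntermediateField.fixedField_bot]
  · rw [← Algebra.trace_trace (S := F), map_smul, smul_eq_mul, hc, div_mul_cancel₀ _ htr, ha]

end Pool.Agent.PRW
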