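import Mathlib
import Pool.Agent.PRW.Even
import Pool.Agent.PRW.Gen

/-!
# `K_{2t}`-free pseudorandom graphs of density `n ^ (-1/(2t))`
-/

set_option autoImplicit false
set_option linter.unusedSectionVars false
open Polynomial
open Classical

namespace Pool.Agent.PRW

open Pool.Agent.PRK (om om_add_left om_comm om_smul_left om_self om_zero_left quad_bound transport)

section

variable {L : Type} [Field L] [Fintype L] [Algebra (ZMod 2) L]

theorem sum_nonzero (g : L × L → ℝ) (h0 : g 0 = 0) :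
    ∑ w : {v : L × L // v ≠ 0}, g w = ∑ x, g x := by
  rw [← Finset.add_sum_erase _ _ (Finset.mem_univ (0 : L × L)), h0, zero_add]
  exact (Finset.sum_subtype (Finset.univ.erase (0 : L × L)) (by simp) g).symm

/-- The graph on the nonzero vectors of `L × L`. -/
def GE [CharP L 2] (T : Finset L) (h0 : (0 : L) ∉ T) : SimpleGraph {v : L × L // v ≠ 0} where
  Adj v w := om v.1 w.1 ∈ T
  symm := ⟨fun v w h => by rw [om_comm]; exact h⟩
  loopless := ⟨fun v h => by rw [om_self] at h; exact h0 h⟩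

theorem GE_adj [CharP L 2] (T : Finset L) (h0 : (0 : L) ∉ T) (v w : {v : L × L // v ≠ 0}) :
    (GE T h0).Adj v w ↔ om v.1 w.1 ∈ T := Iff.rfl

theorem GE_degree [CharP L 2] (T : Finset L) (h0 : (0 : L) ∉ T) (v : {v : L × L // v ≠ 0}) :
    (Finset.univ.filter (fun w => (GE T h0).Adj v w)).card = Fintype.card L * T.card := by
  have h1 := sum_single v.2 (ind T)
  have h2 : ∑ u : L, ind T u = T.card := by simp [ind]
  have h3 : ∑ z : L × L, ind T (om z v.1)
      = ((Finset.univ.filter (fun w => (GE T h0).Adj v w)).card : ℝ) := by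
    rw [Finset.card_filter]
    push_cast
    rw [← sum_nonzero (fun z => ind T (om z v.1)) (by
      rw [om_zero_left, ind, if_neg h0])]
    refine Finset.sum_congr rfl fun w _ => ?_
    rw [ind, om_comm]
    refine if_congr (GE_adj T h0 v w).symm rfl rfl
  rw [h2, h3] at h1
  exact_mod_cast h1

theorem GE_flat [CharP L 2] (T : Finset L) (h0 : (0 : L) ∉ T) (M : ℝ) (hM0 : 0 ≤ M)
    (hM : ∀ χ : MulChar L ℂ, χ ≠ 1 → ‖∑ u ∈ T, χ u‖ ^ 2 ≤ M)
    (f : {v : L × L // v ≠ 0} → ℝ) (hf : ∑ x, f x = 0) :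
    ∑ z, (∑ y, if (GE T h0).Adj z y then f y else 0) ^ 2
      ≤ (Fintype.card L * M + (T.card : ℝ) ^ 2) * ∑ x, f x ^ 2 := by
  set f' : L × L → ℝ := fun v => if h : v ≠ 0 then f ⟨v, h⟩ else 0 with hf'
  have hf0 : f' 0 = 0 := by rw [hf']; simp
  have hval : ∀ v : {v : L × L // v ≠ 0}, f' v.1 = f v := by
    intro v
    rw [hf']
    simp only
    rw [dif_pos v.2]
  have h1 : ∑ x, f' x = 0 := by
    rw [← sum_nonzero f' hf0, ← hf]
    exact Finset.sum_congr rfl fun v _ => hval v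
  have h2 : ∑ x, f' x ^ 2 = ∑ x, f x ^ 2 := by
    rw [← sum_nonzero (fun x => f' x ^ 2) (by rw [hf0]; ring)]
    refine Finset.sum_congr rfl fun v _ => ?_
    rw [hval]
  have h3 := flat T h0 M hM0 hM f' hf0 h1
  rw [h2] at h3
  refine le_trans (le_of_eq ?_) h3
  rw [← sum_nonzero (fun z => (∑ y : L × L, if om z y ∈ T then f' y else 0) ^ 2) (by
    rw [Finset.sum_eq_zero]
    · ring
    · intro y _
      rw [om_zero_left, if_neg h0])]
  refine Finset.sum_congr rfl fun z _ => ?_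
  congr 1
  rw [← sum_nonzero (fun y => if om z.1 y ∈ T then f' y else 0) (by rw [hf0]; simp)]
  refine Finset.sum_congr rfl fun y _ => ?_
  rw [hval]
  exact if_congr (GE_adj T h0 z y) rfl rfl

end

/-- **The graphs for even `k = 2 t`, `t = s + 2`.** -/
theorem exists_even_aux {F : Type} [Field F] [Fintype F] [Algebra (ZMod 2) F]
    {L : Type} [Field L] [Fintype L] [Algebra F L] [Algebra (ZMod 2) L] [IsScalarTower (ZMod 2) F L]
    (s q : ℕ) (hs : Module.finrank F L = s + 2) (hq : Fintype.card F = 2 * q) :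
    ∃ H : SimpleGraph (Fin ((2 * q) ^ (2 * (s + 2)) - 1)),
      H.IsRegularOfDegree (q * (2 * q) ^ (2 * s + 2)) ∧ H.CliqueFree (2 * (s + 2)) ∧
      ∀ x : Fin ((2 * q) ^ (2 * (s + 2)) - 1) → ℝ, (∑ i, x i) = 0 →
        |∑ i, ∑ j, (if H.Adj i j then x i * x j else 0)|
          ≤ (2 * (s + 2) * Real.sqrt ((q * (2 * q) ^ (2 * s + 2) : ℕ) : ℝ)) * ∑ i, x i ^ 2 := by
  have hchF : CharP F 2 := charP_of_injective_algebraMap (algebraMap (ZMod 2) F).injective 2
  have hchL : CharP L 2 := charP_of_injective_algebraMap (algebraMap F L).injective 2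
  obtain ⟨η, hη, htr⟩ := exists_gen F L
  obtain ⟨lam, hlam⟩ := exists_lam hη (s := s + 1) (by omega)
  set b := Algebra.trace (ZMod 2) F (lam (η ^ (s + 2))) with hb
  set T := TT F η (s + 1) b with hT
  have hval : ∀ x ∈ T, lam x = 1 ∧ Algebra.trace (ZMod 2) F (lam (η * x)) = 0 :=
    fun x hx => lam_TT hlam hb hx
  have h0 : (0 : L) ∉ T := by
    intro h
    have h1 := (hval 0 h).1
    rw [map_zero] at h1
    exact zero_ne_one h1
  have hcardL : Fintype.card L = (2 * q) ^ (s + 2) := by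
    rw [Module.card_eq_pow_finrank (K := F) (V := L), hs, hq]
  have hcardT : T.card = q * (2 * q) ^ s := by
    have h1 := card_TT (F := F) (s := s) (b := b) (η := η) (by omega)
    rw [← hT, hq, pow_succ] at h1
    have h2 : T.card * 2 = (q * (2 * q) ^ s) * 2 := by rw [h1]; ring
    omega
  have hd : Fintype.card L * T.card = q * (2 * q) ^ (2 * s + 2) := by
    rw [hcardL, hcardT]
    ring
  have hqpos : 0 < q := by
    have : 0 < Fintype.card F := Fintype.card_pos
    omega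
  refine transport (GE T h0) _ _ _ _ ?_ ?_ ?_ ?_
  · have h1 : Fintype.card {v : L × L // v ≠ 0} = Fintype.card (L × L) - 1 := by
      rw [Fintype.card_subtype_compl]
      simp
    rw [h1, Fintype.card_prod, hcardL, ← pow_add]
    congr 2
    ring
  · intro v
    rw [GE_degree, hd]
  · rw [SimpleGraph.cliqueFree_iff]
    refine ⟨fun φ => ?_⟩
    have hadj : ∀ i j : Fin (2 * (s + 2)), i ≠ j → om (φ i).1 (φ j).1 ∈ T := by
      intro i j hij
      exact φ.toHom.map_adj (show (SimpleGraph.completeGraph (Fin (2 * (s + 2)))).Adj i j from hij)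
    exact no_clique (F := F) lam η htr (m := 2 * (s + 2)) (by rw [hs]) (fun i => (φ i).1)
      (fun i j hij => (hval _ (hadj i j hij)).1) (fun i j hij => (hval _ (hadj i j hij)).2)
  · intro f hf
    set M : ℝ := (s + 2 : ℝ) ^ 2 * (2 * q : ℝ) ^ (s + 1) with hM
    have hM0 : 0 ≤ M := by positivity
    have hMb : ∀ χ : MulChar L ℂ, χ ≠ 1 → ‖∑ u ∈ T, χ u‖ ^ 2 ≤ M := by
      intro χ hχ
      have h1 := sum_TT_le (F := F) (s := s + 1) (b := b) hη (by omega) χ hχ
      rw [← hT, hq] at h1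
      refine h1.trans (le_of_eq ?_)
      rw [hM]
      push_cast
      ring
    have h1 := GE_flat T h0 M hM0 hMb f hf
    have hK : (Fintype.card L * M + (T.card : ℝ) ^ 2)
        ≤ (2 * (s + 2)) ^ 2 * ((q * (2 * q) ^ (2 * s + 2) : ℕ) : ℝ) := by
      rw [hcardL, hcardT, hM]
      push_cast
      have hqR : (0 : ℝ) < q := by exact_mod_cast hqpos
      have e1 : ((2 * q : ℝ)) ^ (s + 2) * ((s + 2 : ℝ) ^ 2 * (2 * q : ℝ) ^ (s + 1))
          = 2 * (s + 2 : ℝ) ^ 2 * (q * (2 * q : ℝ) ^ (2 * s + 2)) := by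
        rw [show 2 * s + 2 = (s + 2) + s by ring, pow_add _ (s + 2) s, pow_succ _ s]
        ring
      have e2 : ((q : ℝ) * (2 * q : ℝ) ^ s) ^ 2 ≤ q * (2 * q : ℝ) ^ (2 * s + 2) := by
        have e3 : ((q : ℝ) * (2 * q : ℝ) ^ s) ^ 2 * (4 * q) = q * (2 * q : ℝ) ^ (2 * s + 2) := by
          rw [show 2 * s + 2 = 2 * (s + 1) by ring, pow_mul (2 * (q : ℝ)) 2 (s + 1), mul_pow, ← pow_mul,
            mul_comm s 2, pow_mul]
          ring
        have e4 : (1 : ℝ) ≤ 4 * q := by
          have : (1 : ℝ) ≤ q := by exact_mod_cast hqpos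
          linarith
        rw [← e3]
        exact le_mul_of_one_le_right (sq_nonneg _) e4
      rw [e1]
      have hD0 : (0 : ℝ) < q * (2 * q : ℝ) ^ (2 * s + 2) := by positivity
      have hs1 : (1 : ℝ) ≤ (s + 2 : ℝ) ^ 2 := by
        have : (0 : ℝ) ≤ s := Nat.cast_nonneg s
        nlinarith
      nlinarith
    have h2 : ∑ z, (∑ y, if (GE T h0).Adj z y then f y else 0) ^ 2
        ≤ ((2 * (s + 2)) ^ 2 * ((q * (2 * q) ^ (2 * s + 2) : ℕ) : ℝ)) * ∑ x, f x ^ 2 :=
      h1.trans (mul_le_mul_of_nonneg_right hK (Finset.sum_nonneg fun _ _ => sq_nonneg _))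
    have h3 := quad_bound (GE T h0).Adj f _ (by positivity) h2
    rw [Real.sqrt_mul (by positivity), Real.sqrt_sq (by positivity)] at h3
    exact h3

/-- **The graphs for even `k = 2 t`, `t = s + 2`.** -/
theorem exists_even (s m : ℕ) :
    ∃ H : SimpleGraph (Fin ((2 * 2 ^ m) ^ (2 * (s + 2)) - 1)),
      H.IsRegularOfDegree (2 ^ m * (2 * 2 ^ m) ^ (2 * s + 2)) ∧ H.CliqueFree (2 * (s + 2)) ∧
      ∀ x : Fin ((2 * 2 ^ m) ^ (2 * (s + 2)) - 1) → ℝ, (∑ i, x i) = 0 →
        |∑ i, ∑ j, (if H.Adj i j then x i * x j else 0)|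
          ≤ (2 * (s + 2) * Real.sqrt ((2 ^ m * (2 * 2 ^ m) ^ (2 * s + 2) : ℕ) : ℝ))
            * ∑ i, x i ^ 2 := by
  have : Fact (Nat.Prime 2) := ⟨Nat.prime_two⟩
  let F := GaloisField 2 (m + 1)
  let _ : Fintype F := Fintype.ofFinite _
  have hcard : Fintype.card F = 2 * 2 ^ m := by
    rw [← Nat.card_eq_fintype_card, GaloisField.card 2 _ (Nat.succ_ne_zero m), pow_succ, mul_comm]
  have hn : NeZero (s + 2) := ⟨by omega⟩
  let L := FiniteField.Extension F 2 (s + 2)
  let _ : Fintype L := Fintype.ofFinite L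
  have hfin : Module.finrank F L = s + 2 := FiniteField.finrank_extension F 2 (s + 2)
  have : IsScalarTower (ZMod 2) F L := IsScalarTower.of_algebraMap_eq' (Subsingleton.elim _ _)
  exact exists_even_aux (F := F) (L := L) s (2 ^ m) hfin hcard

end Pool.Agent.PRW
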