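import Mathlib
import Pool.Agent.PRW.Final

/-!
# The statements for even and odd `k`
-/

set_option autoImplicit false
open Classical

namespace Pool.Agent.PRW

/-- even `k ≥ 4` -/
theorem even_case (s N : ℕ) :
    ∃ n : ℕ, N ≤ n ∧
      ∃ G : SimpleGraph (Fin n), ∃ d : ℕ,
        G.IsRegularOfDegree d ∧
        G.CliqueFree (2 * (s + 2)) ∧
        (1 / 2 : ℝ) * (n : ℝ) ^ ((1 : ℝ) - 1 / ((2 * (s + 2) : ℕ) : ℝ)) ≤ (d : ℝ) ∧
        ∀ x : Fin n → ℝ, (∑ i, x i) = 0 →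
          |∑ i, ∑ j, (if G.Adj i j then x i * x j else 0)|
            ≤ (((2 * (s + 2) : ℕ) : ℝ) * Real.sqrt (d : ℝ)) * ∑ i, x i ^ 2 := by
  obtain ⟨H, h1, h2, h3⟩ := exists_even s N
  refine ⟨_, ?_, H, _, h1, h2, ?_, ?_⟩
  · have e1 : N < 2 ^ N := Nat.lt_two_pow_self
    have e2 : 2 * 2 ^ N ≤ (2 * 2 ^ N) ^ (2 * (s + 2)) :=
      Nat.le_self_pow (by omega) _
    omega
  · -- the degree
    have hq : (0 : ℝ) < 2 * 2 ^ N := by positivity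
    have hk : (0 : ℝ) < ((2 * (s + 2) : ℕ) : ℝ) := by
      exact_mod_cast (by omega : 0 < 2 * (s + 2))
    have e3 : (((2 * 2 ^ N) ^ (2 * (s + 2)) - 1 : ℕ) : ℝ) ≤ ((2 * 2 ^ N : ℝ)) ^ (2 * (s + 2)) := by
      have : (((2 * 2 ^ N) ^ (2 * (s + 2)) - 1 : ℕ) : ℝ)
          ≤ (((2 * 2 ^ N) ^ (2 * (s + 2)) : ℕ) : ℝ) := by
        exact_mod_cast Nat.sub_le _ _
      push_cast at this
      exact this
    have hexp : (0 : ℝ) ≤ 1 - 1 / ((2 * (s + 2) : ℕ) : ℝ) := by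
      rw [sub_nonneg, div_le_one hk]
      exact_mod_cast (by omega : 1 ≤ 2 * (s + 2))
    have e4 : ((((2 * 2 ^ N) ^ (2 * (s + 2)) - 1 : ℕ) : ℝ))
          ^ ((1 : ℝ) - 1 / ((2 * (s + 2) : ℕ) : ℝ)) ≤ (2 * 2 ^ N : ℝ) ^ (2 * s + 3) := by
      refine (Real.rpow_le_rpow (Nat.cast_nonneg _) e3 hexp).trans (le_of_eq ?_)
      rw [← Real.rpow_natCast (2 * 2 ^ N : ℝ) (2 * (s + 2)),
        ← Real.rpow_natCast (2 * 2 ^ N : ℝ) (2 * s + 3), ← Real.rpow_mul hq.le]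
      congr 1
      push_cast
      field_simp
      ring
    calc (1 / 2 : ℝ) * ((((2 * 2 ^ N) ^ (2 * (s + 2)) - 1 : ℕ) : ℝ))
          ^ ((1 : ℝ) - 1 / ((2 * (s + 2) : ℕ) : ℝ))
        ≤ (1 / 2 : ℝ) * (2 * 2 ^ N : ℝ) ^ (2 * s + 3) := by gcongr
      _ = ((2 ^ N * (2 * 2 ^ N) ^ (2 * s + 2) : ℕ) : ℝ) := by
          push_cast
          ring
  · intro x hx
    have := h3 x hx
    push_cast at this ⊢
    exact this

end Pool.Agent.PRW
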